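import Pool.Agent.U126.QP.Stm
import Pool.Agent.U126.NC.PairK

/-! # Tails of the number of near pairs -/

set_option autoImplicit false

namespace Pool.Agent.U126.QP

open scoped Classical
open Pool.Agent.W840.CT Pool.Agent.U126.NC

/-- the tails for one distance -/
def TD (k D : ℕ) : Prop := ∀ A : Set Pt, (∀ u ∈ A, far u → ∃ u' ∈ A, adj u u') → ∀ n s : ℕ,
    4 ^ s * ({B | B ∈ LS n ∧ (∀ v ∈ B, v ∈ A → v = 0) ∧ D * (s + 1) ≤ (VV A k B).card} :
      Set (List Pt)).ncard ≤ cn n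

theorem PK_cardD {k D : ℕ} (h : TD k D) (n m r : ℕ) :
    4 ^ r * (PK k n m (D * (r + 1))).ncard ≤ cn n * cn m := by
  set Gs : List Pt → Set (List Pt) := fun A =>
    {B | B ∈ LS m ∧ (∀ v ∈ B, v ∈ {x | x ∈ A} → v = 0) ∧
      D * (r + 1) ≤ (VV {x | x ∈ A} k B).card}
    with hG
  have hGf : ∀ A, (Gs A).Finite := fun A => (LS_finite m).subset (fun B hB => hB.1)
  have hsub : (PK k n m (D * (r + 1))) ⊆
      (((LS_finite n).toFinset.sigma (fun A => (hGf A).toFinset)).image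
        (fun q : (Σ _ : List Pt, List Pt) => (q.1, q.2)) : Finset (List Pt × List Pt)) := by
    rintro ⟨A, B⟩ ⟨h1, h2, h3, h4⟩
    simp only at h1 h2 h3 h4
    rw [Finset.mem_coe, Finset.mem_image]
    refine ⟨⟨A, B⟩, ?_, rfl⟩
    rw [Finset.mem_sigma, Set.Finite.mem_toFinset, Set.Finite.mem_toFinset]
    exact ⟨h1, h2, fun v hv hvA => h3 v hv hvA, h4⟩
  have h1 : (PK k n m (D * (r + 1))).ncard ≤
      ∑ A ∈ (LS_finite n).toFinset, (Gs A).ncard := by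
    refine (Set.ncard_le_ncard hsub (Finset.finite_toSet _)).trans ?_
    rw [Set.ncard_coe_finset]
    refine Finset.card_image_le.trans ?_
    rw [Finset.card_sigma]
    refine Finset.sum_le_sum (fun A _ => le_of_eq ?_)
    rw [Set.ncard_eq_toFinset_card _ (hGf A)]
  calc 4 ^ r * (PK k n m (D * (r + 1))).ncard
      ≤ 4 ^ r * ∑ A ∈ (LS_finite n).toFinset, (Gs A).ncard := Nat.mul_le_mul_left _ h1
    _ = ∑ A ∈ (LS_finite n).toFinset, 4 ^ r * (Gs A).ncard := Finset.mul_sum _ _ _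
    _ ≤ ∑ A ∈ (LS_finite n).toFinset, cn m := by
        refine Finset.sum_le_sum (fun A hA => ?_)
        rw [Set.Finite.mem_toFinset] at hA
        exact h {x | x ∈ A} (LS_nb hA) m r
    _ = (LS n).ncard * cn m := by
        rw [Finset.sum_const, smul_eq_mul, ← Set.ncard_eq_toFinset_card _ (LS_finite n)]
    _ ≤ cn n * cn m := Nat.mul_le_mul_right _ (LS_le _)

theorem tailD {k D : ℕ} (h : TD k D) : Tail (nr k) ((2 * k + 1) ^ 2 * D) := by
  intro N t r ht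
  have h1 : ({ω | SW N ω ∧ (2 * k + 1) ^ 2 * D * (r + 1) ≤ TR (nr k) N t ω} :
      Set (Fin (N + 1) → ℤ × ℤ)).ncard ≤ (PK k t (N - t) (D * (r + 1))).ncard := by
    refine Set.ncard_le_ncard_of_injOn (fun ω => (pa ω t, fu ω t)) ?_ ?_ (PK_finite _ _ _ _)
    · rintro ω ⟨h1, h2⟩
      refine ⟨pa_mem h1 ht, fu_mem h1 ht, split_disj h1 ht, ?_⟩
      have h3 := h2.trans (TR_le h1 k ht)
      rw [mul_assoc] at h3
      exact Nat.le_of_mul_le_mul_left h3 (by positivity)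
    · rintro ω ⟨h1, -⟩ ω' ⟨h1', -⟩ h
      simp only [Prod.mk.injEq] at h
      exact split_inj h1 h1' ht h.1 h.2
  exact (Nat.mul_le_mul_left _ h1).trans (PK_cardD h _ _ _)

theorem pair_tailD {k D : ℕ} (h : TD k D) (n m r : ℕ) :
    4 ^ r * ({q | SW n q.1 ∧ SW m q.2 ∧ DJ q.1 q.2 ∧
      (2 * k + 1) ^ 2 * D * (r + 1) ≤ CK k q.1 q.2} :
      Set ((Fin (n + 1) → ℤ × ℤ) × (Fin (m + 1) → ℤ × ℤ))).ncard ≤ cn n * cn m := by
  have h1 : ({q | SW n q.1 ∧ SW m q.2 ∧ DJ q.1 q.2 ∧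
      (2 * k + 1) ^ 2 * D * (r + 1) ≤ CK k q.1 q.2} :
      Set ((Fin (n + 1) → ℤ × ℤ) × (Fin (m + 1) → ℤ × ℤ))).ncard ≤
      (PK k n m (D * (r + 1))).ncard := by
    refine Set.ncard_le_ncard_of_injOn (fun q => (li q.1, li q.2)) ?_ ?_ (PK_finite _ _ _ _)
    · rintro ⟨w, w'⟩ ⟨h1, h2, h3, h4⟩
      simp only at h1 h2 h3 h4
      refine ⟨li_mem h1, li_mem h2, ?_, ?_⟩
      · intro v hv hv'
        simp only at hv hv'
        unfold li at hv hv'
        rw [List.mem_map] at hv hv'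
        obtain ⟨j, hj, rfl⟩ := hv
        obtain ⟨i, hi, hij⟩ := hv'
        rw [List.mem_range] at hi hj
        have e1 := ex_val w ⟨i, hi⟩
        have e2 := ex_val w' ⟨j, hj⟩
        simp only at e1 e2
        have h5 := h3 ⟨i, hi⟩ ⟨j, hj⟩ (by rw [← e1, ← e2]; exact hij)
        have h6 : j = 0 := by
          have := congrArg Fin.val h5.2
          simpa using this
        rw [h6]
        exact h2.zero
      · have h5 := h4.trans (CK_le k h1 h2)
        rw [mul_assoc] at h5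
        exact Nat.le_of_mul_le_mul_left h5 (by positivity)
    · rintro ⟨w, w'⟩ - ⟨u, u'⟩ - h
      simp only [Prod.mk.injEq] at h
      rw [Prod.mk.injEq]
      exact ⟨li_inj h.1, li_inj h.2⟩
  exact (Nat.mul_le_mul_left _ h1).trans (PK_cardD h _ _ _)

/-- `(log (k + 1))³` -/
noncomputable def lg (k : ℕ) : ℝ := Real.log (k + 1) ^ 3

theorem lg_ge {k : ℕ} (hk : 1 ≤ k) : (1 / 20 : ℝ) ≤ lg k := by
  unfold lg
  have h1 : Real.log 2 ≤ Real.log (k + 1) := by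
    refine Real.log_le_log (by norm_num) ?_
    have : (1 : ℝ) ≤ k := by exact_mod_cast hk
    linarith
  have h2 := Real.log_two_gt_d9
  calc (1 / 20 : ℝ) ≤ (0.69 : ℝ) ^ 3 := by norm_num
    _ ≤ Real.log (k + 1) ^ 3 := by
        refine pow_le_pow_left₀ (by norm_num) ?_ 3
        linarith

/-- constants are absorbed -/
theorem absorb {C : ℝ} (hC : 1 ≤ C) {K : ℝ} {k : ℕ} (hk : 1 ≤ k) :
    C * Real.exp (K * lg k) ≤ Real.exp ((K + 20 * Real.log C) * lg k) := by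
  have h1 := lg_ge hk
  have h2 : 0 ≤ Real.log C := Real.log_nonneg hC
  have h3 : C = Real.exp (Real.log C) := (Real.exp_log (by linarith)).symm
  calc C * Real.exp (K * lg k) = Real.exp (Real.log C + K * lg k) := by
        rw [Real.exp_add, ← h3]
    _ ≤ _ := by
        refine Real.exp_le_exp.2 ?_
        nlinarith

/-- the square of `2 k + 1` is absorbed -/
theorem sq_le {k : ℕ} (hk : 1 ≤ k) : ((2 * k + 1 : ℕ) : ℝ) ^ 2 ≤ Real.exp (80 * lg k) := by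
  have hk' : (1 : ℝ) ≤ k := by exact_mod_cast hk
  have h1 : ((2 * k + 1 : ℕ) : ℝ) ^ 2 ≤ ((k : ℝ) + 1) ^ 4 := by
    push_cast
    have : 2 * (k : ℝ) + 1 ≤ (k + 1) ^ 2 := by nlinarith
    calc (2 * (k : ℝ) + 1) ^ 2 ≤ ((k + 1) ^ 2) ^ 2 := pow_le_pow_left₀ (by positivity) this 2
      _ = _ := by ring
  have h2 : ((k : ℝ) + 1) ^ 4 = Real.exp (4 * Real.log (k + 1)) := by
    rw [← Real.exp_log (show (0 : ℝ) < k + 1 by positivity), ← Real.exp_nat_mul,
      Real.log_exp]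
    norm_num
  rw [h2] at h1
  refine h1.trans (Real.exp_le_exp.2 ?_)
  unfold lg
  have h3 : Real.log 2 ≤ Real.log (k + 1) := by
    refine Real.log_le_log (by norm_num) (by linarith)
  have h4 := Real.log_two_gt_d9
  set x := Real.log ((k : ℝ) + 1) with hx
  have h5 : (1 / 20 : ℝ) ≤ x ^ 2 := by
    calc (1 / 20 : ℝ) ≤ (0.69 : ℝ) ^ 2 := by norm_num
      _ ≤ x ^ 2 := pow_le_pow_left₀ (by norm_num) (by linarith) 2
  have h6 : x ^ 3 = x * x ^ 2 := by ring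
  rw [h6]
  nlinarith

/-- the form which is used for the results -/
theorem fin (h : S_MAIN) : ∃ K : ℝ, 0 < K ∧ ∀ k : ℕ, 1 ≤ k → ∃ D : ℕ, 1 ≤ D ∧ TD k D ∧
    (((2 * k + 1) ^ 2 * D : ℕ) : ℝ) ≤ Real.exp (K * lg k) := by
  obtain ⟨K, hK, h⟩ := h
  refine ⟨80 + K, by linarith, fun k hk => ?_⟩
  obtain ⟨D, hD1, hD2, hD3⟩ := h k hk
  refine ⟨D, hD1, hD3, ?_⟩
  push_cast
  have h1 := sq_le hk
  push_cast at h1
  calc (2 * (k : ℝ) + 1) ^ 2 * D ≤ Real.exp (80 * lg k) * Real.exp (K * lg k) :=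
        mul_le_mul h1 hD2 (by positivity) (Real.exp_pos _).le
    _ = _ := by rw [← Real.exp_add]; ring_nf

/-- `log (k + 1)` is absorbed -/
theorem log_abs {k : ℕ} (hk : 1 ≤ k) : 1 + 5 * Real.log (k + 1) ≤ Real.exp (100 * lg k) := by
  have hk' : (1 : ℝ) ≤ k := by exact_mod_cast hk
  have h3 : Real.log 2 ≤ Real.log (k + 1) := by
    refine Real.log_le_log (by norm_num) (by linarith)
  have h4 := Real.log_two_gt_d9
  have h1 := Real.add_one_le_exp (5 * Real.log ((k : ℝ) + 1))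
  refine le_trans (by linarith) (h1.trans (Real.exp_le_exp.2 ?_))
  unfold lg
  set x := Real.log ((k : ℝ) + 1) with hx
  have h5 : (1 / 20 : ℝ) ≤ x ^ 2 := by
    calc (1 / 20 : ℝ) ≤ (0.69 : ℝ) ^ 2 := by norm_num
      _ ≤ x ^ 2 := pow_le_pow_left₀ (by norm_num) (by linarith) 2
  have h6 : x ^ 3 = x * x ^ 2 := by ring
  rw [h6]
  nlinarith

/-- a union bound over all distances -/
theorem union_le {α : Type*} {S : Set α} (hS : S.Finite) (E : ℕ → Set α) (hES : ∀ r, E r ⊆ S)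
    {c : ℝ} (hc : 0 ≤ c) (h : ∀ r : ℕ, 1 ≤ r → ((E r).ncard : ℝ) ≤ c / ((r : ℝ) + 1) ^ 2) :
    (({a | ∃ r, 1 ≤ r ∧ a ∈ E r} : Set α).ncard : ℝ) ≤ c := by
  have hU : ({a | ∃ r, 1 ≤ r ∧ a ∈ E r} : Set α).Finite :=
    hS.subset (fun a ⟨r, _, ha⟩ => hES r ha)
  have hch : ∀ a, ∃ r : ℕ, a ∈ ({a | ∃ r, 1 ≤ r ∧ a ∈ E r} : Set α) → 1 ≤ r ∧ a ∈ E r := by
    intro a
    by_cases ha : a ∈ ({a | ∃ r, 1 ≤ r ∧ a ∈ E r} : Set α)
    · obtain ⟨r, hr⟩ := ha
      exact ⟨r, fun _ => hr⟩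
    · exact ⟨0, fun h => absurd h ha⟩
  choose f hf using hch
  set N : ℕ := hU.toFinset.sup f with hN
  have hsub : ({a | ∃ r, 1 ≤ r ∧ a ∈ E r} : Set α) ⊆ ⋃ r ∈ Finset.Ico 1 (N + 1), E r := by
    intro a ha
    obtain ⟨h1, h2⟩ := hf a ha
    rw [Set.mem_iUnion₂]
    refine ⟨f a, ?_, h2⟩
    rw [Finset.mem_Ico]
    have h3 : f a ≤ N := Finset.le_sup (f := f) (hU.mem_toFinset.2 ha)
    omega
  have hfin : (⋃ r ∈ Finset.Ico 1 (N + 1), E r).Finite :=
    hS.subset (Set.iUnion₂_subset (fun r _ => hES r))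
  have h1 : (({a | ∃ r, 1 ≤ r ∧ a ∈ E r} : Set α).ncard : ℝ) ≤
      ∑ r ∈ Finset.Ico 1 (N + 1), ((E r).ncard : ℝ) := by
    have e1 := Set.ncard_le_ncard hsub hfin
    have e2 : (⋃ r ∈ Finset.Ico 1 (N + 1), E r).ncard ≤
        ∑ r ∈ Finset.Ico 1 (N + 1), (E r).ncard :=
      Finset.set_ncard_biUnion_le (Finset.Ico 1 (N + 1)) E
    exact_mod_cast e1.trans e2
  refine h1.trans ?_
  have h2 : ∀ M : ℕ, ∑ r ∈ Finset.Ico 1 (M + 1), c / ((r : ℝ) + 1) ^ 2 ≤ c * (1 - 1 / (M + 1)) := by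
    intro M
    induction M with
    | zero => simp
    | succ M ih =>
      rw [Finset.sum_Ico_succ_top (by omega)]
      have e1 : c / (((M + 1 : ℕ) : ℝ) + 1) ^ 2 ≤ c * (1 / (M + 1) - 1 / ((M + 1 : ℕ) + 1)) := by
        push_cast
        rw [div_eq_mul_one_div]
        refine mul_le_mul_of_nonneg_left ?_ hc
        have hM : (0 : ℝ) ≤ M := Nat.cast_nonneg M
        rw [div_sub_div _ _ (by positivity) (by positivity), div_le_div_iff₀ (by positivity)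
          (by positivity)]
        nlinarith
      have e2 := add_le_add ih e1
      refine e2.trans (le_of_eq ?_)
      push_cast
      ring
  refine (Finset.sum_le_sum (fun r hr => h r (Finset.mem_Ico.1 hr).1)).trans ((h2 N).trans ?_)
  have : (0 : ℝ) ≤ 1 / ((N : ℝ) + 1) := by positivity
  nlinarith

end Pool.Agent.U126.QP
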