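import Pool.Agent.U126.QP.Stm

/-! # Package CAND: counting candidates (helper312) -/

set_option autoImplicit false

namespace Pool.Agent.U126.QP

open scoped Classical
open Pool.Agent.W840.CT

namespace Cand

/-- inverse rotations -/
def rhi : Fin 4 → Pt → Pt
  | 0 => fun p => p
  | 1 => fun p => (p.2, -p.1)
  | 2 => fun p => (-p.1, -p.2)
  | 3 => fun p => (-p.2, p.1)

theorem rhi_rho (o : Fin 4) (p : Pt) : rhi o (rho o p) = p := by
  obtain ⟨x, y⟩ := p
  fin_cases o <;> simp [rhi, rho]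

theorem d2_rho (o : Fin 4) (p q : Pt) : d2 (rho o p) (rho o q) = d2 p q := by
  fin_cases o <;> simp only [rho, d2] <;> ring

theorem rho_sub1 (o : Fin 4) (p q : Pt) : (rho o p).1 - (rho o q).1 = (rho o (p - q)).1 := by
  obtain ⟨x, y⟩ := p
  obtain ⟨z, w⟩ := q
  fin_cases o <;> simp [rho] <;> ring

theorem rho_sub2 (o : Fin 4) (p q : Pt) : (rho o p).2 - (rho o q).2 = (rho o (p - q)).2 := by
  obtain ⟨x, y⟩ := p
  obtain ⟨z, w⟩ := q
  fin_cases o <;> simp [rho] <;> ring

theorem far_rho (o : Fin 4) (x v : Pt) (M : ℤ) (h : M < |x.1 - v.1| ∨ M < |x.2 - v.2|) :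
    M < |(rho o x).1 - (rho o v).1| ∨ M < |(rho o x).2 - (rho o v).2| := by
  obtain ⟨x1, x2⟩ := x
  obtain ⟨v1, v2⟩ := v
  have e1 : |(-x1) - (-v1)| = |x1 - v1| := by
    rw [← abs_neg]; congr 1; ring
  have e2 : |(-x2) - (-v2)| = |x2 - v2| := by
    rw [← abs_neg]; congr 1; ring
  fin_cases o
  · exact h
  · show M < |(-x2) - (-v2)| ∨ M < |x1 - v1|
    rw [e2]
    exact h.symm
  · show M < |(-x1) - (-v1)| ∨ M < |(-x2) - (-v2)|
    rw [e1, e2]
    exact h
  · show M < |x2 - v2| ∨ M < |(-x1) - (-v1)|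
    rw [e1]
    exact h.symm

theorem FE_rho {B : List Pt} {v : Pt} {L : ℤ} (h : FE B v L) (o : Fin 4) :
    FE (B.map (rho o)) (rho o v) L := by
  unfold FE at *
  refine ⟨?_, ?_⟩
  · intro x hx
    rw [List.head?_map] at hx
    obtain ⟨y, hy, rfl⟩ := Option.mem_map.1 hx
    exact far_rho o y v _ (h.1 y hy)
  · intro x hx
    rw [List.getLast?_map] at hx
    obtain ⟨y, hy, rfl⟩ := Option.mem_map.1 hx
    exact far_rho o y v _ (h.2 y hy)

theorem quad {L : ℤ} (hL : 0 < L) {w : Pt} (h : 393 * L ^ 2 < w.1 ^ 2 + w.2 ^ 2) :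
    ∃ o : Fin 4, |(rho o w).2| ≤ (rho o w).1 ∧ 13 * L ≤ (rho o w).1 := by
  have key : ∀ p q : ℤ, 393 * L ^ 2 < p ^ 2 + q ^ 2 → |q| ≤ p → 13 * L ≤ p := by
    intro p q hpq h1
    have hp : 0 ≤ p := (abs_nonneg q).trans h1
    have h2 : q ^ 2 ≤ p ^ 2 := by
      rw [← sq_abs q]
      exact pow_le_pow_left₀ (abs_nonneg q) h1 2
    by_contra hcon
    push Not at hcon
    have h3 : p ^ 2 ≤ (13 * L) ^ 2 := pow_le_pow_left₀ hp hcon.le 2
    nlinarith [sq_nonneg L, mul_pos hL hL]
  obtain ⟨p, q⟩ := w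
  simp only at h
  by_cases hA : |q| ≤ |p|
  · rcases le_total 0 p with hp | hp
    · rw [abs_of_nonneg hp] at hA
      exact ⟨0, hA, key p q h hA⟩
    · rw [abs_of_nonpos hp] at hA
      refine ⟨2, ?_, ?_⟩
      · show |-q| ≤ -p
        rw [abs_neg]
        exact hA
      · exact key (-p) q (by rw [neg_sq]; exact h) hA
  · push Not at hA
    rcases le_total 0 q with hq | hq
    · rw [abs_of_nonneg hq] at hA
      refine ⟨3, ?_, ?_⟩
      · show |-p| ≤ q
        rw [abs_neg]
        exact hA.le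
      · exact key q p (by rw [add_comm]; exact h) hA.le
    · rw [abs_of_nonpos hq] at hA
      refine ⟨1, ?_, ?_⟩
      · show |p| ≤ -q
        exact hA.le
      · exact key (-q) p (by rw [neg_sq, add_comm]; exact h) hA.le

/-- box around a point -/
noncomputable def bx (M : ℤ) (x : Option Pt) : Finset Pt :=
  match x with
  | none => ∅
  | some p => Finset.Icc (p.1 - M) (p.1 + M) ×ˢ Finset.Icc (p.2 - M) (p.2 + M)

theorem bx_card (M : ℕ) (x : Option Pt) : (bx M x).card ≤ (2 * M + 1) ^ 2 := by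
  cases x with
  | none => simp [bx]
  | some p =>
    unfold bx
    simp only
    rw [Finset.card_product, Int.card_Icc, Int.card_Icc]
    have e1 : (p.1 + (M : ℤ) + 1 - (p.1 - M)).toNat = 2 * M + 1 := by omega
    have e2 : (p.2 + (M : ℤ) + 1 - (p.2 - M)).toNat = 2 * M + 1 := by omega
    rw [e1, e2, sq]

theorem mem_bx {M : ℤ} {x : Option Pt} {v p : Pt} (hp : p ∈ x) (h1 : |p.1 - v.1| ≤ M)
    (h2 : |p.2 - v.2| ≤ M) : v ∈ bx M x := by
  rw [Option.mem_def] at hp
  subst hp
  unfold bx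
  simp only
  rw [Finset.mem_product, Finset.mem_Icc, Finset.mem_Icc]
  rw [abs_le] at h1 h2
  exact ⟨⟨by linarith [h1.2], by linarith [h1.1]⟩, ⟨by linarith [h2.2], by linarith [h2.1]⟩⟩

theorem coord {L : ℤ} (hL : 0 ≤ L) {p a : Pt} {r : ℤ} (hr : r ≤ 400 * (L + 1) ^ 2)
    (h1 : d2 p a ≤ r) : |p.1 - a.1| ≤ 20 * (L + 1) ∧ |p.2 - a.2| ≤ 20 * (L + 1) := by
  unfold d2 at h1
  have e : (20 * (L + 1)) ^ 2 = 400 * (L + 1) ^ 2 := by ring
  refine ⟨?_, ?_⟩
  · apply abs_le_of_sq_le_sq _ (by linarith)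
    rw [e]
    linarith [sq_nonneg (p.2 - a.2)]
  · apply abs_le_of_sq_le_sq _ (by linarith)
    rw [e]
    linarith [sq_nonneg (p.1 - a.1)]

end Cand

open Cand in
theorem cand : S_CAND := by
  intro A L r B hL hr1 hr2
  have hL' : (50 : ℤ) ≤ L := by exact_mod_cast hL
  have hch : ∀ v ∈ VD A r B, ∃ w a, a ∈ A ∧ d2 v a ≤ r ∧ w ∈ B.toFinset ∧
      ∀ b ∈ B.toFinset, d2 w a ≤ d2 b a := by
    intro v hv
    unfold VD at hv
    rw [Finset.mem_filter] at hv
    obtain ⟨hvB, a, ha, hva⟩ := hv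
    obtain ⟨w, hw, hmin⟩ := Finset.exists_min_image B.toFinset (fun b => d2 b a) ⟨v, hvB⟩
    exact ⟨w, a, ha, hva, hw, hmin⟩
  choose! f a h1 h2 h3 h4 using hch
  set U : Finset Pt := ((VD A (r - 7 * (L : ℤ) ^ 2) B ∪ (bx (12 * L : ℕ) B.head? ∪
    bx (12 * L : ℕ) B.getLast?)) ∪
    (Finset.univ : Finset (Fin 4)).biUnion (fun o =>
      (CA (rho o '' A) L r (B.map (rho o))).image (rhi o))) with hU
  have himg : (VD A r B).image f ⊆ U := by
    intro w hw
    rw [Finset.mem_image] at hw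
    obtain ⟨v, hv, rfl⟩ := hw
    have hvB : v ∈ B.toFinset := (Finset.mem_filter.1 (show v ∈ B.toFinset.filter _ from hv)).1
    have k1 := h1 v hv
    have k2 : d2 (f v) (a v) ≤ r := (h4 v hv v hvB).trans (h2 v hv)
    have k3 := h3 v hv
    have k4 := h4 v hv
    rw [hU, Finset.mem_union]
    by_cases c1 : d2 (f v) (a v) ≤ r - 7 * (L : ℤ) ^ 2
    · left
      rw [Finset.mem_union]
      left
      unfold VD
      rw [Finset.mem_filter]
      exact ⟨k3, a v, k1, c1⟩
    · by_cases c2 : FE B (f v) L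
      · right
        push Not at c1
        have c3 : 393 * (L : ℤ) ^ 2 < (a v - f v).1 ^ 2 + (a v - f v).2 ^ 2 := by
          have e : (a v - f v).1 ^ 2 + (a v - f v).2 ^ 2 = d2 (f v) (a v) := by
            unfold d2
            rw [Prod.fst_sub, Prod.snd_sub]
            ring
          rw [e]
          linarith
        obtain ⟨o, o1, o2⟩ := quad (by linarith : (0 : ℤ) < L) c3
        rw [Finset.mem_biUnion]
        refine ⟨o, Finset.mem_univ _, ?_⟩
        rw [Finset.mem_image]
        refine ⟨rho o (f v), ?_, rhi_rho o _⟩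
        unfold CA
        rw [Finset.mem_filter]
        refine ⟨?_, rho o (a v), ⟨a v, k1, rfl⟩, ?_, ?_, ?_, ?_, FE_rho c2 o⟩
        · rw [List.mem_toFinset]
          exact List.mem_map_of_mem (List.mem_toFinset.1 k3)
        · intro b hb
          obtain ⟨b', hb', rfl⟩ := List.mem_map.1 hb
          rw [d2_rho, d2_rho]
          exact k4 b' (List.mem_toFinset.2 hb')
        · rw [rho_sub1, rho_sub2]
          exact o1
        · rw [rho_sub1]
          exact o2
        · rw [d2_rho]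
          exact k2
      · left
        rw [Finset.mem_union]
        right
        rw [Finset.mem_union]
        unfold FE at c2
        rw [not_and_or] at c2
        rcases c2 with c2 | c2
        · left
          push Not at c2
          obtain ⟨x, hx, x1, x2⟩ := c2
          refine mem_bx hx ?_ ?_
          · push_cast
            exact x1
          · push_cast
            exact x2
        · right
          push Not at c2
          obtain ⟨x, hx, x1, x2⟩ := c2
          refine mem_bx hx ?_ ?_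
          · push_cast
            exact x1
          · push_cast
            exact x2
  have hUc : U.card ≤ (VD A (r - 7 * (L : ℤ) ^ 2) B).card + 2 * (24 * L + 1) ^ 2 +
      ∑ o : Fin 4, (CA (rho o '' A) L r (B.map (rho o))).card := by
    rw [hU]
    refine (Finset.card_union_le _ _).trans ?_
    have e1 := Finset.card_union_le (VD A (r - 7 * (L : ℤ) ^ 2) B)
      (bx (12 * L : ℕ) B.head? ∪ bx (12 * L : ℕ) B.getLast?)
    have e2 := Finset.card_union_le (bx (12 * L : ℕ) B.head?) (bx (12 * L : ℕ) B.getLast?)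
    have e3 := bx_card (12 * L) B.head?
    have e4 := bx_card (12 * L) B.getLast?
    have e5 : 2 * (12 * L) + 1 = 24 * L + 1 := by ring
    rw [e5] at e3 e4
    have e6 : ((Finset.univ : Finset (Fin 4)).biUnion (fun o =>
        (CA (rho o '' A) L r (B.map (rho o))).image (rhi o))).card ≤
        ∑ o : Fin 4, (CA (rho o '' A) L r (B.map (rho o))).card :=
      Finset.card_biUnion_le.trans (Finset.sum_le_sum fun o _ => Finset.card_image_le)
    omega
  have hfib : ∀ w ∈ (VD A r B).image f,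
      ((VD A r B).filter (fun v => f v = w)).card ≤ (81 * (L + 1)) ^ 2 := by
    intro w _
    have hsub : (VD A r B).filter (fun v => f v = w) ⊆ bx (40 * (L + 1) : ℕ) (some w) := by
      intro v hv
      rw [Finset.mem_filter] at hv
      obtain ⟨hv, hvw⟩ := hv
      have hvB : v ∈ B.toFinset := (Finset.mem_filter.1 (show v ∈ B.toFinset.filter _ from hv)).1
      have k2 : d2 (f v) (a v) ≤ r := (h4 v hv v hvB).trans (h2 v hv)
      have t1 := coord (by linarith : (0 : ℤ) ≤ L) hr2 (h2 v hv)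
      have t2 := coord (by linarith : (0 : ℤ) ≤ L) hr2 k2
      rw [hvw] at t2
      refine mem_bx (p := w) rfl ?_ ?_
      · have := abs_sub_le w.1 (a v).1 v.1
        rw [abs_sub_comm (a v).1 v.1] at this
        push_cast
        linarith [t1.1, t2.1]
      · have := abs_sub_le w.2 (a v).2 v.2
        rw [abs_sub_comm (a v).2 v.2] at this
        push_cast
        linarith [t1.2, t2.2]
    refine (Finset.card_le_card hsub).trans ((bx_card _ _).trans ?_)
    apply Nat.pow_le_pow_left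
    omega
  have hfin := Finset.card_le_mul_card_image (VD A r B) _ hfib
  calc (VD A r B).card ≤ (81 * (L + 1)) ^ 2 * ((VD A r B).image f).card := hfin
    _ ≤ (81 * (L + 1)) ^ 2 * U.card := Nat.mul_le_mul_left _ (Finset.card_le_card himg)
    _ ≤ (81 * (L + 1)) ^ 2 * ((VD A (r - 7 * (L : ℤ) ^ 2) B).card + 2 * (24 * L + 1) ^ 2 +
        ∑ o : Fin 4, (CA (rho o '' A) L r (B.map (rho o))).card) :=
        Nat.mul_le_mul_left _ hUc
    _ = _ := mul_comm _ _

end Pool.Agent.U126.QP
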