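import Pool.Agent.U126.QP.Stm

/-!
# Package CYC: polygons from cyclic shifts of pieces
-/

set_option autoImplicit false

namespace Pool.Agent.U126.QP

open scoped Classical
open Pool.Agent.W840.CT

namespace CycP

open Pool.Agent.H122R3.SX (W st pos pos_append Saw G X)

/-- the position after a word, the height first -/
def P (w : W) : Pt := (pos w 0, pos w 1)

theorem P_nil : P [] = 0 := rfl

theorem P_append (u v : W) : P (u ++ v) = P u + P v := by
  unfold P
  rw [pos_append, pos_append]
  rfl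

theorem st_one' (l : Fin 4) : |st l 0| + |st l 1| = 1 := by
  revert l
  decide

theorem P_step {w : W} {i : ℕ} (hi : i < w.length) : adj (P (w.take i)) (P (w.take (i + 1))) := by
  have e1 : w.take (i + 1) = w.take i ++ [w[i]] := by
    rw [List.take_add_one, List.getElem?_eq_getElem hi]; rfl
  rw [e1, P_append]
  unfold adj P
  simp only [Prod.fst_add, Prod.snd_add, add_sub_cancel_left]
  have := st_one' w[i]
  simpa [Pool.Agent.H122R3.SX.pos] using this

theorem P_inj {w : W} (hw : Saw w) {i j : ℕ} (hi : i ≤ w.length) (hj : j ≤ w.length)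
    (h : P (w.take i) = P (w.take j)) : i = j := by
  unfold P at h
  rw [Prod.mk.injEq] at h
  by_contra hne
  rcases Nat.lt_or_gt_of_ne hne with h1 | h1
  · obtain ⟨a, ha⟩ := hw.take_ne h1 hj
    fin_cases a
    · exact ha h.1
    · exact ha h.2
  · obtain ⟨a, ha⟩ := hw.take_ne h1 hi
    fin_cases a
    · exact ha h.1.symm
    · exact ha h.2.symm

/-- the list of the sites -/
def pt (w : W) : List Pt := (List.range (w.length + 1)).map fun k => P (w.take k)

/-- what is needed of the words -/
structure Gd (S m : ℕ) (u : W) : Prop where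
  len : u.length = m
  inj : ∀ i j, i ≤ m → j ≤ m → P (u.take i) = P (u.take j) → i = j
  fin : P u = (2 * (S : ℤ), 0)
  box : ∀ i, i ≤ m → -(2 * (S : ℤ)) ≤ (P (u.take i)).1 ∧ (P (u.take i)).1 ≤ 4 * S ∧
    0 ≤ (P (u.take i)).2 ∧ (P (u.take i)).2 ≤ 4 * S

theorem shift {S m : ℕ} {w : W} (hw : G (2 * S) 0 (2 * S) w) (hm : w.length = m) :
    ∃ j, j ≤ m ∧ Gd S m (w.rotate j) := by
  obtain ⟨j, hj, hmin⟩ := Finset.exists_min_image (Finset.range (m + 1))
    (fun i => (P (w.take i)).2) ⟨0, by simp⟩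
  rw [Finset.mem_range] at hj
  have hmin' : ∀ i, i ≤ m → (P (w.take j)).2 ≤ (P (w.take i)).2 := fun i hi =>
    hmin i (Finset.mem_range.2 (by omega))
  have hPw : P w = (2 * (S : ℤ), 0) := by
    unfold P
    rw [hw.top]
    have := hw.hor
    unfold Pool.Agent.H122R3.SX.X at this
    rw [this]
  have hb : ∀ i, 0 ≤ (P (w.take i)).1 ∧ (P (w.take i)).1 ≤ 2 * S ∧ |(P (w.take i)).2| ≤ 2 * S := by
    intro i
    have h1 := hw.high (w.take i) (List.take_prefix _ _)
    refine ⟨?_, h1.1, h1.2⟩
    by_cases h0 : w.take i = []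
    · rw [h0]; exact le_rfl
    · have := hw.low (w.take i) (List.take_prefix _ _) h0
      show 0 ≤ pos (w.take i) 0
      omega
  have hp : ∀ i, 1 ≤ i → i ≤ m → 1 ≤ (P (w.take i)).1 := by
    intro i hi him
    refine hw.low (w.take i) (List.take_prefix _ _) ?_
    intro h0
    have := congrArg List.length h0
    rw [List.length_take, List.length_nil] at this
    omega
  have hr : w.rotate j = w.drop j ++ w.take j :=
    List.rotate_eq_drop_append_take (by omega)
  have hlen : (w.rotate j).length = m := by rw [List.length_rotate]; exact hm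
  -- the first part
  have e1 : ∀ i, i ≤ m - j → P ((w.rotate j).take i) = P (w.take (j + i)) - P (w.take j) := by
    intro i hi
    rw [hr, List.take_append_of_le_length (by rw [List.length_drop]; omega)]
    have : w.take (j + i) = w.take j ++ (w.drop j).take i := by
      rw [List.take_add]
    rw [this, P_append]
    abel
  -- the second part
  have e2 : ∀ i, i ≤ j → P ((w.rotate j).take (m - j + i)) = P w + P (w.take i) - P (w.take j) := by
    intro i hi
    have h1 : (w.rotate j).take (m - j + i) = w.drop j ++ w.take i := by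
      rw [hr]
      have hl : m - j = (w.drop j).length := by rw [List.length_drop, hm]
      rw [hl, List.take_length_add_append, List.take_take, min_eq_left hi]
    have h2 : P w = P (w.take j) + P (w.drop j) := by
      rw [← P_append, List.take_append_drop]
    rw [h1, P_append, h2]
    abel
  refine ⟨j, by omega, hlen, ?_, ?_, ?_⟩
  · -- injectivity
    have key : ∀ i i', i ≤ m → i' ≤ m → i < i' →
        P ((w.rotate j).take i) ≠ P ((w.rotate j).take i') := by
      intro i i' hi hi' hlt h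
      rcases Nat.lt_or_ge (m - j) i' with hc | hc
      · rcases Nat.lt_or_ge (m - j) i with hd | hd
        · obtain ⟨a, rfl⟩ : ∃ a, i = m - j + a := ⟨i - (m - j), by omega⟩
          obtain ⟨b, rfl⟩ : ∃ b, i' = m - j + b := ⟨i' - (m - j), by omega⟩
          rw [e2 a (by omega), e2 b (by omega)] at h
          have h' : P (w.take a) = P (w.take b) := by
            have := sub_left_injective h
            exact add_left_cancel this
          have := P_inj hw.saw (by omega) (by omega) h'
          omega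
        · obtain ⟨b, rfl⟩ : ∃ b, i' = m - j + b := ⟨i' - (m - j), by omega⟩
          rw [e1 i hd, e2 b (by omega)] at h
          have h' := congrArg Prod.fst (sub_left_injective h)
          rw [Prod.fst_add, hPw] at h'
          have h3 := hp b (by omega) (by omega)
          have h4 := (hb (j + i)).2.1
          simp only at h'
          omega
      · rw [e1 i (by omega), e1 i' hc] at h
        have h' := sub_left_injective h
        have := P_inj hw.saw (by omega) (by omega) h'
        omega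
    intro i i' hi hi' h
    by_contra hne
    rcases Nat.lt_or_gt_of_ne hne with h1 | h1
    · exact key i i' hi hi' h1 h
    · exact key i' i hi' hi h1 h.symm
  · have : P (w.rotate j) = P (w.drop j) + P (w.take j) := by rw [hr, P_append]
    rw [this, add_comm, ← P_append, List.take_append_drop, hPw]
  · intro i hi
    have hbj := hb j
    have hmj := hmin' 
    rcases Nat.lt_or_ge (m - j) i with hc | hc
    · obtain ⟨b, rfl⟩ : ∃ b, i = m - j + b := ⟨i - (m - j), by omega⟩
      rw [e2 b (by omega), hPw]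
      have h1 := hb b
      have h2 := hmin' b (by omega)
      have h3 := abs_le.1 hbj.2.2
      have h4 := abs_le.1 h1.2.2
      simp only [Prod.fst_sub, Prod.snd_sub, Prod.fst_add, Prod.snd_add]
      refine ⟨?_, ?_, ?_, ?_⟩ <;> omega
    · rw [e1 i hc]
      have h1 := hb (j + i)
      have h2 := hmin' (j + i) (by omega)
      have h3 := abs_le.1 hbj.2.2
      have h4 := abs_le.1 h1.2.2
      simp only [Prod.fst_sub, Prod.snd_sub]
      refine ⟨?_, ?_, ?_, ?_⟩ <;> omega

theorem pt_LS {S m : ℕ} {u : W} (hu : Gd S m u) : pt u ∈ LS m := by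
  have h := map_mem_LS (n := m) (g := fun k => P (u.take k)) (by simp [P_nil])
    (fun i hi => P_step (by rw [hu.len]; exact hi)) hu.inj
  unfold pt
  rw [hu.len]
  exact h

theorem pt_last {u : W} : (pt u).getLast? = some (P u) := by
  unfold pt
  rw [List.range_succ, List.map_append]
  simp

theorem pt_mem {S m : ℕ} {u : W} (hu : Gd S m u) {p : Pt} (hp : p ∈ pt u) :
    -(2 * (S : ℤ)) ≤ p.1 ∧ p.1 ≤ 4 * S ∧ 0 ≤ p.2 ∧ p.2 ≤ 4 * S := by
  unfold pt at hp
  rw [List.mem_map] at hp
  obtain ⟨i, hi, rfl⟩ := hp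
  rw [List.mem_range, hu.len] at hi
  exact hu.box i (by omega)

theorem pt_inj {S m : ℕ} {u v : W} (hu : Gd S m u) (hv : Gd S m v) (h : pt u = pt v) : u = v := by
  unfold pt at h
  rw [hu.len, hv.len, List.map_inj_left] at h
  have key : ∀ k, k ≤ m → u.take k = v.take k := by
    intro k
    induction k with
    | zero => intro _; simp
    | succ k ih =>
      intro hk
      have h1 := ih (by omega)
      have h2 := h (k + 1) (List.mem_range.2 (by omega))
      have hul := hu.len
      have hvl := hv.len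
      have e1 : u.take (k + 1) = u.take k ++ [u[k]'(by omega)] := by
        rw [List.take_add_one, List.getElem?_eq_getElem (by omega)]; rfl
      have e2 : v.take (k + 1) = v.take k ++ [v[k]'(by omega)] := by
        rw [List.take_add_one, List.getElem?_eq_getElem (by omega)]; rfl
      rw [e1, e2, ← h1, P_append, P_append] at h2
      have h3 := add_left_cancel h2
      have h4 : ∀ a b : Fin 4, P [a] = P [b] → a = b := by
        intro a b hab
        unfold P at hab
        rw [Prod.mk.injEq] at hab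
        obtain ⟨q1, q2⟩ := hab
        simp only [Pool.Agent.H122R3.SX.pos, add_zero] at q1 q2
        revert q1 q2
        revert a b
        decide
      rw [e1, e2, ← h1, h4 _ _ h3]
  have := key m le_rfl
  rwa [List.take_of_length_le hu.len.le, List.take_of_length_le hv.len.le] at this

/-- the reflection -/
def re (p : Pt) : Pt := (p.1, -1 - p.2)

theorem re_inj : Function.Injective re := by
  intro p q h
  unfold re at h
  rw [Prod.mk.injEq] at h
  exact Prod.ext h.1 (by omega)

theorem re_adj {p q : Pt} (h : adj p q) : adj (re p) (re q) := by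
  unfold adj at *
  unfold re
  simp only
  rw [show -1 - q.2 - (-1 - p.2) = -(q.2 - p.2) by ring, abs_neg]
  exact h

/-- the lower part -/
def lo (v : W) : List Pt := ((pt v).map re).reverse

theorem lo_ch {S m : ℕ} {v : W} (hv : Gd S m v) : (lo v).IsChain adj := by
  unfold lo
  have h1 : ((pt v).map re).IsChain adj :=
    (List.isChain_map re).2 ((pt_LS hv).2.2.1.imp (fun p q hpq => re_adj hpq))
  exact List.isChain_reverse.2 (h1.imp (fun p q hpq => adj_comm hpq))

theorem lo_nd {S m : ℕ} {v : W} (hv : Gd S m v) : (lo v).Nodup := by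
  unfold lo
  rw [List.nodup_reverse]
  exact (pt_LS hv).2.2.2.map re_inj

theorem lo_len {S m : ℕ} {v : W} (hv : Gd S m v) : (lo v).length = m + 1 := by
  unfold lo
  rw [List.length_reverse, List.length_map]
  exact (pt_LS hv).1

theorem lo_head {S m : ℕ} {v : W} (hv : Gd S m v) : (lo v).head? = some (2 * (S : ℤ), -1) := by
  unfold lo
  rw [List.head?_reverse, List.getLast?_map, pt_last, hv.fin]
  rfl

theorem lo_last {S m : ℕ} {v : W} (hv : Gd S m v) : (lo v).getLast? = some (0, -1) := by
  unfold lo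
  rw [List.getLast?_reverse, List.head?_map, (pt_LS hv).2.1]
  rfl

theorem lo_mem {S m : ℕ} {v : W} (hv : Gd S m v) {p : Pt} (hp : p ∈ lo v) :
    -(2 * (S : ℤ)) ≤ p.1 ∧ p.1 ≤ 4 * S ∧ -1 - 4 * (S : ℤ) ≤ p.2 ∧ p.2 ≤ -1 := by
  unfold lo at hp
  rw [List.mem_reverse, List.mem_map] at hp
  obtain ⟨q, hq, rfl⟩ := hp
  have := pt_mem hv hq
  unfold re
  simp only
  omega

theorem up_head {S m : ℕ} {u : W} (hu : Gd S m u) : (pt u).head? = some (0, 0) := (pt_LS hu).2.1

theorem up_last {S m : ℕ} {u : W} (hu : Gd S m u) : (pt u).getLast? = some (2 * (S : ℤ), 0) := by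
  rw [pt_last, hu.fin]

theorem up_len {S m : ℕ} {u : W} (hu : Gd S m u) : (pt u).length = m + 1 := (pt_LS hu).1

theorem cyc_append {A B : List Pt} {a a' b b' : Pt} (hA : A.IsChain adj) (hB : B.IsChain adj)
    (nA : A.Nodup) (nB : B.Nodup) (hd : ∀ p ∈ A, ∀ q ∈ B, p ≠ q)
    (ha : A.head? = some a) (ha' : A.getLast? = some a') (hb : B.head? = some b)
    (hb' : B.getLast? = some b') (h1 : adj a' b) (h2 : adj b' a) :
    Cyc (A ++ B) ∧ (A ++ B).head? = some a ∧ (A ++ B).getLast? = some b' := by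
  have e1 : (A ++ B).head? = some a := by rw [List.head?_append, ha]; rfl
  have e2 : (A ++ B).getLast? = some b' := by rw [List.getLast?_append, hb']; rfl
  refine ⟨⟨?_, ?_, ?_⟩, e1, e2⟩
  · rw [List.isChain_append]
    refine ⟨hA, hB, ?_⟩
    intro x hx y hy
    rw [ha'] at hx
    rw [hb] at hy
    simp only [Option.mem_def, Option.some.injEq] at hx hy
    rw [← hx, ← hy]
    exact h1
  · rw [List.nodup_append]
    exact ⟨nA, nB, hd⟩
  · intro x hx y hy
    rw [e2] at hx
    rw [e1] at hy
    simp only [Option.mem_def, Option.some.injEq] at hx hy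
    rw [← hx, ← hy]
    exact h2

theorem ring {S m L : ℕ} (hL : 50 ≤ L) (hS : S = (L - 1) / 2) {u v : W} (hu : Gd S m u)
    (hv : Gd S m v) : Ring (L : ℤ) (zt (m + 1) (pt u ++ lo v)) (2 * (S : ℤ), 0) ∧
      (pt u ++ lo v).length = 2 * m + 2 := by
  have hS1 : 2 * S ≤ L - 1 := by omega
  have hS2 : 3 * L ≤ 8 * S := by omega
  have hS3 : 24 ≤ S := by omega
  have hd : ∀ p ∈ pt u, ∀ q ∈ lo v, p ≠ q := by
    rintro p hp q hq rfl
    have h1 := pt_mem hu hp
    have h2 := lo_mem hv hq
    omega
  obtain ⟨c1, c2, c3⟩ := cyc_append (pt_LS hu).2.2.1 (lo_ch hv) (pt_LS hu).2.2.2 (lo_nd hv) hd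
    (up_head hu) (up_last hu) (lo_head hv) (lo_last hv) (by simp [adj]) (by simp [adj])
  obtain ⟨d1, d2, d3⟩ := cyc_append (lo_ch hv) (pt_LS hu).2.2.1 (lo_nd hv) (pt_LS hu).2.2.2
    (fun p hp q hq => (hd q hq p hp).symm)
    (lo_head hv) (lo_last hv) (up_head hu) (up_last hu) (by simp [adj]) (by simp [adj])
  have hrot : (pt u ++ lo v).rotate (m + 1) = lo v ++ pt u := by
    rw [← up_len hu, List.rotate_append_length_eq]
  have zt1 : zt (m + 1) (pt u ++ lo v) true = pt u ++ lo v := rfl
  have zt2 : zt (m + 1) (pt u ++ lo v) false = lo v ++ pt u := hrot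
  refine ⟨⟨?_, ?_, ?_, ?_, ?_, ?_, ?_, ?_, ?_⟩, ?_⟩
  · intro z
    cases z
    · rw [zt2]; exact d1
    · rw [zt1]; exact c1
  · intro z x
    cases z
    · rw [zt2, zt1, List.mem_append, List.mem_append, or_comm]
    · rfl
  · rw [zt1]
    exact List.mem_of_mem_head? (by rw [c2]; rfl)
  · intro x hx
    rw [zt1, List.mem_append] at hx
    rw [abs_le]
    rcases hx with hx | hx
    · have := pt_mem hu hx
      omega
    · have := lo_mem hv hx
      omega
  · rw [zt1, List.mem_append]
    exact Or.inl (List.mem_of_getLast? (up_last hu))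
  · simp only
    omega
  · simp only
    omega
  · simp
  · intro w
    by_cases hw : 2 < |0 - w.1|
    · refine ⟨true, ?_, ?_⟩
      · intro x hx
        rw [zt1, c2] at hx
        simp only [Option.mem_def, Option.some.injEq] at hx
        rw [← hx]
        exact Or.inl hw
      · intro x hx
        rw [zt1, c3] at hx
        simp only [Option.mem_def, Option.some.injEq] at hx
        rw [← hx]
        exact Or.inl hw
    · have hw' : 2 < |2 * (S : ℤ) - w.1| := by
        rw [not_lt, abs_le] at hw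
        rw [lt_abs]
        omega
      refine ⟨false, ?_, ?_⟩
      · intro x hx
        rw [zt2, d2] at hx
        simp only [Option.mem_def, Option.some.injEq] at hx
        rw [← hx]
        exact Or.inl hw'
      · intro x hx
        rw [zt2, d3] at hx
        simp only [Option.mem_def, Option.some.injEq] at hx
        rw [← hx]
        exact Or.inl hw'
  · rw [List.length_append, up_len hu, lo_len hv]
    omega

theorem exists_PP {S m L : ℕ} (hL : 50 ≤ L) (hS : S = (L - 1) / 2) :
    ∃ PP : Finset (List Pt), (∀ Q ∈ PP, Ring (L : ℤ) (zt (m + 1) Q) (2 * (S : ℤ), 0) ∧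
      Q.length = 2 * m + 2) ∧
      Pool.Agent.H122R3.SX.g (2 * S) 0 (2 * S) m ^ 2 ≤ PP.card * (m + 1) ^ 2 := by
  classical
  obtain ⟨F, hF⟩ : ∃ F : Finset W, F = Pool.Agent.H122R3.SX.fs (G (2 * S) 0 (2 * S)) m := ⟨_, rfl⟩
  have hFm : ∀ w, w ∈ F → ∃ j, j ≤ m ∧ Gd S m (w.rotate j) := by
    intro w hw
    rw [hF, Pool.Agent.H122R3.SX.mem_fs] at hw
    exact shift hw.1 hw.2
  have hex : ∀ w : W, ∃ j, w ∈ F → j ≤ m ∧ Gd S m (w.rotate j) := by
    intro w
    by_cases hw : w ∈ F
    · obtain ⟨j, hj⟩ := hFm w hw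
      exact ⟨j, fun _ => hj⟩
    · exact ⟨0, fun h => absurd h hw⟩
  choose j hj using hex
  obtain ⟨U, hU⟩ : ∃ U : Finset W, U = F.image fun w => w.rotate (j w) := ⟨_, rfl⟩
  have hUg : ∀ u ∈ U, Gd S m u := by
    intro u hu
    rw [hU, Finset.mem_image] at hu
    obtain ⟨w, hw, rfl⟩ := hu
    exact (hj w hw).2
  have hc : F.card ≤ U.card * (m + 1) := by
    rw [← Finset.card_range (m + 1), ← Finset.card_product]
    refine Finset.card_le_card_of_injOn (fun w => (w.rotate (j w), j w)) ?_ ?_
    · intro w hw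
      rw [Finset.mem_coe] at hw
      rw [Finset.mem_coe, Finset.mem_product, Finset.mem_range]
      refine ⟨?_, ?_⟩
      · rw [hU]
        exact Finset.mem_image_of_mem _ hw
      · have := (hj w hw).1
        simp only
        omega
    · intro w _ w' _ h
      simp only [Prod.mk.injEq] at h
      obtain ⟨h1, h2⟩ := h
      rw [h2] at h1
      exact List.rotate_injective _ h1
  refine ⟨(U ×ˢ U).image fun q => pt q.1 ++ lo q.2, ?_, ?_⟩
  · intro Q hQ
    rw [Finset.mem_image] at hQ
    obtain ⟨q, hq, rfl⟩ := hQ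
    rw [Finset.mem_product] at hq
    exact ring hL hS (hUg _ hq.1) (hUg _ hq.2)
  · have hcard : ((U ×ˢ U).image fun q => pt q.1 ++ lo q.2).card = U.card * U.card := by
      rw [Finset.card_image_of_injOn, Finset.card_product]
      rintro ⟨a, b⟩ hq ⟨a', b'⟩ hq' h
      rw [Finset.mem_coe, Finset.mem_product] at hq hq'
      simp only at hq hq' h
      obtain ⟨h1, h2⟩ := List.append_inj h (by
        rw [up_len (hUg _ hq.1), up_len (hUg _ hq'.1)])
      have e1 := pt_inj (hUg _ hq.1) (hUg _ hq'.1) h1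
      have e2 : pt b = pt b' := by
        unfold lo at h2
        exact List.map_injective_iff.2 re_inj (List.reverse_injective h2)
      rw [e1, pt_inj (hUg _ hq.2) (hUg _ hq'.2) e2]
    rw [hcard]
    have hg : Pool.Agent.H122R3.SX.g (2 * S) 0 (2 * S) m = F.card := by
      rw [hF]; rfl
    rw [hg]
    calc F.card ^ 2 ≤ (U.card * (m + 1)) ^ 2 := Nat.pow_le_pow_left hc 2
      _ = _ := by ring

end CycP

open CycP

/-- **Package CYC.** -/
theorem cyc : S_PP := by
  obtain ⟨K, hB⟩ := Pool.Agent.U126.W3.Bd_mu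
  obtain ⟨c, hc⟩ : ∃ c : ℝ, c = |2 * Pool.Agent.U126.W3.K2 K| := ⟨_, rfl⟩
  have hc0 : 0 ≤ c := by rw [hc]; exact abs_nonneg _
  refine ⟨2 * |Real.log H981.mu| + 2 * c + 6, by positivity, fun L hL => ?_⟩
  obtain ⟨S, hS⟩ : ∃ S : ℕ, S = (L - 1) / 2 := ⟨_, rfl⟩
  have hS1 : 1 ≤ S := by omega
  obtain ⟨m, hm, hg⟩ := Pool.Agent.U126.W3.exists_piece hB hS1
  obtain ⟨PP, h1, h2⟩ := exists_PP (m := m) hL hS
  have hSL : 2 * S + 1 ≤ L := by omega
  refine ⟨m + 1, 2 * m + 2, (2 * (S : ℤ), 0), PP, h1, by omega, ?_, ?_⟩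
  · nlinarith
  have hLr : (50 : ℝ) ≤ L := by exact_mod_cast hL
  obtain ⟨l, hl⟩ : ∃ l : ℝ, l = Real.log L := ⟨_, rfl⟩
  rw [← hl]
  have hl1 : 1 ≤ l := by
    rw [hl, Real.le_log_iff_exp_le (by linarith)]
    have := Real.exp_one_lt_d9
    linarith
  have hmu := H981.mu_pos
  have hS2 : Real.log ((S : ℝ) + 1) ≤ l := by
    rw [hl]
    refine Real.log_le_log (by positivity) ?_
    have : S + 1 ≤ L := by omega
    exact_mod_cast this
  have hS3 : 0 ≤ Real.log ((S : ℝ) + 1) := Real.log_nonneg (by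
    have : (0 : ℝ) ≤ S := Nat.cast_nonneg _
    linarith)
  have hm1 : ((m : ℝ) + 1) ^ 2 ≤ Real.exp (6 * l ^ 2) := by
    have h3 : m + 1 ≤ L ^ 3 := by
      have h5 : 4 * S ^ 2 ≤ L ^ 2 := by nlinarith
      have h6 : 50 * L ^ 2 ≤ L ^ 3 := by nlinarith [Nat.mul_le_mul hL (le_refl (L ^ 2))]
      nlinarith
    have h4 : (m : ℝ) + 1 ≤ (L : ℝ) ^ 3 := by exact_mod_cast h3
    have h7 : Real.exp (6 * l) = (L : ℝ) ^ 6 := by
      have h8 : Real.exp (6 * l) = Real.exp l ^ 6 := by
        rw [← Real.exp_nat_mul]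
        norm_num
      rw [h8, hl, Real.exp_log (by linarith)]
    calc ((m : ℝ) + 1) ^ 2 ≤ ((L : ℝ) ^ 3) ^ 2 := pow_le_pow_left₀ (by positivity) h4 2
      _ = Real.exp (6 * l) := by rw [h7]; ring
      _ ≤ _ := Real.exp_le_exp.2 (by nlinarith)
  have hmu2 : H981.mu ^ 2 ≤ Real.exp (2 * |Real.log H981.mu| * l ^ 2) := by
    have h3 : H981.mu ^ 2 = Real.exp (2 * Real.log H981.mu) := by
      rw [show (2 : ℝ) * Real.log H981.mu = ((2 : ℕ) : ℝ) * Real.log H981.mu by norm_num,
        Real.exp_nat_mul, Real.exp_log hmu]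
    rw [h3]
    refine Real.exp_le_exp.2 ?_
    have h4 := le_abs_self (Real.log H981.mu)
    have h5 := abs_nonneg (Real.log H981.mu)
    have h6 : 1 ≤ l ^ 2 := one_le_pow₀ hl1
    nlinarith [mul_le_mul_of_nonneg_left h6 h5]
  have hmum : H981.mu ^ m ≤ (Pool.Agent.H122R3.SX.g (2 * S) 0 (2 * S) m : ℝ) *
      Real.exp (c * l ^ 2) := by
    have hp : 0 < H981.mu ^ m := pow_pos hmu m
    rw [le_div_iff₀ hp] at hg
    have h3 : Real.exp (-(c * l ^ 2)) * H981.mu ^ m ≤
        (Pool.Agent.H122R3.SX.g (2 * S) 0 (2 * S) m : ℝ) := by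
      refine le_trans (mul_le_mul_of_nonneg_right (Real.exp_le_exp.2 ?_) hp.le) hg
      have h4 : Real.log ((S : ℝ) + 1) ^ 2 ≤ l ^ 2 := pow_le_pow_left₀ hS3 hS2 2
      have h5 : 2 * Pool.Agent.U126.W3.K2 K * Real.log ((S : ℝ) + 1) ^ 2 ≤ c * l ^ 2 := by
        rw [hc]
        calc _ ≤ |2 * Pool.Agent.U126.W3.K2 K| * Real.log ((S : ℝ) + 1) ^ 2 :=
              mul_le_mul_of_nonneg_right (le_abs_self _) (by positivity)
          _ ≤ _ := mul_le_mul_of_nonneg_left h4 (abs_nonneg _)
      linarith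
    calc H981.mu ^ m = (Real.exp (-(c * l ^ 2)) * H981.mu ^ m) * Real.exp (c * l ^ 2) := by
          rw [mul_right_comm, ← Real.exp_add, neg_add_cancel, Real.exp_zero, one_mul]
      _ ≤ _ := mul_le_mul_of_nonneg_right h3 (Real.exp_pos _).le
  have h2' : (Pool.Agent.H122R3.SX.g (2 * S) 0 (2 * S) m : ℝ) ^ 2 ≤
      (PP.card : ℝ) * ((m : ℝ) + 1) ^ 2 := by exact_mod_cast h2
  calc H981.mu ^ (2 * m + 2) = H981.mu ^ 2 * (H981.mu ^ m) ^ 2 := by ring
    _ ≤ H981.mu ^ 2 * ((Pool.Agent.H122R3.SX.g (2 * S) 0 (2 * S) m : ℝ) *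
        Real.exp (c * l ^ 2)) ^ 2 := by
        refine mul_le_mul_of_nonneg_left ?_ (by positivity)
        exact pow_le_pow_left₀ (by positivity) hmum 2
    _ = H981.mu ^ 2 * ((Pool.Agent.H122R3.SX.g (2 * S) 0 (2 * S) m : ℝ) ^ 2 *
        Real.exp (2 * c * l ^ 2)) := by
        rw [mul_pow]
        congr 2
        rw [← Real.exp_nat_mul]
        congr 1
        push_cast
        ring
    _ ≤ Real.exp (2 * |Real.log H981.mu| * l ^ 2) * (((PP.card : ℝ) * Real.exp (6 * l ^ 2)) *
        Real.exp (2 * c * l ^ 2)) := by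
        refine mul_le_mul hmu2 ?_ (by positivity) (Real.exp_pos _).le
        refine mul_le_mul_of_nonneg_right ?_ (Real.exp_pos _).le
        exact h2'.trans (mul_le_mul_of_nonneg_left hm1 (by positivity))
    _ = PP.card * Real.exp ((2 * |Real.log H981.mu| + 2 * c + 6) * l ^ 2) := by
        rw [show (2 * |Real.log H981.mu| + 2 * c + 6) * l ^ 2 =
          2 * |Real.log H981.mu| * l ^ 2 + (6 * l ^ 2 + 2 * c * l ^ 2) by ring,
          Real.exp_add, Real.exp_add]
        ring

end Pool.Agent.U126.QP
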