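import Pool.Agent.U126.QP.Stm

/-! # Package ITER: iteration of the insertion -/

set_option autoImplicit false

namespace Pool.Agent.U126.QP

open scoped Classical
open Pool.Agent.W840.CT Pool.Agent.U126.NC

theorem iter_rho_inj : ∀ o : Fin 4, Function.Injective (rho o)
  | 0 => fun p q h => h
  | 1 => fun p q h => by
      obtain ⟨a, b⟩ := p
      obtain ⟨c, d⟩ := q
      simp only [rho, Prod.mk.injEq] at h ⊢
      omega
  | 2 => fun p q h => by
      obtain ⟨a, b⟩ := p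
      obtain ⟨c, d⟩ := q
      simp only [rho, Prod.mk.injEq] at h ⊢
      omega
  | 3 => fun p q h => by
      obtain ⟨a, b⟩ := p
      obtain ⟨c, d⟩ := q
      simp only [rho, Prod.mk.injEq] at h ⊢
      omega

theorem iter_rho_d2 : ∀ (o : Fin 4) (p q : Pt), d2 (rho o p) (rho o q) = d2 p q
  | 0, _, _ => rfl
  | 1, p, q => by simp only [rho, d2]; ring
  | 2, p, q => by simp only [rho, d2]; ring
  | 3, p, q => by simp only [rho, d2]; ring

theorem iter_rho_adj : ∀ (o : Fin 4) (p q : Pt), adj p q → adj (rho o p) (rho o q)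
  | 0, _, _, h => h
  | 1, p, q, h => by
      unfold adj at h ⊢
      simp only [rho]
      rw [show -q.2 - -p.2 = -(q.2 - p.2) by ring, abs_neg]
      omega
  | 2, p, q, h => by
      unfold adj at h ⊢
      simp only [rho]
      rw [show -q.2 - -p.2 = -(q.2 - p.2) by ring, show -q.1 - -p.1 = -(q.1 - p.1) by ring,
        abs_neg, abs_neg]
      omega
  | 3, p, q, h => by
      unfold adj at h ⊢
      simp only [rho]
      rw [show -q.1 - -p.1 = -(q.1 - p.1) by ring, abs_neg]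
      omega

theorem iter_rho_zero : ∀ o : Fin 4, rho o 0 = 0
  | 0 => rfl
  | 1 => by simp [rho]
  | 2 => by simp [rho]
  | 3 => by simp [rho]

theorem iter_VD_rho (o : Fin 4) (A : Set Pt) (r : ℤ) (B : List Pt) :
    (VD (rho o '' A) r (B.map (rho o))).card = (VD A r B).card := by
  rw [← Finset.card_image_of_injective (VD A r B) (iter_rho_inj o)]
  congr 1
  ext v
  unfold VD
  simp only [Finset.mem_filter, Finset.mem_image, List.mem_toFinset, List.mem_map]
  constructor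
  · rintro ⟨⟨w, hw, rfl⟩, _, ⟨a, ha, rfl⟩, h⟩
    rw [iter_rho_d2] at h
    exact ⟨w, ⟨hw, a, ha, h⟩, rfl⟩
  · rintro ⟨w, ⟨hw, a, ha, h⟩, rfl⟩
    refine ⟨⟨w, hw, rfl⟩, rho o a, ⟨a, ha, rfl⟩, ?_⟩
    rw [iter_rho_d2]
    exact h

theorem iter_SS_rho (o : Fin 4) {A : Set Pt} {r d : ℤ} {N M lo hi : ℕ} {B : List Pt}
    (h : B ∈ SS A r d N M lo hi) : B.map (rho o) ∈ SS (rho o '' A) r d N M lo hi := by
  obtain ⟨⟨h1, h2, h3, h4, h5⟩, h6, h7⟩ := h
  refine ⟨⟨?_, ?_, ?_, ?_, ?_⟩, ?_, ?_⟩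
  · rw [List.isChain_map]
    exact h1.imp (fun p q hpq => iter_rho_adj o p q hpq)
  · exact h2.map (iter_rho_inj o)
  · rw [List.head?_map, h3]
    simp [iter_rho_zero o]
  · rw [List.length_map]; exact h4
  · rw [List.length_map]; exact h5
  · rw [iter_VD_rho]; exact h6
  · rw [iter_VD_rho]; exact h7

theorem iter_find_o (h : S_CAND) {L : ℕ} {r : ℤ} {l D x G t i : ℕ} (hL : 50 ≤ L)
    (hr1 : 400 * (L : ℤ) ^ 2 ≤ r) (hr2 : r ≤ 400 * ((L : ℤ) + 1) ^ 2)
    (hG : (81 * (L + 1)) ^ 2 * (D + l + 33 + 2 * (24 * L + 1) ^ 2 + 4 * x) + 1 ≤ G)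
    {A : Set Pt} {lo hi : ℕ} {B : List Pt} (hi' : i < t)
    (hB : B ∈ SS A r (r - 7 * (L : ℤ) ^ 2) (G * t - i) (D * t + i * (l + 33)) lo hi) :
    ∃ o : Fin 4, x * t ≤ (CA (rho o '' A) L r (B.map (rho o))).card := by
  by_contra hcon
  push Not at hcon
  obtain ⟨-, h6, h7⟩ := hB
  have h1 := h A L r B hL hr1 hr2
  have h2 : ∑ o : Fin 4, (CA (rho o '' A) L r (B.map (rho o))).card ≤ 4 * (x * t) := by
    calc ∑ o : Fin 4, (CA (rho o '' A) L r (B.map (rho o))).card ≤ ∑ _o : Fin 4, x * t :=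
          Finset.sum_le_sum fun o _ => (hcon o).le
      _ = 4 * (x * t) := by simp
  have h3 : (VD A r B).card ≤ (D * t + i * (l + 33) + 2 * (24 * L + 1) ^ 2 + 4 * (x * t)) *
      (81 * (L + 1)) ^ 2 := by
    refine h1.trans (Nat.mul_le_mul_right _ ?_)
    omega
  have ht : 1 ≤ t := by omega
  have h4 : i * (l + 33) ≤ t * (l + 33) := Nat.mul_le_mul_right _ hi'.le
  have h5 : 2 * (24 * L + 1) ^ 2 ≤ 2 * (24 * L + 1) ^ 2 * t := Nat.le_mul_of_pos_right _ ht
  have h8 : D * t + i * (l + 33) + 2 * (24 * L + 1) ^ 2 + 4 * (x * t) ≤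
      (D + l + 33 + 2 * (24 * L + 1) ^ 2 + 4 * x) * t := by
    calc _ ≤ D * t + t * (l + 33) + 2 * (24 * L + 1) ^ 2 * t + 4 * (x * t) := by omega
      _ = _ := by ring
  have h9 : G * t - i ≤ (81 * (L + 1)) ^ 2 * (D + l + 33 + 2 * (24 * L + 1) ^ 2 + 4 * x) * t := by
    refine h6.trans (h3.trans ?_)
    calc _ ≤ ((D + l + 33 + 2 * (24 * L + 1) ^ 2 + 4 * x) * t) * (81 * (L + 1)) ^ 2 :=
          Nat.mul_le_mul_right _ h8
      _ = _ := by ring
  have h10 := Nat.mul_le_mul_right t hG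
  rw [add_mul, one_mul] at h10
  omega

theorem iter_SS_step (h : S_CAND) {L : ℕ} {r : ℤ} {k l : ℕ} {E : Pt} {PP : Finset (List Pt)}
    {D x G t i : ℕ} (hL : 50 ≤ L)
    (hr1 : 400 * (L : ℤ) ^ 2 ≤ r) (hr2 : r ≤ 400 * ((L : ℤ) + 1) ^ 2)
    (hPP : ∀ Q ∈ PP, Ring (L : ℤ) (zt k Q) E ∧ Q.length = l)
    (hG : (81 * (L + 1)) ^ 2 * (D + l + 33 + 2 * (24 * L + 1) ^ 2 + 4 * x) + 1 ≤ G)
    (A : Set Pt) (m : ℕ) (hi : i < t) :
    (SS A r (r - 7 * (L : ℤ) ^ 2) (G * t - i) (D * t + i * (l + 33)) (m + 1 + i * l)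
      (m + 1 + i * (l + 32))).ncard * (x * t * PP.card) ≤
    ∑ o : Fin 4, (SS (rho o '' A) r (r - 7 * (L : ℤ) ^ 2) (G * t - (i + 1))
      (D * t + (i + 1) * (l + 33)) (m + 1 + (i + 1) * l)
      (m + 1 + (i + 1) * (l + 32))).ncard * ((D + l + 33) * t * Om L l) := by
  set S := SS A r (r - 7 * (L : ℤ) ^ 2) (G * t - i) (D * t + i * (l + 33)) (m + 1 + i * l)
      (m + 1 + i * (l + 32)) with hS
  set T : Fin 4 → Set (List Pt) := fun o => {B | B ∈ SS (rho o '' A) r (r - 7 * (L : ℤ) ^ 2)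
      (G * t - i) (D * t + i * (l + 33)) (m + 1 + i * l) (m + 1 + i * (l + 32)) ∧
      x * t ≤ (CA (rho o '' A) L r B).card} with hT
  have hTf : ∀ o, (T o).Finite := fun o => (SS_finite _ _ _ _ _ _ _).subset fun B hB => hB.1
  have hsub : S ⊆ ⋃ o : Fin 4, {B | B ∈ S ∧ B.map (rho o) ∈ T o} := by
    intro B hB
    obtain ⟨o, ho⟩ := iter_find_o h hL hr1 hr2 hG hi hB
    rw [Set.mem_iUnion]
    exact ⟨o, hB, iter_SS_rho o hB, ho⟩
  have hSf : S.Finite := SS_finite _ _ _ _ _ _ _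
  have h1 : S.ncard ≤ ∑ o : Fin 4, (T o).ncard := by
    have hfin : (⋃ o : Fin 4, {B | B ∈ S ∧ B.map (rho o) ∈ T o}).Finite :=
      Set.finite_iUnion fun o => hSf.subset fun B hB => hB.1
    refine (Set.ncard_le_ncard hsub hfin).trans ((Set.ncard_iUnion_le_of_fintype _).trans ?_)
    refine Finset.sum_le_sum fun o _ => ?_
    refine Set.ncard_le_ncard_of_injOn (List.map (rho o)) (fun B hB => hB.2) ?_ (hTf o)
    exact fun B _ B' _ hBB => List.map_injective_iff.2 (iter_rho_inj o) hBB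
  refine (Nat.mul_le_mul_right _ h1).trans ?_
  rw [Finset.sum_mul]
  refine Finset.sum_le_sum fun o _ => ?_
  have hG1 : 1 ≤ G := le_trans (Nat.le_add_left 1 _) hG
  have hGt : t ≤ G * t := Nat.le_mul_of_pos_left _ hG1
  have h2 := one_step (A := rho o '' A) hL hr2 hPP (N := G * t - i) (N' := G * t - (i + 1))
    (M := D * t + i * (l + 33)) (M' := (D + l + 33) * t) (lo := m + 1 + i * l)
    (lo' := m + 1 + (i + 1) * l) (hi := m + 1 + i * (l + 32))
    (hi' := m + 1 + (i + 1) * (l + 32)) (X := x * t) (by omega)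
    (by
      have : (i + 1) * (l + 33) ≤ t * (l + 33) := Nat.mul_le_mul_right _ hi
      calc D * t + i * (l + 33) + l + 33 = D * t + (i + 1) * (l + 33) := by ring
        _ ≤ D * t + t * (l + 33) := by omega
        _ = _ := by ring)
    (le_of_eq (by ring)) (le_of_eq (by ring))
  have h3 := one_step (A := rho o '' A) hL hr2 hPP (N := G * t - i) (N' := G * t - (i + 1))
    (M := D * t + i * (l + 33)) (M' := D * t + (i + 1) * (l + 33)) (lo := m + 1 + i * l)
    (lo' := m + 1 + (i + 1) * l) (hi := m + 1 + i * (l + 32))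
    (hi' := m + 1 + (i + 1) * (l + 32)) (X := x * t) (by omega)
    (le_of_eq (by ring)) (le_of_eq (by ring)) (le_of_eq (by ring))
  refine h3.trans (Nat.mul_le_mul_left _ (Nat.mul_le_mul_right _ ?_))
  have : (i + 1) * (l + 33) ≤ t * (l + 33) := Nat.mul_le_mul_right _ hi
  calc D * t + (i + 1) * (l + 33) ≤ D * t + t * (l + 33) := by omega
    _ = _ := by ring

theorem iter_SS_iter (h : S_CAND) {L : ℕ} {r : ℤ} {k l : ℕ} {E : Pt} {PP : Finset (List Pt)}
    {D x G t : ℕ} (hL : 50 ≤ L)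
    (hr1 : 400 * (L : ℤ) ^ 2 ≤ r) (hr2 : r ≤ 400 * ((L : ℤ) + 1) ^ 2)
    (hPP : ∀ Q ∈ PP, Ring (L : ℤ) (zt k Q) E ∧ Q.length = l)
    (hG : (81 * (L + 1)) ^ 2 * (D + l + 33 + 2 * (24 * L + 1) ^ 2 + 4 * x) + 1 ≤ G)
    (m : ℕ) : ∀ (j i : ℕ) (A : Set Pt), i + j = t →
    (SS A r (r - 7 * (L : ℤ) ^ 2) (G * t - i) (D * t + i * (l + 33)) (m + 1 + i * l)
      (m + 1 + i * (l + 32))).ncard * (x * t * PP.card) ^ j ≤
    (4 * ((D + l + 33) * t * Om L l)) ^ j * (LR (m + 1 + t * l) (m + 1 + t * (l + 32))).ncard := by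
  intro j
  induction j with
  | zero =>
    intro i A hij
    obtain rfl : i = t := by omega
    rw [pow_zero, pow_zero, mul_one, one_mul]
    exact Set.ncard_le_ncard (fun B hB => hB.1) (LR_finite _ _)
  | succ j ih =>
    intro i A hij
    have h1 := iter_SS_step h hL hr1 hr2 hPP hG A m (i := i) (t := t) (by omega)
    set X := x * t * PP.card with hX
    set Z := (D + l + 33) * t * Om L l with hZ
    set R := (LR (m + 1 + t * l) (m + 1 + t * (l + 32))).ncard with hR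
    calc _ = (SS A r (r - 7 * (L : ℤ) ^ 2) (G * t - i) (D * t + i * (l + 33)) (m + 1 + i * l)
          (m + 1 + i * (l + 32))).ncard * X * X ^ j := by ring
      _ ≤ (∑ o : Fin 4, (SS (rho o '' A) r (r - 7 * (L : ℤ) ^ 2) (G * t - (i + 1))
          (D * t + (i + 1) * (l + 33)) (m + 1 + (i + 1) * l)
          (m + 1 + (i + 1) * (l + 32))).ncard * Z) * X ^ j := Nat.mul_le_mul_right _ h1
      _ = ∑ o : Fin 4, Z * ((SS (rho o '' A) r (r - 7 * (L : ℤ) ^ 2) (G * t - (i + 1))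
          (D * t + (i + 1) * (l + 33)) (m + 1 + (i + 1) * l)
          (m + 1 + (i + 1) * (l + 32))).ncard * X ^ j) := by
          rw [Finset.sum_mul]
          exact Finset.sum_congr rfl fun o _ => by ring
      _ ≤ ∑ _o : Fin 4, Z * ((4 * Z) ^ j * R) :=
          Finset.sum_le_sum fun o _ => Nat.mul_le_mul_left _ (ih (i + 1) _ (by omega))
      _ = (4 * Z) ^ (j + 1) * R := by
          rw [Finset.sum_const, Finset.card_univ, Fintype.card_fin, smul_eq_mul]
          ring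

theorem iter_cn_mul_pow (m l t : ℕ) : (cn (m + t * l) : ℝ) ≤ cn m * (cn l : ℝ) ^ t := by
  induction t with
  | zero => simp
  | succ t ih =>
    have h1 : m + (t + 1) * l = (m + t * l) + l := by ring
    rw [h1]
    refine (Pool.Agent.TH546.SAW.cn_add_le _ _).trans ?_
    calc (cn (m + t * l) : ℝ) * cn l ≤ cn m * (cn l : ℝ) ^ t * cn l :=
          mul_le_mul_of_nonneg_right ih (Nat.cast_nonneg _)
      _ = _ := by ring

theorem iter_cn_add_pow (N s : ℕ) : (cn (N + s) : ℝ) ≤ cn N * 4 ^ s := by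
  induction s with
  | zero => simp
  | succ s ih =>
    rw [← add_assoc]
    refine (Pool.Agent.TH546.SAW.cn_add_le _ _).trans ?_
    calc (cn (N + s) : ℝ) * cn 1 ≤ cn N * 4 ^ s * 4 :=
          mul_le_mul ih cn_one (Nat.cast_nonneg _) (by positivity)
      _ = _ := by ring

theorem iter_LR_card (m l t : ℕ) : ((LR (m + 1 + t * l) (m + 1 + t * (l + 32))).ncard : ℝ) ≤
    cn m * (33 * 4 ^ 32 * cn l : ℝ) ^ t := by
  have h1 : (LR (m + 1 + t * l) (m + 1 + t * (l + 32))).ncard ≤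
      ∑ n ∈ Finset.Icc (m + t * l) (m + t * (l + 32)), cn n := by
    have hs := LR_sub (m + 1 + t * l) (m + 1 + t * (l + 32))
    have e1 : m + 1 + t * l - 1 = m + t * l := by omega
    have e2 : m + 1 + t * (l + 32) - 1 = m + t * (l + 32) := by omega
    rw [e1, e2] at hs
    refine (Set.ncard_le_ncard hs (Set.Finite.biUnion (Finset.finite_toSet _)
      (fun n _ => LS_finite n))).trans ((Finset.set_ncard_biUnion_le _ _).trans ?_)
    exact Finset.sum_le_sum fun n _ => LS_le n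
  have h2 : (∑ n ∈ Finset.Icc (m + t * l) (m + t * (l + 32)), (cn n : ℝ)) ≤
      ∑ _n ∈ Finset.Icc (m + t * l) (m + t * (l + 32)), (cn m * (cn l : ℝ) ^ t * 4 ^ (32 * t)) := by
    refine Finset.sum_le_sum fun n hn => ?_
    rw [Finset.mem_Icc] at hn
    obtain ⟨s, rfl⟩ := Nat.exists_eq_add_of_le hn.1
    have hs : s ≤ 32 * t := by
      have := hn.2
      rw [mul_add] at this
      omega
    refine (iter_cn_add_pow _ _).trans ?_
    refine mul_le_mul (iter_cn_mul_pow m l t) (pow_le_pow_right₀ (by norm_num) hs) (by positivity)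
      (by positivity)
  have h3 : (Finset.Icc (m + t * l) (m + t * (l + 32))).card = 32 * t + 1 := by
    rw [Nat.card_Icc, mul_add]
    omega
  have h4 : ((32 * t + 1 : ℕ) : ℝ) ≤ 33 ^ t := by
    have := one_add_mul_le_pow (show (-2 : ℝ) ≤ 32 by norm_num) t
    push_cast
    norm_num at this
    linarith
  calc ((LR (m + 1 + t * l) (m + 1 + t * (l + 32))).ncard : ℝ)
      ≤ ∑ n ∈ Finset.Icc (m + t * l) (m + t * (l + 32)), (cn n : ℝ) := by exact_mod_cast h1
    _ ≤ _ := h2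
    _ = ((32 * t + 1 : ℕ) : ℝ) * (cn m * (cn l : ℝ) ^ t * 4 ^ (32 * t)) := by
        rw [Finset.sum_const, h3, nsmul_eq_mul]
    _ ≤ 33 ^ t * (cn m * (cn l : ℝ) ^ t * 4 ^ (32 * t)) :=
        mul_le_mul_of_nonneg_right h4 (by positivity)
    _ = _ := by
        rw [mul_pow, mul_pow, ← pow_mul]
        ring

theorem iter (h : S_CAND) : S_ITER := by
  intro L r k l E PP D x G hL hr1 hr2 hPP hx hG A m t ht
  have h0 := iter_SS_iter h hL hr1 hr2 hPP hG m t 0 A (zero_add t)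
  set d : ℤ := r - 7 * (L : ℤ) ^ 2 with hd
  set U : Set (List Pt) := {B | B ∈ LS m ∧ (VD A d B).card ≤ D * t ∧
    G * t ≤ (VD A r B).card} with hU
  have hsub : U ⊆ SS A r d (G * t - 0) (D * t + 0 * (l + 33)) (m + 1 + 0 * l)
      (m + 1 + 0 * (l + 32)) := by
    rintro B ⟨⟨b1, b2, b3, b4⟩, b5, b6⟩
    refine ⟨⟨b3, b4, b2, by omega, by omega⟩, by omega, by omega⟩
  have h1 : U.ncard ≤ (SS A r d (G * t - 0) (D * t + 0 * (l + 33)) (m + 1 + 0 * l)
      (m + 1 + 0 * (l + 32))).ncard := Set.ncard_le_ncard hsub (SS_finite _ _ _ _ _ _ _)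
  have h2 := (Nat.mul_le_mul_right ((x * t * PP.card) ^ t) h1).trans h0
  have h3 : (U.ncard : ℝ) * ((x : ℝ) * t * PP.card) ^ t ≤
      (4 * (((D : ℝ) + l + 33) * t * Om L l)) ^ t * (cn m * (33 * 4 ^ 32 * cn l : ℝ) ^ t) := by
    have h4 : (U.ncard : ℝ) * ((x : ℝ) * t * PP.card) ^ t ≤
        (4 * (((D : ℝ) + l + 33) * t * Om L l)) ^ t *
          ((LR (m + 1 + t * l) (m + 1 + t * (l + 32))).ncard : ℝ) := by
      exact_mod_cast h2
    exact h4.trans (mul_le_mul_of_nonneg_left (iter_LR_card m l t) (by positivity))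
  have htp : (0 : ℝ) < t := by exact_mod_cast ht
  have hOm : 0 < Om L l := by
    unfold Om
    positivity
  have hOm' : (0 : ℝ) < Om L l := by exact_mod_cast hOm
  have hcl : (0 : ℝ) < cn l := lt_of_lt_of_le one_pos (cn_pos l)
  set Y : ℝ := 4 * (((D : ℝ) + l + 33) * Om L l) * (33 * 4 ^ 32 * cn l) with hY
  have hYp : 0 < Y := by positivity
  have h5 : 4 * Y ≤ (x : ℝ) * PP.card := by
    have : ((16 * 33 * 4 ^ 32 * (D + l + 33) * Om L l * cn l : ℕ) : ℝ) ≤ ((x * PP.card : ℕ) : ℝ) := by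
      exact_mod_cast hx
    push_cast at this
    refine le_trans (le_of_eq ?_) this
    rw [hY]
    ring
  have e7 : Y * t = (4 * (((D : ℝ) + l + 33) * t * Om L l)) * (33 * 4 ^ 32 * cn l : ℝ) := by
    rw [hY]
    ring
  clear_value Y
  have h6 : (4 : ℝ) ^ t * U.ncard * (Y * t) ^ t ≤ cn m * (Y * t) ^ t := by
    calc (4 : ℝ) ^ t * U.ncard * (Y * t) ^ t = U.ncard * (4 * Y * t) ^ t := by
          rw [show 4 * Y * (t : ℝ) = 4 * (Y * t) by ring, mul_pow 4 (Y * (t : ℝ))]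
          ring
      _ ≤ U.ncard * ((x : ℝ) * t * PP.card) ^ t := by
          refine mul_le_mul_of_nonneg_left (pow_le_pow_left₀ (by positivity) ?_ _)
            (Nat.cast_nonneg _)
          calc 4 * Y * t ≤ (x : ℝ) * PP.card * t := mul_le_mul_of_nonneg_right h5 htp.le
            _ = _ := by ring
      _ ≤ _ := h3
      _ = cn m * (Y * t) ^ t := by
          rw [e7, mul_pow (4 * (((D : ℝ) + l + 33) * t * Om L l)) (33 * 4 ^ 32 * cn l : ℝ),
            mul_left_comm]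
  have h7 := le_of_mul_le_mul_right h6 (by positivity)
  exact_mod_cast h7

end Pool.Agent.U126.QP
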