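import Pool.Agent.U126.QP.Stm

/-! # Package MAIN: recursion over the scales -/

set_option autoImplicit false

namespace Pool.Agent.U126.QP

open scoped Classical
open Pool.Agent.W840.CT Pool.Agent.U126.NC

/-- exponential tails at one scale -/
def ScT (r : ℤ) (s D : ℕ) : Prop :=
  ∀ A : Set Pt, (∀ u ∈ A, far u → ∃ u' ∈ A, adj u u') → ∀ n t : ℕ, 1 ≤ t →
    4 ^ t * ({B | B ∈ LS n ∧ (∀ v ∈ B, v ∈ A → v = 0) ∧ D * t < (VD A r B).card} :
      Set (List Pt)).ncard ≤ s * cn n

/-- small scales -/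
theorem ScT_base {r : ℤ} (hr : r < 1000000) : ScT r (1152 * 1415) (DD 1415) := by
  intro A hA n t ht
  have h1 := Pool.Agent.U126.NC.main A hA n 1415 t ht
  have hsub : ({B | B ∈ LS n ∧ (∀ v ∈ B, v ∈ A → v = 0) ∧ DD 1415 * t < (VD A r B).card} :
      Set (List Pt)) ⊆
      {B | B ∈ LS n ∧ (∀ v ∈ B, v ∈ A → v = 0) ∧ DD 1415 * t < (VV A 1415 B).card} := by
    rintro B ⟨b1, b2, b3⟩
    refine ⟨b1, b2, b3.trans_le (Finset.card_le_card ?_)⟩
    intro v hv
    unfold VD at hv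
    unfold VV
    rw [Finset.mem_filter] at hv ⊢
    obtain ⟨h1, a, ha, h2⟩ := hv
    refine ⟨h1, a, ha, ?_⟩
    unfold nr
    unfold d2 at h2
    have e1 := abs_nonneg (v.1 - a.1)
    have e2 := abs_nonneg (v.2 - a.2)
    have e3 := sq_abs (v.1 - a.1)
    have e4 := sq_abs (v.2 - a.2)
    by_contra hcon
    have hcon' : (1416 : ℤ) ≤ |v.1 - a.1| + |v.2 - a.2| := by
      push_cast at hcon
      omega
    nlinarith [sq_nonneg (|v.1 - a.1| - |v.2 - a.2|), mul_self_nonneg (|v.1 - a.1| + |v.2 - a.2| - 1416)]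
  have h2 := Set.ncard_le_ncard hsub ((LS_finite n).subset (fun B hB => hB.1))
  exact ((Nat.mul_le_mul_left _ h2).trans h1).trans (Nat.mul_le_mul_left _ (LS_le n))

/-- one step -/
theorem ScT_step {L : ℕ} {r : ℤ} {s D G : ℕ} (hT : ScT (r - 7 * (L : ℤ) ^ 2) s D)
    (hG : ∀ (A : Set Pt) (m t : ℕ), 1 ≤ t →
    4 ^ t * ({B | B ∈ LS m ∧ (VD A (r - 7 * (L : ℤ) ^ 2) B).card ≤ D * t ∧
      G * t ≤ (VD A r B).card} : Set (List Pt)).ncard ≤ cn m) : ScT r (s + 1) (max G 1) := by
  intro A hA n t ht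
  have h1 := hT A hA n t ht
  have h2 := hG A n t ht
  set S1 : Set (List Pt) := {B | B ∈ LS n ∧ (∀ v ∈ B, v ∈ A → v = 0) ∧
    D * t < (VD A (r - 7 * (L : ℤ) ^ 2) B).card} with hS1
  set S2 : Set (List Pt) := {B | B ∈ LS n ∧ (VD A (r - 7 * (L : ℤ) ^ 2) B).card ≤ D * t ∧
    G * t ≤ (VD A r B).card} with hS2
  have hsub : ({B | B ∈ LS n ∧ (∀ v ∈ B, v ∈ A → v = 0) ∧ max G 1 * t < (VD A r B).card} :
      Set (List Pt)) ⊆ S1 ∪ S2 := by
    rintro B ⟨b1, b2, b3⟩
    rcases lt_or_ge (D * t) (VD A (r - 7 * (L : ℤ) ^ 2) B).card with h | h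
    · exact Or.inl ⟨b1, b2, h⟩
    · exact Or.inr ⟨b1, h, (Nat.mul_le_mul_right t (le_max_left G 1)).trans b3.le⟩
  have hf1 : S1.Finite := (LS_finite n).subset (fun B hB => hB.1)
  have hf2 : S2.Finite := (LS_finite n).subset (fun B hB => hB.1)
  have h3 := (Set.ncard_le_ncard hsub (hf1.union hf2)).trans (Set.ncard_union_le S1 S2)
  calc _ ≤ 4 ^ t * (S1.ncard + S2.ncard) := Nat.mul_le_mul_left _ h3
    _ = 4 ^ t * S1.ncard + 4 ^ t * S2.ncard := Nat.mul_add _ _ _
    _ ≤ s * cn n + cn n := Nat.add_le_add h1 h2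
    _ = (s + 1) * cn n := by ring

/-- all scales -/
theorem ScT_all {K : ℝ} (hK : 0 < K) (h : ∀ (L : ℕ) (r : ℤ) (D : ℕ), 50 ≤ L →
    400 * (L : ℤ) ^ 2 ≤ r → r ≤ 400 * ((L : ℤ) + 1) ^ 2 → 1 ≤ D →
    ∃ G : ℕ, (G : ℝ) ≤ D * Real.exp (K * Real.log L ^ 2) ∧
      ∀ (A : Set Pt) (m t : ℕ), 1 ≤ t →
      4 ^ t * ({B | B ∈ LS m ∧ (VD A (r - 7 * (L : ℤ) ^ 2) B).card ≤ D * t ∧
        G * t ≤ (VD A r B).card} : Set (List Pt)).ncard ≤ cn m)
    {s0 D0 : ℕ} (hD0 : 1 ≤ D0) (hb : ∀ r : ℤ, r < 1000000 → ScT r s0 D0) :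
    ∀ r : ℕ, 1 ≤ r → ∃ s D : ℕ, 1 ≤ D ∧ (s : ℝ) ≤ s0 + 60 * Real.log r ∧
      (D : ℝ) ≤ D0 * Real.exp (60 * K * Real.log r ^ 3) ∧ ScT r s D := by
  intro r
  induction r using Nat.strong_induction_on with
  | _ r ih =>
    intro hr1
    have hlog0 : 0 ≤ Real.log r := Real.log_natCast_nonneg r
    have hD0' : (1 : ℝ) ≤ D0 := by exact_mod_cast hD0
    rcases lt_or_ge r 1000000 with hr | hr
    · refine ⟨s0, D0, hD0, by linarith, ?_, hb r (by exact_mod_cast hr)⟩
      have h1 : 1 ≤ Real.exp (60 * K * Real.log r ^ 3) := Real.one_le_exp (by positivity)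
      nlinarith
    · set L := Nat.sqrt (r / 400) with hL
      have hL1 : L * L ≤ r / 400 := Nat.sqrt_le (r / 400)
      have hL2 : r / 400 < (L + 1) * (L + 1) := Nat.lt_succ_sqrt (r / 400)
      have hL50 : 50 ≤ L := by
        rw [hL, Nat.le_sqrt]
        omega
      have hLr1 : 400 * (L * L) ≤ r := by omega
      have hLr2 : r < 400 * ((L + 1) * (L + 1)) := by omega
      have hr'pos : 7 * (L * L) < r := by nlinarith
      have hz1 : 400 * (L : ℤ) ^ 2 ≤ (r : ℤ) := by
        rw [sq]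
        exact_mod_cast hLr1
      have hz2 : (r : ℤ) ≤ 400 * ((L : ℤ) + 1) ^ 2 := by
        rw [sq]
        exact_mod_cast hLr2.le
      obtain ⟨s, D, hD, hs, hDb, hT⟩ := ih (r - 7 * (L * L)) (by
        have : 0 < L * L := by positivity
        omega) (by omega)
      have hcast : ((r - 7 * (L * L) : ℕ) : ℤ) = (r : ℤ) - 7 * (L : ℤ) ^ 2 := by
        rw [Nat.cast_sub hr'pos.le]
        push_cast
        ring
      rw [hcast] at hT
      obtain ⟨G, hG, hGT⟩ := h L r D hL50 hz1 hz2 hD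
      refine ⟨s + 1, max G 1, le_max_right _ _, ?_, ?_, ScT_step hT hGT⟩
      all_goals
        set r' := r - 7 * (L * L) with hr'
        have hr'1 : 1 ≤ r' := by omega
        have hr'R : (0 : ℝ) < (r' : ℝ) := by exact_mod_cast hr'1
        have hrR : (0 : ℝ) < (r : ℝ) := by exact_mod_cast hr1
        have hle : (r' : ℝ) ≤ (r : ℝ) * (59 / 60) := by
          have e1 : 60 * r' ≤ 59 * r := by
            have e2 : 417 * (L * L) ≥ 400 * ((L + 1) * (L + 1)) := by nlinarith
            have e3 : r' + 7 * (L * L) = r := by omega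
            nlinarith
          have e4 : (60 : ℝ) * r' ≤ 59 * r := by exact_mod_cast e1
          linarith
        have hlog : Real.log r' ≤ Real.log r - 1 / 60 := by
          have e1 := Real.log_le_log hr'R hle
          rw [Real.log_mul hrR.ne' (by norm_num)] at e1
          have e2 : Real.log (59 / 60 : ℝ) ≤ 59 / 60 - 1 :=
            Real.log_le_sub_one_of_pos (by norm_num)
          linarith
        have hlog' : 0 ≤ Real.log r' := Real.log_natCast_nonneg r'
      · push_cast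
        linarith
      · have hlogL : Real.log L ≤ Real.log r := by
          refine Real.log_le_log (by exact_mod_cast (by omega : 0 < L)) ?_
          have : L ≤ r := by nlinarith
          exact_mod_cast this
        have hlogL0 : 0 ≤ Real.log L := Real.log_natCast_nonneg L
        have e1 : 60 * K * Real.log r' ^ 3 + K * Real.log L ^ 2 ≤ 60 * K * Real.log r ^ 3 := by
          have a1 : Real.log L ^ 2 ≤ Real.log r ^ 2 := pow_le_pow_left₀ hlogL0 hlogL 2
          have a2 : Real.log r' ^ 2 ≤ Real.log r ^ 2 :=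
            pow_le_pow_left₀ hlog' (by linarith) 2
          have a3 : Real.log r' ^ 3 ≤ Real.log r' * Real.log r ^ 2 := by
            rw [pow_succ' (Real.log r') 2]
            exact mul_le_mul_of_nonneg_left a2 hlog'
          have a4 : Real.log r' * Real.log r ^ 2 ≤ (Real.log r - 1 / 60) * Real.log r ^ 2 :=
            mul_le_mul_of_nonneg_right hlog (by positivity)
          have a5 : 60 * Real.log r' ^ 3 + Real.log L ^ 2 ≤ 60 * Real.log r ^ 3 := by
            have : Real.log r ^ 3 = Real.log r * Real.log r ^ 2 := pow_succ' _ _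
            nlinarith
          have := mul_le_mul_of_nonneg_left a5 hK.le
          nlinarith
        have e2 : Real.exp (60 * K * Real.log r' ^ 3) * Real.exp (K * Real.log L ^ 2) ≤
            Real.exp (60 * K * Real.log r ^ 3) := by
          rw [← Real.exp_add]
          exact Real.exp_le_exp.2 e1
        have e3 : (G : ℝ) ≤ D0 * Real.exp (60 * K * Real.log r ^ 3) := by
          calc (G : ℝ) ≤ D * Real.exp (K * Real.log L ^ 2) := hG
            _ ≤ (D0 * Real.exp (60 * K * Real.log r' ^ 3)) * Real.exp (K * Real.log L ^ 2) :=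
              mul_le_mul_of_nonneg_right hDb (Real.exp_pos _).le
            _ = D0 * (Real.exp (60 * K * Real.log r' ^ 3) * Real.exp (K * Real.log L ^ 2)) := by ring
            _ ≤ _ := mul_le_mul_of_nonneg_left e2 (by positivity)
        have e4 : (1 : ℝ) ≤ D0 * Real.exp (60 * K * Real.log r ^ 3) := by
          have h1 : 1 ≤ Real.exp (60 * K * Real.log r ^ 3) := Real.one_le_exp (by positivity)
          nlinarith
        push_cast
        exact max_le e3 e4

/-- **Package MAIN.** -/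
theorem smain (h : S_STEP) : S_MAIN := by
  obtain ⟨K, hK, h⟩ := h
  obtain ⟨s0, D0, hD0, hb⟩ : ∃ s0 D0 : ℕ, 1 ≤ D0 ∧ ∀ r : ℤ, r < 1000000 → ScT r s0 D0 :=
    ⟨1152 * 1415, DD 1415, (by norm_num : 1 ≤ 2).trans (two_le_DD 1415), fun r hr => ScT_base hr⟩
  have hall := ScT_all hK h hD0 hb
  have hy0 : 0 < Real.log 2 := Real.log_pos (by norm_num)
  have hD0' : (1 : ℝ) ≤ D0 := by exact_mod_cast hD0
  have hlD : 0 ≤ Real.log D0 := Real.log_nonneg hD0'
  set C1 : ℝ := 1 / Real.log 2 ^ 3 with hC1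
  set C2 : ℝ := 1 / Real.log 2 ^ 2 with hC2
  have hC1p : 0 < C1 := by positivity
  have hC2p : 0 < C2 := by positivity
  refine ⟨480 * K + (Real.log D0 + s0 + 2) * C1 + 120 * C2, by positivity, fun k hk => ?_⟩
  obtain ⟨s, D, hD1, hs, hD, hT⟩ := hall (k ^ 2) (Nat.one_le_pow _ _ hk)
  refine ⟨D * (s + 1) + 1, by omega, ?_, ?_⟩
  · set y := Real.log (k + 1) with hy
    have hk1 : (1 : ℝ) ≤ k := by exact_mod_cast hk
    have hyy : Real.log 2 ≤ y := Real.log_le_log (by norm_num) (by linarith)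
    have hypos : 0 < y := hy0.trans_le hyy
    have hlk : Real.log ((k ^ 2 : ℕ) : ℝ) ≤ 2 * y := by
      push_cast
      rw [Real.log_pow]
      push_cast
      have : Real.log k ≤ y := Real.log_le_log (by linarith) (by linarith)
      linarith
    have hlk0 : 0 ≤ Real.log ((k ^ 2 : ℕ) : ℝ) := Real.log_natCast_nonneg _
    have hp7 : Real.log ((k ^ 2 : ℕ) : ℝ) ^ 3 ≤ 8 * y ^ 3 := by
      calc Real.log ((k ^ 2 : ℕ) : ℝ) ^ 3 ≤ (2 * y) ^ 3 := pow_le_pow_left₀ hlk0 hlk 3
        _ = 8 * y ^ 3 := by ring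
    have h1 : 1 ≤ C1 * y ^ 3 := by
      rw [hC1, one_div, inv_mul_eq_div, one_le_div (by positivity)]
      exact pow_le_pow_left₀ hy0.le hyy 3
    have h2 : y ≤ C2 * y ^ 3 := by
      have e : Real.log 2 ^ 2 ≤ y ^ 2 := pow_le_pow_left₀ hy0.le hyy 2
      have e' : 1 ≤ C2 * y ^ 2 := by
        rw [hC2, one_div, inv_mul_eq_div, one_le_div (by positivity)]
        exact e
      calc y = 1 * y := (one_mul y).symm
        _ ≤ (C2 * y ^ 2) * y := mul_le_mul_of_nonneg_right e' hypos.le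
        _ = C2 * y ^ 3 := by ring
    have h3 : ((D * (s + 1) + 1 : ℕ) : ℝ) ≤ D * Real.exp (s0 + 2 + 120 * y) := by
      have e1 : (1 : ℝ) ≤ D := by exact_mod_cast hD1
      have e2 : (s : ℝ) + 2 ≤ s0 + 2 + 120 * y := by linarith
      have e3 : (s0 : ℝ) + 2 + 120 * y ≤ Real.exp (s0 + 2 + 120 * y) := by
        have := Real.add_one_le_exp ((s0 : ℝ) + 2 + 120 * y)
        linarith
      calc ((D * (s + 1) + 1 : ℕ) : ℝ) = (D : ℝ) * (s + 1) + 1 := by push_cast; ring
        _ ≤ (D : ℝ) * (s + 1) + D := by linarith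
        _ = (D : ℝ) * (s + 2) := by ring
        _ ≤ (D : ℝ) * Real.exp (s0 + 2 + 120 * y) :=
          mul_le_mul_of_nonneg_left (e2.trans e3) (by linarith)
    refine h3.trans ?_
    have h4 : (D : ℝ) ≤ Real.exp (Real.log D0 + 480 * K * y ^ 3) := by
      refine hD.trans ?_
      rw [Real.exp_add, Real.exp_log (by linarith)]
      refine mul_le_mul_of_nonneg_left (Real.exp_le_exp.2 ?_) (by linarith)
      have := mul_le_mul_of_nonneg_left hp7 (by positivity : (0 : ℝ) ≤ 60 * K)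
      linarith
    refine (mul_le_mul_of_nonneg_right h4 (Real.exp_pos _).le).trans ?_
    rw [← Real.exp_add, Real.exp_le_exp]
    have e1 : Real.log D0 + s0 + 2 ≤ (Real.log D0 + s0 + 2) * (C1 * y ^ 3) :=
      le_mul_of_one_le_right (by positivity) h1
    nlinarith
  · intro A hA n S
    have hT' := hT A hA n (S + s + 1) (by omega)
    have hsub : ({B | B ∈ LS n ∧ (∀ v ∈ B, v ∈ A → v = 0) ∧
        (D * (s + 1) + 1) * (S + 1) ≤ (VV A k B).card} : Set (List Pt)) ⊆
        {B | B ∈ LS n ∧ (∀ v ∈ B, v ∈ A → v = 0) ∧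
          D * (S + s + 1) < (VD A ((k ^ 2 : ℕ) : ℤ) B).card} := by
      rintro B ⟨b1, b2, b3⟩
      refine ⟨b1, b2, lt_of_lt_of_le ?_ (b3.trans (Finset.card_le_card ?_))⟩
      · have e1 : S + s + 1 ≤ (s + 1) * (S + 1) := by nlinarith [Nat.zero_le (s * S)]
        have e2 := Nat.mul_le_mul_left D e1
        nlinarith
      · intro v hv
        unfold VV at hv
        unfold VD
        rw [Finset.mem_filter] at hv ⊢
        obtain ⟨h1, a, ha, h2⟩ := hv
        refine ⟨h1, a, ha, ?_⟩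
        unfold nr at h2
        unfold d2
        have e1 := abs_nonneg (v.1 - a.1)
        have e2 := abs_nonneg (v.2 - a.2)
        have e3 := sq_abs (v.1 - a.1)
        have e4 := sq_abs (v.2 - a.2)
        push_cast
        nlinarith [mul_nonneg e1 e2]
    have h2 := Set.ncard_le_ncard hsub ((LS_finite n).subset (fun B hB => hB.1))
    have h3 := (Nat.mul_le_mul_left (4 ^ (S + s + 1)) h2).trans hT'
    set x := ({B | B ∈ LS n ∧ (∀ v ∈ B, v ∈ A → v = 0) ∧
        (D * (s + 1) + 1) * (S + 1) ≤ (VV A k B).card} : Set (List Pt)).ncard with hx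
    have h4 : s ≤ 4 ^ (s + 1) := by
      have := (Nat.lt_pow_self (by norm_num : 1 < 4) : s + 1 < 4 ^ (s + 1))
      omega
    have h5 : 4 ^ (s + 1) * (4 ^ S * x) ≤ 4 ^ (s + 1) * cn n := by
      calc 4 ^ (s + 1) * (4 ^ S * x) = 4 ^ (S + s + 1) * x := by
            rw [show S + s + 1 = (s + 1) + S by ring, pow_add]; ring
        _ ≤ s * cn n := h3
        _ ≤ 4 ^ (s + 1) * cn n := Nat.mul_le_mul_right _ h4
    exact Nat.le_of_mul_le_mul_left h5 (by positivity)

end Pool.Agent.U126.QP
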