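import Pool.Agent.U126.QP.Stm

/-! # Package STEP (helper981): the analysis at one scale -/

set_option autoImplicit false

namespace Pool.Agent.U126.QP

open scoped Classical
open Pool.Agent.W840.CT Pool.Agent.U126.NC

/-- polynomial factors: all constants are powers of `L ≥ 50` -/
theorem step_poly (L D l : ℝ) (hL : 50 ≤ L) (hD : 1 ≤ D) (hl0 : 0 ≤ l) (hl : l ≤ L ^ 4) :
    16 * 33 * 4 ^ 32 * (D + l + 33) *
      ((18 * L + 1) ^ 2 * ((l + 22) * ((l + 1) * ((6 * L + 1) * 1728)))) ≤ D * L ^ 37 ∧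
    D + l + 33 ≤ D * L ^ 5 := by
  have h0 : (0 : ℝ) < L := by linarith
  have h1 : (1 : ℝ) ≤ L := by linarith
  have p2 : 2500 ≤ L ^ 2 := by nlinarith
  have p4 : (1 : ℝ) ≤ L ^ 4 := one_le_pow₀ h1
  have p4' : (2500 : ℝ) * 2500 ≤ L ^ 4 := by
    calc (2500 : ℝ) * 2500 ≤ L ^ 2 * L ^ 2 := mul_le_mul p2 p2 (by norm_num) (by positivity)
      _ = L ^ 4 := by ring
  have e5 : L ^ 5 = L ^ 4 * L := by ring
  have q5 : 50 * L ^ 4 ≤ L ^ 5 := by rw [e5]; nlinarith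
  have a1 : D + l + 33 ≤ D * L ^ 5 := by nlinarith
  have a2 : (18 * L + 1) ^ 2 ≤ (L ^ 2) ^ 2 := by
    apply pow_le_pow_left₀ (by positivity)
    nlinarith
  have a3 : l + 22 ≤ L ^ 5 := by nlinarith
  have a4 : l + 1 ≤ L ^ 5 := by nlinarith
  have a5 : 6 * L + 1 ≤ L ^ 2 := by nlinarith
  have a6 : (1728 : ℝ) ≤ L ^ 2 := by linarith
  have a7 : (16 * 33 * 4 ^ 32 : ℝ) ≤ L ^ 14 := by
    calc (16 * 33 * 4 ^ 32 : ℝ) ≤ 50 ^ 14 := by norm_num
      _ ≤ L ^ 14 := pow_le_pow_left₀ (by norm_num) hL 14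
  refine ⟨?_, a1⟩
  calc 16 * 33 * 4 ^ 32 * (D + l + 33) *
      ((18 * L + 1) ^ 2 * ((l + 22) * ((l + 1) * ((6 * L + 1) * 1728))))
      ≤ L ^ 14 * (D * L ^ 5) * ((L ^ 2) ^ 2 * (L ^ 5 * (L ^ 5 * (L ^ 2 * L ^ 2)))) := by
        gcongr
    _ = D * L ^ 37 := by ring

/-- the final constant -/
theorem step_fin (L D l T C x : ℝ) (hL' : 50 ≤ L) (hD' : 1 ≤ D) (hT1 : 1 ≤ T)
    (hp2 : D + l + 33 ≤ D * L ^ 5) (hCR : C ≤ D * L ^ 37) (hx2 : x ≤ C * T + 1) :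
    (81 * (L + 1)) ^ 2 * (D + l + 33 + 2 * (24 * L + 1) ^ 2 + 4 * x) + 1 ≤ D * T * L ^ 46 := by
  have hL0 : (0 : ℝ) < L := by linarith
  have hP38 : (1 : ℝ) ≤ L ^ 37 := one_le_pow₀ (by linarith)
  have hDT : (1 : ℝ) ≤ D * T := by nlinarith
  have hDT0 : (0 : ℝ) ≤ D * T := by linarith
  have h9 : C * T ≤ D * T * L ^ 37 := by
    calc C * T ≤ D * L ^ 37 * T := mul_le_mul_of_nonneg_right hCR (by linarith)
      _ = D * T * L ^ 37 := by ring
  have h10 : (1 : ℝ) ≤ D * T * L ^ 37 := by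
    calc (1 : ℝ) = 1 * 1 := by ring
      _ ≤ D * T * L ^ 37 := mul_le_mul hDT hP38 (by norm_num) hDT0
  have hx3 : x ≤ 2 * (D * T * L ^ 37) := by linarith
  have hq1 : (81 * (L + 1)) ^ 2 ≤ (L ^ 3) ^ 2 := by
    apply pow_le_pow_left₀ (by positivity)
    have : L ^ 3 = L ^ 2 * L := by ring
    rw [this]
    nlinarith [mul_le_mul hL' hL' (by norm_num) hL0.le]
  have hmono : L ^ 5 ≤ L ^ 37 := pow_le_pow_right₀ (by linarith) (by norm_num)
  have hq2 : D + l + 33 ≤ D * T * L ^ 37 := by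
    calc D + l + 33 ≤ D * L ^ 5 := hp2
      _ ≤ (D * T) * L ^ 37 := by
        apply mul_le_mul _ hmono (by positivity) hDT0
        nlinarith
  have hq3 : 2 * (24 * L + 1) ^ 2 ≤ D * T * L ^ 37 := by
    have h11 : 2 * (24 * L + 1) ^ 2 ≤ L ^ 4 := by
      have h12 : 24 * L + 1 ≤ 25 * L := by linarith
      calc 2 * (24 * L + 1) ^ 2 ≤ 2 * (25 * L) ^ 2 := by gcongr
        _ = 1250 * L ^ 2 := by ring
        _ ≤ L ^ 2 * L ^ 2 := by
          apply mul_le_mul_of_nonneg_right _ (by positivity)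
          nlinarith
        _ = L ^ 4 := by ring
    have h13 : L ^ 4 ≤ L ^ 37 := pow_le_pow_right₀ (by linarith) (by norm_num)
    calc 2 * (24 * L + 1) ^ 2 ≤ 1 * L ^ 37 := by linarith
      _ ≤ D * T * L ^ 37 := mul_le_mul_of_nonneg_right hDT (by positivity)
  have h43 : (1 : ℝ) ≤ L ^ 43 := one_le_pow₀ (by linarith)
  have h44 : (1 : ℝ) ≤ D * T * L ^ 43 := by
    calc (1 : ℝ) = 1 * 1 := by ring
      _ ≤ D * T * L ^ 43 := mul_le_mul hDT h43 (by norm_num) hDT0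
  have hS : D + l + 33 + 2 * (24 * L + 1) ^ 2 + 4 * x ≤ 10 * (D * T * L ^ 37) := by linarith
  have hX : (81 * (L + 1)) ^ 2 * (D + l + 33 + 2 * (24 * L + 1) ^ 2 + 4 * x) ≤
      (L ^ 3) ^ 2 * (10 * (D * T * L ^ 37)) := by
    calc _ ≤ (81 * (L + 1)) ^ 2 * (10 * (D * T * L ^ 37)) :=
          mul_le_mul_of_nonneg_left hS (by positivity)
      _ ≤ _ := mul_le_mul_of_nonneg_right hq1 (by linarith)
  have h45 : 11 * (D * T * L ^ 43) ≤ D * T * L ^ 46 := by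
    calc 11 * (D * T * L ^ 43) ≤ L ^ 3 * (D * T * L ^ 43) := by
          apply mul_le_mul_of_nonneg_right _ (by linarith)
          calc (11 : ℝ) ≤ 50 ^ 3 := by norm_num
            _ ≤ L ^ 3 := pow_le_pow_left₀ (by norm_num) hL' 3
      _ = D * T * L ^ 46 := by ring
  have h46 : (L ^ 3) ^ 2 * (10 * (D * T * L ^ 37)) = 10 * (D * T * L ^ 43) := by ring
  linarith

theorem step (h1 : S_ITER) (h3 : S_PP) : S_STEP := by
  obtain ⟨K1, hK1, hA⟩ := h3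
  obtain ⟨K2, hK2, hC⟩ := Pool.Agent.TH546.SG.CU2
  refine ⟨K1 + 25 * K2 + 46, by positivity, fun L r D hL hr1 hr2 hD => ?_⟩
  obtain ⟨k, l, E, PP, hPP, hl1, hl2, hmu⟩ := hA L hL
  set lam : ℝ := Real.log L with hlam
  have hL' : (50 : ℝ) ≤ L := by exact_mod_cast hL
  have hL0 : (0 : ℝ) < L := by linarith
  have hD' : (1 : ℝ) ≤ D := by exact_mod_cast hD
  have hlam1 : 1 ≤ lam := by
    rw [hlam, Real.le_log_iff_exp_le hL0]
    have := Real.exp_one_lt_d9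
    linarith
  -- size of `l`
  have hl4 : (l : ℝ) ≤ (L : ℝ) ^ 4 := by
    have h5 : (l : ℝ) ≤ 16 * ((L : ℝ) + 1) ^ 2 := by exact_mod_cast hl2
    have h6 : 16 * ((L : ℝ) + 1) ^ 2 ≤ (L : ℝ) ^ 4 := by
      have h7 : 4 * ((L : ℝ) + 1) ≤ (L : ℝ) ^ 2 := by nlinarith
      calc 16 * ((L : ℝ) + 1) ^ 2 = (4 * ((L : ℝ) + 1)) ^ 2 := by ring
        _ ≤ ((L : ℝ) ^ 2) ^ 2 := pow_le_pow_left₀ (by positivity) h7 2
        _ = (L : ℝ) ^ 4 := by ring
    linarith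
  have hlog : Real.log ((l + 1 : ℕ) : ℝ) ≤ 4 * lam + 1 := by
    have h5 : (0 : ℝ) < ((l + 1 : ℕ) : ℝ) := by positivity
    have h6 : ((l + 1 : ℕ) : ℝ) ≤ 2 * (L : ℝ) ^ 4 := by
      push_cast
      have : (1 : ℝ) ≤ (L : ℝ) ^ 4 := one_le_pow₀ (by linarith)
      linarith
    have h7 : Real.log 2 ≤ 1 := by
      have := Real.log_two_lt_d9
      linarith
    calc Real.log ((l + 1 : ℕ) : ℝ) ≤ Real.log (2 * (L : ℝ) ^ 4) := Real.log_le_log h5 h6
      _ = Real.log 2 + 4 * lam := by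
          rw [Real.log_mul (by norm_num) (by positivity), Real.log_pow]
          norm_num [hlam]
      _ ≤ _ := by linarith
  have hlog0 : 0 ≤ Real.log ((l + 1 : ℕ) : ℝ) := Real.log_natCast_nonneg _
  -- the number of polygons
  set T : ℝ := Real.exp ((K1 + 25 * K2) * lam ^ 2) with hT
  have hT1 : 1 ≤ T := Real.one_le_exp (by positivity)
  have hcn : (cn l : ℝ) ≤ (PP.card : ℝ) * T := by
    calc (cn l : ℝ)
        ≤ H981.mu ^ l * Real.exp (K2 * Real.log ((l + 1 : ℕ) : ℝ) ^ 2) :=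
          hC (l + 1) (by omega) l (by omega)
      _ ≤ H981.mu ^ l * Real.exp (25 * K2 * lam ^ 2) := by
          apply mul_le_mul_of_nonneg_left _ (pow_pos mu_pos _).le
          apply Real.exp_le_exp.2
          have h8 : Real.log ((l + 1 : ℕ) : ℝ) ^ 2 ≤ (5 * lam) ^ 2 :=
            pow_le_pow_left₀ hlog0 (by linarith) 2
          calc K2 * Real.log ((l + 1 : ℕ) : ℝ) ^ 2 ≤ K2 * (5 * lam) ^ 2 :=
                mul_le_mul_of_nonneg_left h8 hK2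
            _ = 25 * K2 * lam ^ 2 := by ring
      _ ≤ ((PP.card : ℝ) * Real.exp (K1 * lam ^ 2)) * Real.exp (25 * K2 * lam ^ 2) :=
          mul_le_mul_of_nonneg_right hmu (Real.exp_pos _).le
      _ = (PP.card : ℝ) * T := by
          rw [mul_assoc, ← Real.exp_add, hT]
          congr 2
          ring
  -- the constants
  obtain ⟨C, hCdef⟩ : ∃ C : ℕ, C = 16 * 33 * 4 ^ 32 * (D + l + 33) * Om L l := ⟨_, rfl⟩
  obtain ⟨hp1, hp2⟩ := step_poly L D l hL' hD' (by positivity) hl4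
  have hCR : (C : ℝ) ≤ D * (L : ℝ) ^ 37 := by
    refine le_trans (le_of_eq ?_) hp1
    rw [hCdef]
    unfold Om
    push_cast
    ring
  have hT0 : 0 ≤ T := by linarith
  have hC0 : (0 : ℝ) ≤ C := Nat.cast_nonneg C
  obtain ⟨x, hx1, hx2⟩ : ∃ x : ℕ, (C : ℝ) * T ≤ x ∧ (x : ℝ) ≤ C * T + 1 :=
    ⟨⌈(C : ℝ) * T⌉₊, Nat.le_ceil _, (Nat.ceil_lt_add_one (mul_nonneg hC0 hT0)).le⟩
  refine ⟨(81 * (L + 1)) ^ 2 * (D + l + 33 + 2 * (24 * L + 1) ^ 2 + 4 * x) + 1, ?_, ?_⟩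
  · have hDT0 : (0 : ℝ) ≤ D * T := mul_nonneg (by linarith) hT0
    have hfin : (((81 * (L + 1)) ^ 2 * (D + l + 33 + 2 * (24 * L + 1) ^ 2 + 4 * x) + 1 : ℕ) : ℝ)
        ≤ D * T * (L : ℝ) ^ 46 := by
      have := step_fin L D l T C x hL' hD' hT1 hp2 hCR hx2
      push_cast
      exact this
    have hL46 : (L : ℝ) ^ 46 ≤ Real.exp (46 * lam ^ 2) := by
      have h14 : (L : ℝ) ^ 46 = Real.exp (46 * lam) := by
        rw [hlam, ← Real.rpow_natCast, Real.rpow_def_of_pos hL0]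
        congr 1
        push_cast
        ring
      rw [h14]
      apply Real.exp_le_exp.2
      have h15 : lam ≤ lam ^ 2 := le_self_pow₀ hlam1 (by norm_num)
      linarith
    calc _ ≤ D * T * (L : ℝ) ^ 46 := hfin
      _ ≤ D * T * Real.exp (46 * lam ^ 2) := mul_le_mul_of_nonneg_left hL46 hDT0
      _ = D * Real.exp ((K1 + 25 * K2 + 46) * lam ^ 2) := by
          rw [hT, mul_assoc, ← Real.exp_add]
          congr 2
          ring
  · refine h1 L r k l E PP D x _ hL hr1 hr2 (fun Q hQ => hPP Q hQ) ?_ le_rfl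
    rw [← hCdef]
    have h16 : ((C * cn l : ℕ) : ℝ) ≤ ((x * PP.card : ℕ) : ℝ) := by
      push_cast
      calc (C : ℝ) * cn l ≤ C * (PP.card * T) := mul_le_mul_of_nonneg_left hcn (by positivity)
        _ = (C * T) * PP.card := by ring
        _ ≤ x * PP.card := mul_le_mul_of_nonneg_right hx1 (by positivity)
    exact_mod_cast h16

end Pool.Agent.U126.QP
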