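import Pool.Agent.U126.QP.Fin
import Pool.Agent.U126.QP.Cand
import Pool.Agent.U126.QP.Iter
import Pool.Agent.U126.QP.Cyc
import Pool.Agent.U126.QP.Step
import Pool.Agent.U126.QP.Main

/-! # The main theorem -/

set_option autoImplicit false

namespace Pool.Agent.U126.QP

theorem all : S_MAIN := smain (step (iter cand) cyc)

end Pool.Agent.U126.QP
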