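import Pool.Agent.U126.QP.Exist
import Pool.Agent.W840.CT.Count

/-! # Counting the insertions -/

set_option autoImplicit false

namespace Pool.Agent.U126.QP

open scoped Classical
open Pool.Agent.W840.CT

/-- sites of `B` at squared distance at most `d` from `A` -/
noncomputable def VD (A : Set Pt) (d : ℤ) (B : List Pt) : Finset Pt :=
  B.toFinset.filter (fun v => ∃ a ∈ A, d2 v a ≤ d)

/-- sites where a polygon can be inserted -/
noncomputable def CA (A : Set Pt) (L r : ℤ) (B : List Pt) : Finset Pt :=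
  B.toFinset.filter (fun v => ∃ a ∈ A, (∀ b ∈ B, d2 v a ≤ d2 b a) ∧
    |a.2 - v.2| ≤ a.1 - v.1 ∧ 13 * L ≤ a.1 - v.1 ∧ d2 v a ≤ r ∧ FE B v L)

/-- walks with lengths in an interval -/
def LR (lo hi : ℕ) : Set (List Pt) :=
  {B | B.IsChain adj ∧ B.Nodup ∧ B.head? = some 0 ∧ lo ≤ B.length ∧ B.length ≤ hi}

theorem LR_sub (lo hi : ℕ) : LR lo hi ⊆ ⋃ n ∈ Finset.Icc (lo - 1) (hi - 1), LS n := by
  rintro B ⟨h1, h2, h3, h4, h5⟩
  rw [Set.mem_iUnion₂]
  have h6 : 1 ≤ B.length := by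
    cases B with
    | nil => simp at h3
    | cons a l => simp
  refine ⟨B.length - 1, ?_, ?_⟩
  · rw [Finset.mem_Icc]
    omega
  · exact ⟨by omega, h3, h1, h2⟩

theorem LR_finite (lo hi : ℕ) : (LR lo hi).Finite :=
  (Set.Finite.biUnion (Finset.finite_toSet _) (fun n _ => LS_finite n)).subset (LR_sub lo hi)

/-- walks with many sites close to `A` and few very close -/
def SS (A : Set Pt) (r d : ℤ) (N M lo hi : ℕ) : Set (List Pt) :=
  {B | B ∈ LR lo hi ∧ N ≤ (VD A r B).card ∧ (VD A d B).card ≤ M}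

theorem SS_finite (A : Set Pt) (r d : ℤ) (N M lo hi : ℕ) : (SS A r d N M lo hi).Finite :=
  (LR_finite lo hi).subset (fun _ h => h.1)

/-- codes -/
noncomputable def Cd (L : ℕ) (l : ℕ) : Finset (Pt × (ℕ × (ℕ × (ℕ × KK)))) :=
  (Finset.Icc (-(9 * (L : ℤ))) (9 * L) ×ˢ Finset.Icc (-(9 * (L : ℤ))) (9 * L)) ×ˢ
    (Finset.range (l + 22) ×ˢ (Finset.range (l + 1) ×ˢ (Finset.range (6 * L + 1) ×ˢ
      (Finset.univ : Finset KK))))

def Om (L l : ℕ) : ℕ := (18 * L + 1) ^ 2 * ((l + 22) * ((l + 1) * ((6 * L + 1) * 1728)))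

theorem Cd_card (L l : ℕ) : (Cd L l).card = Om L l := by
  unfold Cd Om
  rw [Finset.card_product, Finset.card_product, Finset.card_product, Finset.card_product,
    Finset.card_product, Int.card_Icc, Finset.card_range, Finset.card_range, Finset.card_range]
  have e1 : (9 * (L : ℤ) + 1 - -(9 * (L : ℤ))).toNat = 18 * L + 1 := by omega
  have e2 : (Finset.univ : Finset KK).card = 1728 := by
    rw [Finset.card_univ]
    simp only [KK, Fintype.card_prod, Fintype.card_bool, Fintype.card_fin]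
  rw [e1, e2, sq]

theorem one_step {A : Set Pt} {L : ℕ} (hL : 50 ≤ L) {r : ℤ} (hr : r ≤ 400 * ((L : ℤ) + 1) ^ 2)
    {k l : ℕ} {E : Pt} {PP : Finset (List Pt)}
    (hPP : ∀ Q ∈ PP, Ring (L : ℤ) (zt k Q) E ∧ Q.length = l) {N N' M M' lo lo' hi hi' X : ℕ}
    (hN : N' + 1 ≤ N) (hM : M + l + 33 ≤ M') (hlo : lo' ≤ lo + l) (hhi : hi + l + 32 ≤ hi') :
    ({B | B ∈ SS A r (r - 7 * (L : ℤ) ^ 2) N M lo hi ∧ X ≤ (CA A L r B).card} :
      Set (List Pt)).ncard * (X * PP.card) ≤
      (SS A r (r - 7 * (L : ℤ) ^ 2) N' M' lo' hi').ncard * (M' * Om L l) := by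
  set S : Set (List Pt) := {B | B ∈ SS A r (r - 7 * (L : ℤ) ^ 2) N M lo hi ∧
    X ≤ (CA A L r B).card} with hS
  have hSf : S.Finite := (SS_finite A r _ N M lo hi).subset (fun B h => h.1)
  set S' := SS A r (r - 7 * (L : ℤ) ^ 2) N' M' lo' hi' with hS'
  have hSf' : S'.Finite := SS_finite _ _ _ _ _ _ _
  have hL' : (50 : ℤ) ≤ L := by exact_mod_cast hL
  -- existence
  have hex : ∀ (q : (Σ _ : List Pt, Pt) × List Pt),
      q ∈ (hSf.toFinset.sigma (fun B => CA A L r B)) ×ˢ PP →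
      ∃ (B' : List Pt) (y : Pt) (c : Pt × (ℕ × (ℕ × (ℕ × KK)))),
        Rel k q.1.1 q.1.2 q.2 B' y c.1 c.2.1 c.2.2.1 c.2.2.2.1 c.2.2.2.2 ∧
        B' ∈ S' ∧ y ∈ VD A (r - 7 * (L : ℤ) ^ 2) B' ∧ c ∈ Cd L l := by
    rintro ⟨⟨B, v⟩, Q⟩ hq
    rw [Finset.mem_product, Finset.mem_sigma, Set.Finite.mem_toFinset] at hq
    obtain ⟨⟨hB, hv⟩, hQ⟩ := hq
    simp only at hB hv hQ
    obtain ⟨⟨⟨b1, b2, b3, b4, b5⟩, b6, b7⟩, -⟩ := hB
    unfold CA at hv
    rw [Finset.mem_filter, List.mem_toFinset] at hv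
    obtain ⟨hvB, a, ha, c1, c2, c3, c4, c5⟩ := hv
    obtain ⟨hR, hl⟩ := hPP Q hQ
    obtain ⟨B', y, off, o, j, s, κ, g1, g2, g3, g4, g5, g6, g7, g8, g9, g10, g11, g12, g13, g14⟩ :=
      exist hL' hR b1 b2 hvB c1 c2 c3 (c4.trans hr) c5
    rw [hl] at g5 g6 g9 g10
    refine ⟨B', y, (off, o, j, s, κ), g1, ⟨⟨g2, g3, by rw [g4]; exact b3, by omega, by omega⟩,
      ?_, ?_⟩, ?_, ?_⟩
    · -- many close sites
      have h1 : VD A r B ⊆ VD A r B' ∪ (B.toFinset \ B'.toFinset) := by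
        intro x hx
        unfold VD at hx ⊢
        rw [Finset.mem_filter] at hx
        rw [Finset.mem_union, Finset.mem_filter, Finset.mem_sdiff]
        by_cases h : x ∈ B'.toFinset
        · exact Or.inl ⟨h, hx.2⟩
        · exact Or.inr ⟨hx.1, h⟩
      have h2 := (Finset.card_le_card h1).trans (Finset.card_union_le _ _)
      omega
    · -- few very close sites
      have h1 : VD A (r - 7 * (L : ℤ) ^ 2) B' ⊆ VD A (r - 7 * (L : ℤ) ^ 2) B ∪ (B'.toFinset \ B.toFinset) := by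
        intro x hx
        unfold VD at hx ⊢
        rw [Finset.mem_filter] at hx
        rw [Finset.mem_union, Finset.mem_filter, Finset.mem_sdiff]
        by_cases h : x ∈ B.toFinset
        · exact Or.inl ⟨h, hx.2⟩
        · exact Or.inr ⟨hx.1, h⟩
      have h2 := (Finset.card_le_card h1).trans (Finset.card_union_le _ _)
      have h3 : (B'.toFinset \ B.toFinset).card ≤ l + 33 := by
        have e1 := Finset.card_sdiff_add_card_inter B'.toFinset B.toFinset
        have e2 := Finset.card_sdiff_add_card_inter B.toFinset B'.toFinset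
        rw [Finset.inter_comm] at e2
        rw [List.toFinset_card_of_nodup g3] at e1
        rw [List.toFinset_card_of_nodup b2] at e2
        omega
      omega
    · unfold VD
      rw [Finset.mem_filter, List.mem_toFinset]
      exact ⟨g7, a, ha, by linarith⟩
    · unfold Cd
      simp only [Finset.mem_product, Finset.mem_Icc, Finset.mem_range, Finset.mem_univ, and_true]
      rw [abs_le] at g12 g13
      refine ⟨⟨⟨by linarith [g12.1], by linarith [g12.2]⟩, ⟨by linarith [g13.1],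
        by linarith [g13.2]⟩⟩, by omega, by omega, by omega⟩
  choose! fB fy fc hrel hmem hy hc using hex
  have hcard : ((hSf.toFinset.sigma (fun B => CA A L r B)) ×ˢ PP).card ≤
      ((hSf'.toFinset.sigma (fun B => VD A (r - 7 * (L : ℤ) ^ 2) B)) ×ˢ Cd L l).card := by
    refine Finset.card_le_card_of_injOn
      (fun q => ((⟨fB q, fy q⟩ : Σ _ : List Pt, Pt), fc q)) ?_ ?_
    · intro q hq
      rw [Finset.mem_coe] at hq
      rw [Finset.mem_coe, Finset.mem_product, Finset.mem_sigma, Set.Finite.mem_toFinset]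
      exact ⟨⟨hmem q hq, hy q hq⟩, hc q hq⟩
    · intro q hq q' hq' h
      rw [Finset.mem_coe] at hq hq'
      simp only [Prod.mk.injEq, Sigma.mk.injEq, heq_eq_eq] at h
      obtain ⟨⟨h1, h2⟩, h3⟩ := h
      have r1 := hrel q hq
      have r2 := hrel q' hq'
      rw [← h1, ← h2, ← h3] at r2
      have hl : q.2.length = q'.2.length := by
        rw [Finset.mem_product] at hq hq'
        rw [(hPP _ hq.2).2, (hPP _ hq'.2).2]
      obtain ⟨e1, e2, e3⟩ := Rel.unique hl r1 r2
      refine Prod.ext ?_ e3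
      exact Sigma.ext e1 (heq_of_eq e2)
  have hlow : hSf.toFinset.card * X ≤ (hSf.toFinset.sigma (fun B => CA A L r B)).card := by
    rw [Finset.card_sigma, ← smul_eq_mul]
    refine Finset.card_nsmul_le_sum _ _ _ (fun B hB => ?_)
    rw [Set.Finite.mem_toFinset] at hB
    exact hB.2
  have hup : (hSf'.toFinset.sigma (fun B => VD A (r - 7 * (L : ℤ) ^ 2) B)).card ≤ hSf'.toFinset.card * M' := by
    rw [Finset.card_sigma, ← smul_eq_mul]
    refine Finset.sum_le_card_nsmul _ _ _ (fun B hB => ?_)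
    rw [Set.Finite.mem_toFinset] at hB
    exact hB.2.2
  rw [Finset.card_product, Finset.card_product, Cd_card] at hcard
  have e1 : S.ncard = hSf.toFinset.card := Set.ncard_eq_toFinset_card S hSf
  have e2 : S'.ncard = hSf'.toFinset.card := Set.ncard_eq_toFinset_card S' hSf'
  rw [e1, e2]
  calc hSf.toFinset.card * (X * PP.card) = hSf.toFinset.card * X * PP.card := by ring
    _ ≤ (hSf.toFinset.sigma (fun B => CA A L r B)).card * PP.card :=
        Nat.mul_le_mul_right _ hlow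
    _ ≤ (hSf'.toFinset.sigma (fun B => VD A (r - 7 * (L : ℤ) ^ 2) B)).card * Om L l := hcard
    _ ≤ hSf'.toFinset.card * M' * Om L l := Nat.mul_le_mul_right _ hup
    _ = _ := by ring

end Pool.Agent.U126.QP
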