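import Pool.Agent.U126.QP.Move

/-! # Existence of the insertion -/

set_option autoImplicit false

namespace Pool.Agent.U126.QP

open scoped Classical
open Pool.Agent.W840.CT

/-- the end points of `B` are far from `v` -/
def FE (B : List Pt) (v : Pt) (L : ℤ) : Prop :=
  (∀ x ∈ B.head?, 12 * L < |x.1 - v.1| ∨ 12 * L < |x.2 - v.2|) ∧
  (∀ x ∈ B.getLast?, 12 * L < |x.1 - v.1| ∨ 12 * L < |x.2 - v.2|)

theorem d2_shift {L : ℤ} (hL : 50 ≤ L) {p y a : Pt} {r : ℤ} (hr : r ≤ 400 * (L + 1) ^ 2)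
    (h1 : d2 p a ≤ r - 8 * L ^ 2) (h2 : |y.1 - p.1| + |y.2 - p.2| ≤ 1) :
    d2 y a ≤ r - 7 * L ^ 2 := by
  unfold d2 at *
  obtain ⟨X, hX⟩ : ∃ X, X = p.1 - a.1 := ⟨_, rfl⟩
  obtain ⟨Y, hY⟩ : ∃ Y, Y = p.2 - a.2 := ⟨_, rfl⟩
  obtain ⟨x, hx⟩ : ∃ x, x = y.1 - p.1 := ⟨_, rfl⟩
  obtain ⟨t, ht⟩ : ∃ t, t = y.2 - p.2 := ⟨_, rfl⟩
  rw [← hX, ← hY] at h1
  rw [← hx, ← ht] at h2
  have e1 : y.1 - a.1 = X + x := by rw [hX, hx]; ring
  have e2 : y.2 - a.2 = Y + t := by rw [hY, ht]; ring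
  rw [e1, e2]
  have hL0 : 0 ≤ L ^ 2 := sq_nonneg L
  have bX : |X| ≤ 20 * (L + 1) := by
    apply abs_le_of_sq_le_sq _ (by linarith)
    have : (20 * (L + 1)) ^ 2 = 400 * (L + 1) ^ 2 := by ring
    rw [this]
    linarith [sq_nonneg Y]
  have bY : |Y| ≤ 20 * (L + 1) := by
    apply abs_le_of_sq_le_sq _ (by linarith)
    have : (20 * (L + 1)) ^ 2 = 400 * (L + 1) ^ 2 := by ring
    rw [this]
    linarith [sq_nonneg X]
  have hh : (X + x) ^ 2 + (Y + t) ^ 2 ≤ X ^ 2 + Y ^ 2 + 2 * (20 * (L + 1)) + 1 := by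
    have f1 : x = 0 ∧ t = 0 ∨ (x = 1 ∨ x = -1) ∧ t = 0 ∨ x = 0 ∧ (t = 1 ∨ t = -1) := by
      rcases abs_cases x with h | h <;> rcases abs_cases t with h' | h' <;> omega
    rw [abs_le] at bX bY
    rcases f1 with ⟨rfl, rfl⟩ | ⟨rfl | rfl, rfl⟩ | ⟨rfl, rfl | rfl⟩
    · have : (X + 0) ^ 2 + (Y + 0) ^ 2 = X ^ 2 + Y ^ 2 := by ring
      linarith
    · have : (X + 1) ^ 2 + (Y + 0) ^ 2 = X ^ 2 + Y ^ 2 + 2 * X + 1 := by ring
      linarith
    · have : (X + -1) ^ 2 + (Y + 0) ^ 2 = X ^ 2 + Y ^ 2 - 2 * X + 1 := by ring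
      linarith
    · have : (X + 0) ^ 2 + (Y + 1) ^ 2 = X ^ 2 + Y ^ 2 + 2 * Y + 1 := by ring
      linarith
    · have : (X + 0) ^ 2 + (Y + -1) ^ 2 = X ^ 2 + Y ^ 2 - 2 * Y + 1 := by ring
      linarith
  have h3 : 50 * L ≤ L ^ 2 := by nlinarith
  linarith

theorem exist {B : List Pt} {L : ℤ} (hL : 50 ≤ L) {k : ℕ} {Q : List Pt} {E : Pt}
    (R : Ring L (zt k Q) E) (hB : B.IsChain adj) (nB : B.Nodup) {v a : Pt} (hv : v ∈ B)
    (hcl : ∀ b ∈ B, d2 v a ≤ d2 b a)
    (h1 : |a.2 - v.2| ≤ a.1 - v.1) (h2 : 13 * L ≤ a.1 - v.1)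
    (hr : d2 v a ≤ 400 * (L + 1) ^ 2) (fe : FE B v L) :
    ∃ (B' : List Pt) (y off : Pt) (o j s : ℕ) (κ : KK), Rel k B v Q B' y off o j s κ ∧
      B'.IsChain adj ∧ B'.Nodup ∧ B'.head? = B.head? ∧
      B.length + Q.length ≤ B'.length ∧ B'.length ≤ B.length + Q.length + 32 ∧
      y ∈ B' ∧ d2 y a ≤ d2 v a - 7 * L ^ 2 ∧ o ≤ Q.length + 21 ∧ j ≤ Q.length ∧
      (s : ℤ) ≤ 6 * L ∧ |off.1| ≤ 9 * L ∧ |off.2| ≤ 9 * L ∧
      (B.toFinset \ B'.toFinset).card ≤ 1 := by
  obtain ⟨s, hs, hfar, q, hq, w, hw, g5, g2⟩ := slide hL R hv hcl h1 h2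
  set u : Pt := (v.1 + (s : ℤ), v.2) with hu
  obtain ⟨z, haw⟩ := R.away w
  have hwz : w ∈ zt k Q z := (R.mem z w).2 hw
  obtain ⟨w1, w2, w3⟩ := R.box w hw
  have qv1 : q.1 - v.1 = w.1 + s - 5 := by
    rw [hu] at g5
    simp only [Prod.fst_add] at g5
    linarith
  have qv2 : |q.2 - v.2| ≤ 2 * L + 2 := by
    rw [hu] at g2
    simp only [Prod.snd_add] at g2
    rw [abs_le] at *
    omega
  have hint : ∀ b ∈ B, |b.1 - q.1| ≤ 2 → |b.2 - q.2| ≤ 2 → ∃ z y, Con B z b ∧ Con B b y := by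
    intro b hb b1 b2
    refine interior hb ?_ ?_
    · intro h
      have := fe.1 b h
      rw [abs_le] at b1 b2 qv2
      rcases this with h | h <;> rcases lt_abs.1 h with h | h <;> omega
    · intro h
      have := fe.2 b h
      rw [abs_le] at b1 b2 qv2
      rcases this with h | h <;> rcases lt_abs.1 h with h | h <;> omega
  have hint' : ∀ x ∈ zt k Q z, |x.1 - w.1| ≤ 2 → |x.2 - w.2| ≤ 2 →
      ∃ t y, Con (zt k Q z) t x ∧ Con (zt k Q z) x y := by
    intro x hx x1 x2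
    refine interior hx ?_ ?_
    · intro h
      have := haw.1 x h
      omega
    · intro h
      have := haw.2 x h
      omega
  obtain ⟨e, b, b', c, c', δ, L1, L2, P1, P2, r1, r2, r3, r4⟩ :=
    ins hB nB (R.cyc z).ch (R.cyc z).nd (R.cyc z).cl hq hwz g5 g2
      (fun b hb x hx => hfar b hb x ((R.mem z x).1 hx)) hint hint'
  set N := NN c c' δ L1 L2 P1 P2 with hN
  set B' := rv b (N.map (TI e q)) with hB'
  have hrB' : rv b B' = N.map (TI e q) := by rw [hB', rv_rv]
  have hNn : (N.map (TI e q)).Nodup := r4.map (TI_inj e q)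
  -- the site close to `E + u`
  obtain ⟨y', hy', hdy⟩ : ∃ y' ∈ (Bc c').map (ps δ) ++ (P2 ++ (P1 ++ (Ac c').map (ps δ))),
      |(TI e q y').1 - (E + u).1| + |(TI e q y').2 - (E + u).2| ≤ 1 := by
    have hE : TT e q (E + u) ∈ P1 ++ ((Mc c').map (ps δ) ++ P2) := by
      rw [← r2, mem_rv, List.mem_map]
      exact ⟨E, (R.mem z E).2 R.e0, rfl⟩
    rw [List.mem_append, List.mem_append] at hE
    rcases hE with h | h | h
    · refine ⟨TT e q (E + u), by simp [h], ?_⟩
      rw [TI_TT]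
      simp
    · rw [List.mem_map] at h
      obtain ⟨m, hm, hm2⟩ := h
      obtain ⟨m', hm', hd⟩ := k12 c' m hm
      refine ⟨ps δ m', ?_, ?_⟩
      · rw [List.mem_append] at hm'
        rcases hm' with h | h
        · simp only [List.mem_append]
          exact Or.inr (Or.inr (Or.inr (List.mem_map_of_mem h)))
        · simp only [List.mem_append]
          exact Or.inl (List.mem_map_of_mem h)
      · have e1 : E + u = TI e q (ps δ m) := by rw [hm2, TI_TT]
        rw [e1]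
        unfold TI ps
        simp only
        rw [show 5 - m'.1 + q.1 - (5 - m.1 + q.1) = -(m'.1 - m.1) by ring, abs_neg,
          show sg e * ((δ.1 : ℤ) - m'.2) + q.2 - (sg e * ((δ.1 : ℤ) - m.2) + q.2) =
            sg e * (-(m'.2 - m.2)) by ring, sg_abs, abs_neg, Int.abs_eq_natAbs,
          Int.abs_eq_natAbs]
        omega
    · refine ⟨TT e q (E + u), by simp [h], ?_⟩
      rw [TI_TT]
      simp
  -- lengths
  have hlB : (L1 ++ (Mc c ++ L2)).length = B.length := by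
    rw [← r1, rv_length, List.length_map]
  have hlQ : (P1 ++ ((Mc c').map (ps δ) ++ P2)).length = Q.length := by
    rw [← r2, rv_length, List.length_map, zt_length]
  have hlN := NN_length c c' δ L1 L2 P1 P2
  rw [hlB, hlQ, ← hN] at hlN
  have hlB' : B'.length = N.length := by rw [hB', rv_length, List.length_map]
  have hP1 : P1.length + P2.length ≤ Q.length := by
    rw [← hlQ]
    simp only [List.length_append]
    omega
  -- the index
  have hsplit : N.map (TI e q) = (L1 ++ (Ac c ++ lL c c' δ)).map (TI e q) ++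
      (((Bc c').map (ps δ) ++ (P2 ++ (P1 ++ (Ac c').map (ps δ)))).map (TI e q) ++
        (lU c c' δ ++ (Bc c ++ L2)).map (TI e q)) := by
    rw [hN]
    unfold NN
    simp only [List.map_append, List.append_assoc]
  have hyX : TI e q y' ∈
      ((Bc c').map (ps δ) ++ (P2 ++ (P1 ++ (Ac c').map (ps δ)))).map (TI e q) :=
    List.mem_map_of_mem hy'
  have hidx : ∃ o, o ≤ Q.length + 21 ∧ (rv b B').idxOf (TI e q y') = L1.length + o := by
    have hnot : TI e q y' ∉ (L1 ++ (Ac c ++ lL c c' δ)).map (TI e q) := by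
      rw [hsplit, List.nodup_append'] at hNn
      intro h
      exact hNn.2.2 h (by rw [List.mem_append]; exact Or.inl hyX)
    rw [hrB', hsplit, List.idxOf_append_of_notMem hnot, List.idxOf_append_of_mem hyX]
    have h3 := List.idxOf_lt_length_of_mem hyX
    obtain ⟨a1, a2, a3, a4, a5, a6, a7⟩ := k9 c c' δ
    obtain ⟨b1, b2, b3, b4, b5, b6, b7⟩ := k9 c' c δ
    rw [List.length_map] at h3 ⊢
    simp only [List.length_append, List.length_map] at h3 ⊢
    exact ⟨(Ac c).length + (lL c c' δ).length + List.idxOf (TI e q y')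
      (List.map (TI e q) (List.map (ps δ) (Bc c') ++ (P2 ++ (P1 ++ List.map (ps δ) (Ac c'))))),
      by omega, by omega⟩
  obtain ⟨o, ho, hidx⟩ := hidx
  refine ⟨B', TI e q y', v - q, o, P1.length, s, ((z, e, b, b'), (c, c', δ)),
    ⟨L1, L2, P1, P2, q, r1, r2, hrB', rfl, hidx, rfl⟩, ?_, ?_, ?_, ?_, ?_, ?_, ?_, ho, by omega,
    hs, ?_, ?_, ?_⟩
  · rw [hB', rv_chain]
    exact map_chain' (fun x y h => TI_adj e q h) r3
  · rw [hB', rv_nodup]
    exact hNn
  · have e1 : (rv b (N.map (TI e q))).head? =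
        (rv b ((L1 ++ (Mc c ++ L2)).map (TI e q))).head? := by
      refine rv_head ?_ ?_
      · rw [List.head?_map, List.head?_map, hN, NN_head]
      · rw [List.getLast?_map, List.getLast?_map, hN, NN_last]
    rw [hB', e1, ← r1, rv_map, rv_rv, List.map_map]
    have e2 : (TI e q ∘ TT e q) = id := by
      funext x
      exact TI_TT e q x
    rw [e2, List.map_id]
  · omega
  · omega
  · rw [hB', mem_rv]
    rw [hsplit, List.mem_append, List.mem_append]
    exact Or.inr (Or.inl hyX)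
  · have h3 := closer hL (E := E) (v := v) (a := a) (s := (s : ℤ)) (by omega) hs R.e1 R.e2 R.e3
      h1 h2
    exact d2_shift hL hr h3 hdy
  · simp only [Prod.fst_sub]
    rw [abs_le]
    omega
  · simp only [Prod.snd_sub]
    rw [abs_le] at qv2 ⊢
    omega
  · have hsub : B.toFinset \ B'.toFinset ⊆ {TI e q (mid c)} := by
      intro x hx
      rw [Finset.mem_sdiff, List.mem_toFinset, List.mem_toFinset] at hx
      obtain ⟨hx1, hx2⟩ := hx
      rw [Finset.mem_singleton]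
      have hx3 : TT e q x ∈ L1 ++ (Mc c ++ L2) := by
        rw [← r1, mem_rv]
        exact List.mem_map_of_mem hx1
      have hx4 : TT e q x ∉ N := by
        intro h
        apply hx2
        rw [hB', mem_rv, List.mem_map]
        exact ⟨_, h, TI_TT e q x⟩
      rw [List.mem_append, List.mem_append] at hx3
      rcases hx3 with h | h | h
      · exact absurd (by rw [hN]; unfold NN; simp [h]) hx4
      · rcases k11 c _ h with h | h
        · exfalso
          apply hx4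
          rw [List.mem_append] at h
          rw [hN]
          unfold NN
          simp only [List.mem_append]
          rcases h with h | h
          · exact Or.inr (Or.inl h)
          · exact Or.inr (Or.inr (Or.inr (Or.inr (Or.inr (Or.inr (Or.inr (Or.inr
              (Or.inl h))))))))
        · rw [← h, TI_TT]
      · exact absurd (by rw [hN]; unfold NN; simp [h]) hx4
    exact (Finset.card_le_card hsub).trans (by simp)

end Pool.Agent.U126.QP
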