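import Pool.Agent.U126.QP.Merge

/-! # Insertion of a translated polygon at a place where it is almost in contact with the walk -/

set_option autoImplicit false

namespace Pool.Agent.U126.QP

open Pool.Agent.W840.CT

def sg (e : Bool) : ℤ := if e then 1 else -1

theorem sg_sq (e : Bool) : sg e * sg e = 1 := by cases e <;> simp [sg]

theorem sg_abs (e : Bool) (x : ℤ) : |sg e * x| = |x| := by cases e <;> simp [sg]

/-- coordinates with the origin `q` -/
def TT (e : Bool) (q x : Pt) : Pt := (x.1 - q.1, sg e * (x.2 - q.2))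

/-- the inverse -/
def TI (e : Bool) (q y : Pt) : Pt := (y.1 + q.1, sg e * y.2 + q.2)

theorem TT_TI (e : Bool) (q y : Pt) : TT e q (TI e q y) = y := by
  unfold TT TI
  refine Prod.ext ?_ ?_
  · simp
  · simp only
    rw [add_sub_cancel_right, ← mul_assoc, sg_sq, one_mul]

theorem TI_TT (e : Bool) (q x : Pt) : TI e q (TT e q x) = x := by
  unfold TT TI
  refine Prod.ext ?_ ?_
  · simp
  · simp only
    rw [← mul_assoc, sg_sq, one_mul]
    ring

theorem TT_inj (e : Bool) (q : Pt) : Function.Injective (TT e q) := fun x y h => by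
  rw [← TI_TT e q x, h, TI_TT]

theorem TI_inj (e : Bool) (q : Pt) : Function.Injective (TI e q) := fun x y h => by
  rw [← TT_TI e q x, h, TT_TI]

theorem TT_adj (e : Bool) (q : Pt) {x y : Pt} (h : adj x y) : adj (TT e q x) (TT e q y) := by
  unfold adj TT at *
  simp only
  rw [show y.1 - q.1 - (x.1 - q.1) = y.1 - x.1 by ring,
    show sg e * (y.2 - q.2) - sg e * (x.2 - q.2) = sg e * (y.2 - x.2) by ring, sg_abs]
  exact h

theorem TI_adj (e : Bool) (q : Pt) {x y : Pt} (h : adj x y) : adj (TI e q x) (TI e q y) := by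
  unfold adj TI at *
  simp only
  rw [show y.1 + q.1 - (x.1 + q.1) = y.1 - x.1 by ring,
    show sg e * y.2 + q.2 - (sg e * x.2 + q.2) = sg e * (y.2 - x.2) by ring, sg_abs]
  exact h

theorem map_chain' {f : Pt → Pt} (hf : ∀ x y, adj x y → adj (f x) (f y)) {l : List Pt}
    (h : l.IsChain adj) : (l.map f).IsChain adj := by
  rw [List.isChain_map]
  exact h.imp (fun a b h => hf a b h)

theorem Con_map {f : Pt → Pt} {l : List Pt} {x y : Pt} (h : Con l x y) :
    Con (l.map f) (f x) (f y) := by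
  obtain ⟨i, hi, rfl, rfl⟩ := h
  exact ⟨i, by simpa using hi, by simp, by simp⟩

theorem adj_trans' (u : Pt) {x y : Pt} (h : adj x y) : adj (x + u) (y + u) := by
  unfold adj at *
  simp only [Prod.fst_add, Prod.snd_add, add_sub_add_right_eq_sub]
  exact h

theorem rv_map (b : Bool) (f : Pt → Pt) (l : List Pt) : (rv b l).map f = rv b (l.map f) := by
  cases b <;> simp [rv]

/-- **Insertion.** -/
theorem ins {B Q : List Pt} (hB : B.IsChain adj) (nB : B.Nodup) (hQ : Q.IsChain adj)
    (nQ : Q.Nodup) (cl : ∀ x ∈ Q.getLast?, ∀ y ∈ Q.head?, adj x y) {u q w : Pt}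
    (hq : q ∈ B) (hw : w ∈ Q) (h5 : (w + u).1 - q.1 = 5) (h2 : |(w + u).2 - q.2| ≤ 2)
    (far : ∀ b ∈ B, ∀ x ∈ Q, 5 ≤ |b.1 - (x + u).1| ∨ 3 ≤ |b.2 - (x + u).2|)
    (iB : ∀ b ∈ B, |b.1 - q.1| ≤ 2 → |b.2 - q.2| ≤ 2 → ∃ z y, Con B z b ∧ Con B b y)
    (iQ : ∀ x ∈ Q, |x.1 - w.1| ≤ 2 → |x.2 - w.2| ≤ 2 → ∃ z y, Con Q z x ∧ Con Q x y) :
    ∃ (e b b' : Bool) (c c' : Fin 6) (δ : Fin 3) (L1 L2 P1 P2 : List Pt),
      rv b (B.map (TT e q)) = L1 ++ (Mc c ++ L2) ∧
      rv b' (Q.map (fun x => TT e q (x + u))) = P1 ++ ((Mc c').map (ps δ) ++ P2) ∧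
      (NN c c' δ L1 L2 P1 P2).IsChain adj ∧ (NN c c' δ L1 L2 P1 P2).Nodup := by
  -- the sign and the offset
  obtain ⟨e, δ, hδ⟩ : ∃ (e : Bool) (δ : Fin 3), (w + u).2 - q.2 = sg e * (δ.1 : ℤ) := by
    rw [abs_le] at h2
    rcases le_or_gt 0 ((w + u).2 - q.2) with h | h
    · refine ⟨true, ⟨((w + u).2 - q.2).toNat, by omega⟩, ?_⟩
      simp only [sg, if_true, one_mul]
      omega
    · refine ⟨false, ⟨(-((w + u).2 - q.2)).toNat, by omega⟩, ?_⟩
      simp only [sg]
      rw [if_neg (by simp)]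
      omega
  have hd : δ.1 ≤ 2 := by omega
  set S := B.map (TT e q) with hS
  have hSc : S.IsChain adj := map_chain' (fun x y h => TT_adj e q h) hB
  have hSn : S.Nodup := nB.map (TT_inj e q)
  have memS : ∀ y : Pt, y ∈ S → TI e q y ∈ B := by
    intro y hy
    rw [hS, List.mem_map] at hy
    obtain ⟨x, hx, rfl⟩ := hy
    rw [TI_TT]
    exact hx
  set R := Q.map (fun x => TT e q (x + u)) with hR
  have hRc : R.IsChain adj := map_chain' (fun x y h => TT_adj e q (adj_trans' u h)) hQ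
  have hfR : Function.Injective (fun x => TT e q (x + u)) := fun x y h =>
    add_left_injective u (TT_inj e q h)
  have hRn : R.Nodup := nQ.map hfR
  have memR : ∀ y : Pt, y ∈ R → ∃ x ∈ Q, x + u = TI e q y := by
    intro y hy
    rw [hR, List.mem_map] at hy
    obtain ⟨x, hx, rfl⟩ := hy
    exact ⟨x, hx, by rw [TI_TT]⟩
  have e0 : TT e q q = (0, 0) := by unfold TT; simp
  have q0 : ((0, 0) : Pt) ∈ S := by
    rw [hS, List.mem_map]
    exact ⟨q, hq, e0⟩
  have e5 : TT e q (w + u) = (5, (δ.1 : ℤ)) := by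
    unfold TT
    rw [h5, hδ, ← mul_assoc, sg_sq, one_mul]
  have p0 : ((5, (δ.1 : ℤ)) : Pt) ∈ R := by
    rw [hR, List.mem_map]
    exact ⟨w, hw, e5⟩
  have farN : ∀ b ∈ S, ∀ x ∈ R, 5 ≤ |b.1 - x.1| ∨ 3 ≤ |b.2 - x.2| := by
    intro b hb x hx
    obtain ⟨x', hx', e1⟩ := memR x hx
    have h := far _ (memS b hb) x' hx'
    rw [e1] at h
    unfold TI at h
    simp only at h
    rw [show b.1 + q.1 - (x.1 + q.1) = b.1 - x.1 by ring,
      show sg e * b.2 + q.2 - (sg e * x.2 + q.2) = sg e * (b.2 - x.2) by ring, sg_abs] at h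
    exact h
  -- free sites to the right of the origin
  have fS : ∀ j : ℤ, 0 ≤ j → j ≤ 2 → ((1, j) : Pt) ∉ S := by
    intro j h1 h2 hm
    have h := farN _ hm _ p0
    simp only at h
    norm_num at h
    rcases le_abs.1 h with h | h <;> omega
  obtain ⟨c, b, L1, L2, hL, hF⟩ := pic hSc hSn q0 (fS 0 le_rfl (by norm_num))
    (fS 1 (by norm_num) (by norm_num)) (fS 2 (by norm_num) le_rfl) (by
      intro y hy h1 h2
      rw [hS, List.mem_map] at hy
      obtain ⟨x, hx, rfl⟩ := hy
      unfold TT at h1 h2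
      simp only at h1 h2
      rw [sg_abs] at h2
      obtain ⟨z, t, hz, ht⟩ := iB x hx h1 h2
      exact ⟨_, _, Con_map hz, Con_map ht⟩)
  -- the polygon
  set R' := R.map (ps δ) with hR'
  have hRc' : R'.IsChain adj := map_chain δ hRc
  have hRn' : R'.Nodup := hRn.map (ps_inj δ)
  have fR : ∀ j : ℤ, 0 ≤ j → j ≤ 2 → ((1, j) : Pt) ∉ R' := by
    intro j h1 h2 hm
    rw [hR', List.mem_map] at hm
    obtain ⟨y, hy, e1⟩ := hm
    have h := farN _ q0 _ hy
    have e2 : y = ps δ (1, j) := by rw [← e1, ps_ps]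
    rw [e2] at h
    unfold ps at h
    simp only at h
    norm_num at h
    rcases le_abs.1 h with h | h <;> omega
  have r0 : ((0, 0) : Pt) ∈ R' := by
    rw [hR', List.mem_map]
    refine ⟨_, p0, ?_⟩
    unfold ps
    simp
  obtain ⟨c', b', P1, P2, hP, hG⟩ := pic hRc' hRn' r0 (fR 0 le_rfl (by norm_num))
    (fR 1 (by norm_num) (by norm_num)) (fR 2 (by norm_num) le_rfl) (by
      intro y hy h1 h2
      rw [hR', List.mem_map] at hy
      obtain ⟨y', hy', rfl⟩ := hy
      rw [hR, List.mem_map] at hy'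
      obtain ⟨x, hx, rfl⟩ := hy'
      have hx1 : |x.1 - w.1| ≤ 2 := by
        have : (ps δ (TT e q (x + u))).1 = -(x.1 - w.1) := by
          unfold ps TT
          simp only [Prod.fst_add] at h5 ⊢
          linarith
        rw [this, abs_neg] at h1
        exact h1
      have hx2 : |x.2 - w.2| ≤ 2 := by
        have : (ps δ (TT e q (x + u))).2 = -(sg e * (x.2 - w.2)) := by
          unfold ps TT
          simp only [Prod.snd_add] at hδ ⊢
          have h3 : (δ.1 : ℤ) = sg e * (w.2 + u.2 - q.2) := by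
            rw [hδ, ← mul_assoc, sg_sq, one_mul]
          rw [h3]
          ring
        rw [this, abs_neg, sg_abs] at h2
        exact h2
      obtain ⟨z, t, hz, ht⟩ := iQ x hx hx1 hx2
      exact ⟨_, _, Con_map (Con_map hz), Con_map (Con_map ht)⟩)
  have hP' : rv b' R = P1.map (ps δ) ++ ((Mc c').map (ps δ) ++ P2.map (ps δ)) := by
    have h := congrArg (List.map (ps δ)) hP
    rw [rv_map, hR', List.map_map] at h
    have e1 : (ps δ ∘ ps δ) = id := by
      funext x
      exact ps_ps δ x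
    rw [e1, List.map_id] at h
    rw [h]
    simp [List.map_append]
  refine ⟨e, b, b', c, c', δ, L1, L2, P1.map (ps δ), P2.map (ps δ), hL, hP', ?_, ?_⟩
  · refine NN_chain ?_ ?_ ?_
    · rw [← hL, rv_chain]; exact hSc
    · rw [← hP', rv_chain]; exact hRc
    · rw [← hP']
      have key : ∀ x ∈ R.getLast?, ∀ y ∈ R.head?, adj x y := by
        intro x hx y hy
        rw [hR, List.getLast?_map] at hx
        rw [hR, List.head?_map] at hy
        rw [Option.mem_def, Option.map_eq_some_iff] at hx hy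
        obtain ⟨x', hx', rfl⟩ := hx
        obtain ⟨y', hy', rfl⟩ := hy
        exact TT_adj e q (adj_trans' u (cl x' hx' y' hy'))
      cases b'
      · simpa [rv] using key
      · intro x hx y hy
        simp only [rv, if_true] at hx hy
        rw [List.getLast?_reverse] at hx
        rw [List.head?_reverse] at hy
        exact adj_comm (key y hy x hx)
  · refine NN_nodup ?_ ?_ ?_ ?_ ?_ ?_ ?_
    · rw [← hL, rv_nodup]; exact hSn
    · rw [← hP', rv_nodup]; exact hRn
    · intro v hv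
      rw [← hL, mem_rv]
      exact hF v hv
    · intro v hv
      rw [← hP', mem_rv]
      rw [List.mem_map] at hv
      obtain ⟨y, hy, rfl⟩ := hv
      intro hm
      apply hG y hy
      rw [hR', List.mem_map]
      exact ⟨_, hm, ps_ps δ y⟩
    · rw [← hL, mem_rv]; exact q0
    · rw [← hP', mem_rv]; exact p0
    · intro x hx y hy
      rw [← hL, mem_rv] at hx
      rw [← hP', mem_rv] at hy
      exact farN x hx y hy

end Pool.Agent.U126.QP
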