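import Pool.Agent.U126.QP.Pic

/-! # Lanes between the walk and the polygon -/

set_option autoImplicit false

namespace Pool.Agent.U126.QP

open Pool.Agent.W840.CT

/-- the picture of the polygon in the coordinates of the walk -/
def ps (δ : Fin 3) (v : Pt) : Pt := (5 - v.1, (δ.1 : ℤ) - v.2)

def hseg (a b r : ℤ) : List Pt := (List.range (b + 1 - a).toNat).map (fun i => (a + i, r))

def vseg (c r r' : ℤ) : List Pt :=
  if r ≤ r' then (List.range (r' - r).toNat).map (fun i => (c, r + 1 + i))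
  else (List.range (r - r').toNat).map (fun i => (c, r - 1 - i))

def lane (x0 c x1 r r' : ℤ) : List Pt := hseg x0 c r ++ (vseg c r r' ++ hseg (c + 1) x1 r')

/-- the lower lane -/
def lL (c c' : Fin 6) (δ : Fin 3) : List Pt :=
  lane (xc c + 1) (if (δ.1 : ℤ) - yc c' - 1 ≤ yc c then 2 else 3) (4 - xc c') (yc c)
    ((δ.1 : ℤ) - yc c' - 1)

/-- the upper lane -/
def lU (c c' : Fin 6) (δ : Fin 3) : List Pt :=
  (lane (xc c + 1) (if (δ.1 : ℤ) - yc c' - 1 ≤ yc c then 3 else 2) (4 - xc c') (yc c + 1)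
    ((δ.1 : ℤ) - yc c')).reverse

/-- adjacency as a decidable test -/
def adB (p q : Pt) : Bool := (q.1 - p.1).natAbs + (q.2 - p.2).natAbs == 1

theorem adB_iff {p q : Pt} : adB p q = true ↔ adj p q := by
  unfold adB adj
  rw [beq_iff_eq, Int.abs_eq_natAbs, Int.abs_eq_natAbs]
  omega

def chB : List Pt → Bool
  | [] => true
  | [_] => true
  | a :: b :: l => adB a b && chB (b :: l)

theorem chB_iff : ∀ l : List Pt, chB l = true → l.IsChain adj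
  | [], _ => List.IsChain.nil
  | [_], _ => List.IsChain.singleton _
  | a :: b :: l, h => by
    unfold chB at h
    rw [Bool.and_eq_true] at h
    rw [List.isChain_cons_cons]
    exact ⟨adB_iff.1 h.1, chB_iff _ h.2⟩

theorem k1B : ∀ c c' : Fin 6, ∀ δ : Fin 3,
    chB (Ac c ++ (lL c c' δ ++ (Bc c').map (ps δ))) = true := by decide

theorem k2B : ∀ c c' : Fin 6, ∀ δ : Fin 3,
    chB ((Ac c').map (ps δ) ++ (lU c c' δ ++ Bc c)) = true := by decide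

theorem k3 : ∀ c c' : Fin 6, ∀ δ : Fin 3, (lL c c' δ ++ lU c c' δ).Nodup := by decide

theorem k4 : ∀ c c' : Fin 6, ∀ δ : Fin 3, ∀ v ∈ lL c c' δ ++ lU c c' δ,
    v ∉ Ac c ++ Bc c ∧ v ∉ (Ac c' ++ Bc c').map (ps δ) := by decide

theorem k5 : ∀ c c' : Fin 6, ∀ δ : Fin 3, ∀ v ∈ lL c c' δ ++ lU c c' δ,
    0 ≤ v.1 ∧ v.1 ≤ 5 ∧ (1 ≤ v.1 ∨ v ∈ Fr c) ∧ (v.1 ≤ 4 ∨ v ∈ (Fr c').map (ps δ)) ∧
    -2 ≤ v.2 ∧ v.2 ≤ 2 ∧ (δ.1 : ℤ) - 2 ≤ v.2 ∧ v.2 ≤ (δ.1 : ℤ) + 2 := by decide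

theorem k6 : ∀ c : Fin 6, ∀ v ∈ Ac c ++ Bc c,
    (v ∈ Mc c ∨ v ∈ Fr c) ∧ v.1 ≤ 0 ∧ -1 ≤ v.1 ∧ 0 ≤ v.2 ∧ v.2 ≤ 2 := by decide

theorem k7 : ∀ c : Fin 6, (Ac c ++ Bc c).Nodup := by decide

theorem k8 : ∀ c : Fin 6, (Ac c).head? = (Mc c).head? ∧ (Bc c).getLast? = (Mc c).getLast? ∧
    Ac c ≠ [] ∧ Bc c ≠ [] ∧ chB (Ac c) = true ∧ chB (Bc c) = true ∧ Mc c ≠ [] := by decide

theorem k9 : ∀ c c' : Fin 6, ∀ δ : Fin 3, (lL c c' δ).length ≤ 12 ∧ (lU c c' δ).length ≤ 12 ∧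
    (Ac c).length ≤ 3 ∧ (Bc c).length ≤ 3 ∧ (Mc c).length ≤ 3 ∧ 2 ≤ (Mc c).length ∧
    (Mc c).length ≤ (Ac c).length + (Bc c).length := by decide

theorem k10 : ∀ c : Fin 6, ∀ v ∈ Mc c, -1 ≤ v.1 ∧ v.1 ≤ 0 ∧ 0 ≤ v.2 ∧ v.2 ≤ 2 := by decide

end Pool.Agent.U126.QP
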