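import Pool.Agent.U126.QP.Lane

/-! # Insertion of a polygon into a walk -/

set_option autoImplicit false

namespace Pool.Agent.U126.QP

open Pool.Agent.W840.CT

/-- the walk with the polygon inserted -/
def NN (c c' : Fin 6) (δ : Fin 3) (L1 L2 P1 P2 : List Pt) : List Pt :=
  L1 ++ (Ac c ++ (lL c c' δ ++ ((Bc c').map (ps δ) ++ (P2 ++ (P1 ++ ((Ac c').map (ps δ) ++
    (lU c c' δ ++ (Bc c ++ L2))))))))

theorem head_repl {M A : List Pt} (h : A.head? = M.head?) (h1 : A ≠ []) (h2 : M ≠ [])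
    (P X Y : List Pt) : (P ++ (A ++ X)).head? = (P ++ (M ++ Y)).head? := by
  obtain ⟨a, A, rfl⟩ := List.exists_cons_of_ne_nil h1
  obtain ⟨m, M, rfl⟩ := List.exists_cons_of_ne_nil h2
  simp only [List.head?_cons, Option.some.injEq] at h
  subst h
  cases P <;> simp

theorem last_repl {M A : List Pt} (h : A.getLast? = M.getLast?) (h1 : A ≠ []) (h2 : M ≠ [])
    (P X Y : List Pt) : ((X ++ A) ++ P).getLast? = ((Y ++ M) ++ P).getLast? := by
  rw [List.getLast?_append (l := X ++ A), List.getLast?_append (l := Y ++ M),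
    List.getLast?_append_of_ne_nil X h1, List.getLast?_append_of_ne_nil Y h2, h]

theorem chain_left {M A : List Pt} (h : A.head? = M.head?) (h1 : M ≠ []) (hA : A.IsChain adj)
    {P X : List Pt} (hc : (P ++ (M ++ X)).IsChain adj) : (P ++ A).IsChain adj := by
  rw [List.isChain_append] at hc ⊢
  refine ⟨hc.1, hA, fun x hx y hy => hc.2.2 x hx y ?_⟩
  rw [List.head?_append_of_ne_nil _ h1, ← h]
  exact hy

theorem chain_right {M A : List Pt} (h : A.getLast? = M.getLast?) (hA : A.IsChain adj)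
    {P X : List Pt} (hc : (P ++ (M ++ X)).IsChain adj) : (A ++ X).IsChain adj := by
  rw [List.isChain_append] at hc
  have h2 := hc.2.1
  rw [List.isChain_append] at h2 ⊢
  refine ⟨hA, h2.2.1, fun x hx y hy => h2.2.2 x ?_ y hy⟩
  rw [← h]
  exact hx

theorem ps_adj (δ : Fin 3) {p q : Pt} (h : adj p q) : adj (ps δ p) (ps δ q) := by
  unfold adj ps at *
  simp only
  rw [show (5 : ℤ) - q.1 - (5 - p.1) = -(q.1 - p.1) by ring, abs_neg,
    show (δ.1 : ℤ) - q.2 - (δ.1 - p.2) = -(q.2 - p.2) by ring, abs_neg]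
  exact h

theorem ps_inj (δ : Fin 3) : Function.Injective (ps δ) := by
  rintro ⟨a, b⟩ ⟨c, d⟩ h
  unfold ps at h
  simp only [Prod.mk.injEq] at h
  obtain ⟨h1, h2⟩ := h
  exact Prod.ext (by simp only; omega) (by simp only; omega)

theorem ps_ps (δ : Fin 3) (v : Pt) : ps δ (ps δ v) = v := by
  unfold ps
  refine Prod.ext ?_ ?_ <;> simp

theorem map_chain (δ : Fin 3) {l : List Pt} (h : l.IsChain adj) :
    (l.map (ps δ)).IsChain adj := by
  rw [List.isChain_map]
  exact h.imp (fun a b h => ps_adj δ h)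

theorem NN_chain {c c' : Fin 6} {δ : Fin 3} {L1 L2 P1 P2 : List Pt}
    (hB : (L1 ++ (Mc c ++ L2)).IsChain adj)
    (hP : (P1 ++ ((Mc c').map (ps δ) ++ P2)).IsChain adj)
    (hcl : ∀ x ∈ (P1 ++ ((Mc c').map (ps δ) ++ P2)).getLast?,
      ∀ y ∈ (P1 ++ ((Mc c').map (ps δ) ++ P2)).head?, adj x y) :
    (NN c c' δ L1 L2 P1 P2).IsChain adj := by
  obtain ⟨a1, a2, a3, a4, a5, a6, a7⟩ := k8 c
  obtain ⟨b1, b2, b3, b4, b5, b6, b7⟩ := k8 c'
  have a5 := chB_iff _ a5
  have a6 := chB_iff _ a6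
  have b5 := map_chain δ (chB_iff _ b5)
  have b6 := map_chain δ (chB_iff _ b6)
  have m1 : ((Ac c').map (ps δ)).head? = ((Mc c').map (ps δ)).head? := by
    rw [List.head?_map, List.head?_map, b1]
  have m2 : ((Bc c').map (ps δ)).getLast? = ((Mc c').map (ps δ)).getLast? := by
    rw [List.getLast?_map, List.getLast?_map, b2]
  have m3 : (Ac c').map (ps δ) ≠ [] := by simpa using b3
  have m4 : (Bc c').map (ps δ) ≠ [] := by simpa using b4
  have m7 : (Mc c').map (ps δ) ≠ [] := by simpa using b7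
  have z1 := (chain_left a1 a7 a5 hB).append_overlap (chB_iff _ (k1B c c' δ)) a3
  have x3 := chain_right m2 b6 hP
  have z2 : ((L1 ++ Ac c ++ lL c c' δ) ++ (Bc c').map (ps δ) ++ P2).IsChain adj := by
    refine List.IsChain.append_overlap ?_ x3 m4
    rw [List.append_assoc, ← List.append_assoc] at z1 ⊢
    simpa [List.append_assoc] using z1
  have z3 := (chain_left m1 m7 b5 hP).append_overlap (chB_iff _ (k2B c c' δ)) m3
  have z4 : ((P1 ++ (Ac c').map (ps δ) ++ lU c c' δ) ++ Bc c ++ L2).IsChain adj := by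
    refine List.IsChain.append_overlap ?_ (chain_right a2 a6 hB) a4
    simpa [List.append_assoc] using z3
  have e : NN c c' δ L1 L2 P1 P2 = ((L1 ++ Ac c ++ lL c c' δ) ++ (Bc c').map (ps δ) ++ P2) ++
      ((P1 ++ (Ac c').map (ps δ) ++ lU c c' δ) ++ Bc c ++ L2) := by
    unfold NN
    simp only [List.append_assoc]
  rw [e, List.isChain_append]
  refine ⟨z2, z4, fun x hx y hy => hcl x ?_ y ?_⟩
  · have h := last_repl m2 m4 m7 P2 (L1 ++ Ac c ++ lL c c' δ) P1
    rw [h] at hx
    rw [← List.append_assoc]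
    exact hx
  · have h := head_repl m1 m3 m7 P1 (lU c c' δ ++ (Bc c ++ L2)) P2
    rw [← h]
    simpa [List.append_assoc] using hy

theorem NN_perm (c c' : Fin 6) (δ : Fin 3) (L1 L2 P1 P2 : List Pt) :
    (NN c c' δ L1 L2 P1 P2).Perm ((L1 ++ ((Ac c ++ Bc c) ++ L2)) ++ ((lL c c' δ ++ lU c c' δ) ++
      (P1 ++ (((Ac c' ++ Bc c').map (ps δ)) ++ P2)))) := by
  unfold NN
  rw [← Multiset.coe_eq_coe]
  simp only [← Multiset.coe_add, List.map_append]
  abel

/-- replacement of the middle part keeps the absence of repetitions -/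
theorem nodup_repl {L1 M L2 A : List Pt} (h : (L1 ++ (M ++ L2)).Nodup) (hA : A.Nodup)
    (hm : ∀ v ∈ A, v ∈ M ∨ v ∉ L1 ++ (M ++ L2)) : (L1 ++ (A ++ L2)).Nodup := by
  rw [List.nodup_append'] at h ⊢
  obtain ⟨h1, h2, h3⟩ := h
  rw [List.nodup_append'] at h2 ⊢
  obtain ⟨h4, h5, h6⟩ := h2
  refine ⟨h1, ⟨hA, h5, ?_⟩, ?_⟩
  · intro v hv hv2
    rcases hm v hv with h | h
    · exact h6 h hv2
    · apply h
      simp [hv2]
  · intro v hv hv2
    rw [List.mem_append] at hv2
    rcases hv2 with h | h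
    · rcases hm v h with h | h
      · exact h3 hv (by simp [h])
      · apply h
        simp [hv]
    · exact h3 hv (by simp [h])

theorem NN_nodup {c c' : Fin 6} {δ : Fin 3} {L1 L2 P1 P2 : List Pt}
    (hB : (L1 ++ (Mc c ++ L2)).Nodup)
    (hP : (P1 ++ ((Mc c').map (ps δ) ++ P2)).Nodup)
    (fB : ∀ v ∈ Fr c, v ∉ L1 ++ (Mc c ++ L2))
    (fP : ∀ v ∈ (Fr c').map (ps δ), v ∉ P1 ++ ((Mc c').map (ps δ) ++ P2))
    (q0 : ((0, 0) : Pt) ∈ L1 ++ (Mc c ++ L2))
    (p0 : ((5, (δ.1 : ℤ)) : Pt) ∈ P1 ++ ((Mc c').map (ps δ) ++ P2))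
    (far : ∀ b ∈ L1 ++ (Mc c ++ L2), ∀ w ∈ P1 ++ ((Mc c').map (ps δ) ++ P2),
      5 ≤ |b.1 - w.1| ∨ 3 ≤ |b.2 - w.2|) :
    (NN c c' δ L1 L2 P1 P2).Nodup := by
  rw [(NN_perm c c' δ L1 L2 P1 P2).nodup_iff]
  set SB := L1 ++ (Mc c ++ L2) with hSB
  set SP := P1 ++ ((Mc c').map (ps δ) ++ P2) with hSP
  -- membership
  have memB : ∀ v ∈ L1 ++ ((Ac c ++ Bc c) ++ L2), v ∈ SB ∨ v ∈ Fr c := by
    intro v hv
    rw [List.mem_append, List.mem_append] at hv
    rcases hv with h | h | h
    · left; rw [hSB]; simp [h]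
    · rcases (k6 c v h).1 with h | h
      · left; rw [hSB]; simp [h]
      · exact Or.inr h
    · left; rw [hSB]; simp [h]
  have memP : ∀ v ∈ P1 ++ (((Ac c' ++ Bc c').map (ps δ)) ++ P2),
      v ∈ SP ∨ v ∈ (Fr c').map (ps δ) := by
    intro v hv
    rw [List.mem_append, List.mem_append] at hv
    rcases hv with h | h | h
    · left; rw [hSP]; simp [h]
    · rw [List.mem_map] at h
      obtain ⟨u, hu, rfl⟩ := h
      rcases (k6 c' u hu).1 with h | h
      · left; rw [hSP]
        rw [List.mem_append, List.mem_append]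
        exact Or.inr (Or.inl (List.mem_map_of_mem h))
      · exact Or.inr (List.mem_map_of_mem h)
    · left; rw [hSP]; simp [h]
  -- the points near (0,0) are not on the polygon
  have nP : ∀ v : Pt, |v.1| ≤ 4 → |v.2| ≤ 2 → v ∉ SP := by
    intro v h1 h2 hv
    have h := far _ q0 v hv
    simp only [zero_sub, abs_neg] at h
    omega
  have nB : ∀ v : Pt, |v.1 - 5| ≤ 4 → |v.2 - (δ.1 : ℤ)| ≤ 2 → v ∉ SB := by
    intro v h1 h2 hv
    have h := far v hv _ p0
    simp only at h
    omega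
  have hd : δ.1 ≤ 2 := by omega
  have frs : ∀ c : Fin 6, ∀ v ∈ Fr c, v.1 ≤ 0 ∧ -1 ≤ v.1 ∧ 1 ≤ v.2 ∧ v.2 ≤ 2 := by decide
  rw [List.nodup_append']
  refine ⟨?_, ?_, ?_⟩
  · refine nodup_repl hB (k7 c) (fun v hv => ?_)
    rcases (k6 c v hv).1 with h | h
    · exact Or.inl h
    · exact Or.inr (fB v h)
  · rw [List.nodup_append']
    refine ⟨k3 c c' δ, ?_, ?_⟩
    · refine nodup_repl hP ((k7 c').map (ps_inj δ)) (fun v hv => ?_)
      rw [List.mem_map] at hv
      obtain ⟨u, hu, rfl⟩ := hv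
      rcases (k6 c' u hu).1 with h | h
      · exact Or.inl (List.mem_map_of_mem h)
      · exact Or.inr (fP _ (List.mem_map_of_mem h))
    · intro v hv hv2
      obtain ⟨l1, l2, l3, l4, l5, l6, l7, l8⟩ := k5 c c' δ v hv
      rcases memP v hv2 with h | h
      · rcases l4 with h4 | h4
        · exact nP v (by rw [abs_le]; omega) (by rw [abs_le]; omega) h
        · exact fP v h4 h
      · -- new site of the polygon
        have hn := (k4 c c' δ v hv).2
        rw [List.mem_append, List.mem_append] at hv2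
        rcases hv2 with h' | h' | h'
        · exact fP v h (by rw [hSP]; simp [h'])
        · exact hn h'
        · exact fP v h (by rw [hSP]; simp [h'])
  · intro v hv hv2
    rw [List.mem_append] at hv2
    rcases hv2 with h2 | h2
    · obtain ⟨l1, l2, l3, l4, l5, l6, l7, l8⟩ := k5 c c' δ v h2
      rcases memB v hv with h | h
      · rcases l3 with h3 | h3
        · exact nB v (by rw [abs_le]; omega) (by rw [abs_le]; omega) h
        · exact fB v h3 h
      · have hn := (k4 c c' δ v h2).1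
        rw [List.mem_append, List.mem_append] at hv
        rcases hv with h' | h' | h'
        · exact fB v h (by rw [hSB]; simp [h'])
        · exact hn h'
        · exact fB v h (by rw [hSB]; simp [h'])
    · rcases memB v hv with h | h
      · rcases memP v h2 with h' | h'
        · have := far v h v h'
          simp at this
        · rw [List.mem_map] at h'
          obtain ⟨u, hu, rfl⟩ := h'
          obtain ⟨g1, g2, g3, g4⟩ := frs c' u hu
          refine nB (ps δ u) ?_ ?_ h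
          · unfold ps
            simp only
            rw [abs_le]; omega
          · unfold ps
            simp only
            rw [abs_le]; omega
      · obtain ⟨g1, g2, g3, g4⟩ := frs c v h
        rcases memP v h2 with h' | h'
        · exact nP v (by rw [abs_le]; omega) (by rw [abs_le]; omega) h'
        · rw [List.mem_map] at h'
          obtain ⟨u, hu, rfl⟩ := h'
          obtain ⟨g1', g2', g3', g4'⟩ := frs c' u hu
          unfold ps at g1
          simp only at g1
          omega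

end Pool.Agent.U126.QP
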