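import Pool.Agent.U126.QP.Slide

/-! # The insertion as a map which can be decoded -/

set_option autoImplicit false

namespace Pool.Agent.U126.QP

open scoped Classical
open Pool.Agent.W840.CT

/-- the polygon cut at the first or at the second place -/
def zt (k : ℕ) (Q : List Pt) (z : Bool) : List Pt := if z then Q else Q.rotate k

theorem zt_length (k : ℕ) (Q : List Pt) (z : Bool) : (zt k Q z).length = Q.length := by
  cases z <;> simp [zt]

theorem zt_inj (k : ℕ) (z : Bool) {Q Q' : List Pt} (h : zt k Q z = zt k Q' z) : Q = Q' := by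
  cases z
  · simp only [zt] at h
    exact List.rotate_injective k h
  · simpa [zt] using h

abbrev KK := (Bool × Bool × Bool × Bool) × (Fin 6 × Fin 6 × Fin 3)

/-- the walk `B'` arises from `B` by the insertion of `Q` -/
def Rel (k : ℕ) (B : List Pt) (v : Pt) (Q B' : List Pt) (y off : Pt) (o j s : ℕ) (κ : KK) :
    Prop :=
  ∃ (L1 L2 P1 P2 : List Pt) (q : Pt),
    rv κ.1.2.2.1 (B.map (TT κ.1.2.1 q)) = L1 ++ (Mc κ.2.1 ++ L2) ∧
    rv κ.1.2.2.2 ((zt k Q κ.1.1).map (fun x => TT κ.1.2.1 q (x + (v.1 + s, v.2)))) =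
      P1 ++ ((Mc κ.2.2.1).map (ps κ.2.2.2) ++ P2) ∧
    rv κ.1.2.2.1 B' = (NN κ.2.1 κ.2.2.1 κ.2.2.2 L1 L2 P1 P2).map (TI κ.1.2.1 q) ∧
    P1.length = j ∧ (rv κ.1.2.2.1 B').idxOf y = L1.length + o ∧ off = v - q

theorem Rel.unique {k : ℕ} {B1 B2 : List Pt} {v1 v2 : Pt} {Q1 Q2 B' : List Pt} {y off : Pt}
    {o j s : ℕ} {κ : KK} (hQ : Q1.length = Q2.length) (h1 : Rel k B1 v1 Q1 B' y off o j s κ)
    (h2 : Rel k B2 v2 Q2 B' y off o j s κ) : B1 = B2 ∧ v1 = v2 ∧ Q1 = Q2 := by
  obtain ⟨⟨z, e, b, b'⟩, c, c', δ⟩ := κ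
  obtain ⟨L1, L2, P1, P2, q, a1, a2, a3, a4, a5, a6⟩ := h1
  obtain ⟨L1', L2', P1', P2', q', b1, b2, b3, b4, b5, b6⟩ := h2
  simp only at a1 a2 a3 a5 b1 b2 b3 b5
  have hl : L1.length = L1'.length := by omega
  -- the origin
  have hq : q = q' := by
    obtain ⟨m, M, hM⟩ := List.exists_cons_of_ne_nil (k8 c).2.2.1
    have e1 := a3.symm.trans b3
    have e2 := congrArg (fun l => l[L1.length]?) e1
    simp only [List.getElem?_map] at e2
    have g1 : (NN c c' δ L1 L2 P1 P2)[L1.length]? = some m := by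
      unfold NN
      rw [List.getElem?_append_right le_rfl, Nat.sub_self, hM]
      simp
    have g2 : (NN c c' δ L1' L2' P1' P2')[L1.length]? = some m := by
      unfold NN
      rw [hl, List.getElem?_append_right le_rfl, Nat.sub_self, hM]
      simp
    rw [g1, g2] at e2
    simp only [Option.map_some, Option.some.injEq] at e2
    unfold TI at e2
    simp only [Prod.mk.injEq] at e2
    exact Prod.ext (by omega) (by omega)
  subst hq
  have hN : NN c c' δ L1 L2 P1 P2 = NN c c' δ L1' L2' P1' P2' :=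
    (List.map_injective_iff.2 (TI_inj e q)) (a3.symm.trans b3)
  unfold NN at hN
  have l2 : P2.length = P2'.length := by
    have e1 := congrArg List.length a2
    have e2 := congrArg List.length b2
    rw [rv_length, List.length_map, zt_length] at e1 e2
    simp only [List.length_append, List.length_map] at e1 e2
    omega
  obtain ⟨r1, hN⟩ := List.append_inj hN hl
  have hN := List.append_cancel_left hN
  have hN := List.append_cancel_left hN
  have hN := List.append_cancel_left hN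
  obtain ⟨r2, hN⟩ := List.append_inj hN l2
  obtain ⟨r3, hN⟩ := List.append_inj hN (a4.trans b4.symm)
  have hN := List.append_cancel_left hN
  have hN := List.append_cancel_left hN
  have r4 := List.append_cancel_left hN
  subst r1 r2 r3 r4
  have hB : B1 = B2 := by
    have e1 := a1.trans b1.symm
    have e2 := congrArg (rv b) e1
    rw [rv_rv, rv_rv] at e2
    exact (List.map_injective_iff.2 (TT_inj e q)) e2
  have hv : v1 = v2 := by
    have := a6.symm.trans b6
    simpa using this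
  subst hv
  refine ⟨hB, rfl, ?_⟩
  have e1 := a2.trans b2.symm
  have e2 := congrArg (rv b') e1
  rw [rv_rv, rv_rv] at e2
  have hf : Function.Injective (fun x => TT e q (x + (v1.1 + (s : ℤ), v1.2))) := fun x y h =>
    add_left_injective _ (TT_inj e q h)
  exact zt_inj k z ((List.map_injective_iff.2 hf) e2)

theorem rv_head {b : Bool} {X Y : List Pt} (h1 : X.head? = Y.head?)
    (h2 : X.getLast? = Y.getLast?) : (rv b X).head? = (rv b Y).head? := by
  cases b
  · simpa [rv] using h1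
  · simp only [rv, if_true, List.head?_reverse]
    exact h2

theorem NN_head (c c' : Fin 6) (δ : Fin 3) (L1 L2 P1 P2 : List Pt) :
    (NN c c' δ L1 L2 P1 P2).head? = (L1 ++ (Mc c ++ L2)).head? := by
  obtain ⟨a1, a2, a3, a4, a5, a6, a7⟩ := k8 c
  unfold NN
  exact head_repl a1 a3 a7 _ _ _

theorem NN_last (c c' : Fin 6) (δ : Fin 3) (L1 L2 P1 P2 : List Pt) :
    (NN c c' δ L1 L2 P1 P2).getLast? = (L1 ++ (Mc c ++ L2)).getLast? := by
  obtain ⟨a1, a2, a3, a4, a5, a6, a7⟩ := k8 c
  have h := last_repl a2 a4 a7 L2 (L1 ++ (Ac c ++ (lL c c' δ ++ ((Bc c').map (ps δ) ++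
    (P2 ++ (P1 ++ ((Ac c').map (ps δ) ++ lU c c' δ))))))) L1
  unfold NN
  rw [← List.append_assoc L1 (Mc c) L2, ← h]
  congr 1
  simp only [List.append_assoc]

theorem NN_length (c c' : Fin 6) (δ : Fin 3) (L1 L2 P1 P2 : List Pt) :
    (L1 ++ (Mc c ++ L2)).length + (P1 ++ ((Mc c').map (ps δ) ++ P2)).length ≤
      (NN c c' δ L1 L2 P1 P2).length ∧
    (NN c c' δ L1 L2 P1 P2).length ≤
      (L1 ++ (Mc c ++ L2)).length + (P1 ++ ((Mc c').map (ps δ) ++ P2)).length + 32 := by
  obtain ⟨a1, a2, a3, a4, a5, a6, a7⟩ := k9 c c' δ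
  obtain ⟨b1, b2, b3, b4, b5, b6, b7⟩ := k9 c' c δ
  have hx : ∀ c : Fin 6, (Ac c).length + (Bc c).length ≤ (Mc c).length + 4 := by decide
  have := hx c
  have := hx c'
  unfold NN
  simp only [List.length_append, List.length_map]
  omega

/-- the site which is lost -/
def mid : Fin 6 → Pt
  | 3 => (-1, 0)
  | 5 => (-1, 2)
  | _ => (7, 7)

theorem k11 : ∀ c : Fin 6, ∀ m ∈ Mc c, m ∈ Ac c ++ Bc c ∨ m = mid c := by decide

theorem k12 : ∀ c : Fin 6, ∀ m ∈ Mc c, ∃ m' ∈ Ac c ++ Bc c,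
    (m'.1 - m.1).natAbs + (m'.2 - m.2).natAbs ≤ 1 := by decide

end Pool.Agent.U126.QP
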