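import Pool.Agent.W840.CT.Loc

/-! # Local pictures for the insertion of a polygon into a walk -/

set_option autoImplicit false

namespace Pool.Agent.U126.QP

open Pool.Agent.W840.CT

/-- a list or its reverse -/
def rv (b : Bool) (l : List Pt) : List Pt := if b then l.reverse else l

theorem mem_rv {b : Bool} {l : List Pt} {v : Pt} : v ∈ rv b l ↔ v ∈ l := by
  cases b <;> simp [rv]

theorem rv_rv (b : Bool) (l : List Pt) : rv b (rv b l) = l := by
  cases b <;> simp [rv]

theorem rv_nodup {b : Bool} {l : List Pt} : (rv b l).Nodup ↔ l.Nodup := by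
  cases b <;> simp [rv, List.nodup_reverse]

theorem rv_length (b : Bool) (l : List Pt) : (rv b l).length = l.length := by
  cases b <;> simp [rv]

theorem rv_chain {b : Bool} {l : List Pt} : (rv b l).IsChain adj ↔ l.IsChain adj := by
  cases b
  · simp [rv]
  · simp only [rv, if_true]
    rw [List.isChain_reverse]
    constructor
    · intro h
      exact h.imp (fun a b h => adj_comm h)
    · intro h
      exact h.imp (fun a b h => adj_comm h)

/-- the old local lists, normalised -/
def Mc : Fin 6 → List Pt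
  | 0 => [(0, 0), (0, 1)]
  | 1 => [(0, 1), (0, 2)]
  | 2 => [(0, 0), (-1, 0)]
  | 3 => [(0, 0), (-1, 0), (-1, 1)]
  | 4 => [(-1, 1), (-1, 2)]
  | 5 => [(-1, 1), (-1, 2), (0, 2)]

/-- the first part of the new local list, which ends at the lower end of a vertical edge -/
def Ac : Fin 6 → List Pt
  | 0 => [(0, 0)]
  | 1 => [(0, 1)]
  | 2 => [(0, 0)]
  | 3 => [(0, 0)]
  | 4 => [(-1, 1)]
  | 5 => [(-1, 1), (0, 1)]

/-- the second part of the new local list, which begins at the upper end of the edge -/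
def Bc : Fin 6 → List Pt
  | 0 => [(0, 1)]
  | 1 => [(0, 2)]
  | 2 => [(0, 1), (-1, 1), (-1, 0)]
  | 3 => [(0, 1), (-1, 1)]
  | 4 => [(-1, 2)]
  | 5 => [(0, 2)]

/-- sites which are outside the walk -/
def Fr : Fin 6 → List Pt
  | 0 => []
  | 1 => []
  | 2 => [(0, 1), (-1, 1)]
  | 3 => [(0, 1)]
  | 4 => [(0, 1), (0, 2)]
  | 5 => [(0, 1)]

/-- column of the edge -/
def xc : Fin 6 → ℤ
  | 0 => 0
  | 1 => 0
  | 2 => 0
  | 3 => 0
  | 4 => -1
  | 5 => 0

/-- lower row of the edge -/
def yc : Fin 6 → ℤ
  | 0 => 0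
  | 1 => 1
  | 2 => 0
  | 3 => 0
  | 4 => 1
  | 5 => 1

theorem split2 {S : List Pt} {x y : Pt} (h : Nb S x y) :
    ∃ b L1 L2, rv b S = L1 ++ ([x, y] ++ L2) := by
  rcases h with ⟨i, hi, h1, h2⟩ | ⟨i, hi, h1, h2⟩
  · refine ⟨false, S.take i, S.drop (i + 2), ?_⟩
    simp only [rv]
    rw [if_neg (by simp)]
    conv_lhs => rw [← List.take_append_drop i S]
    congr 1
    rw [List.drop_eq_getElem_cons (by omega), List.drop_eq_getElem_cons (by omega), h1, h2]
    rfl
  · refine ⟨true, (S.drop (i + 2)).reverse, (S.take i).reverse, ?_⟩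
    simp only [rv, if_true]
    conv_lhs => rw [← List.take_append_drop i S]
    rw [List.drop_eq_getElem_cons (by omega), List.drop_eq_getElem_cons (by omega), h1, h2]
    simp

theorem split3 {S : List Pt} (hn : S.Nodup) {x y z : Pt} (h : Nb S x y) (h' : Nb S y z)
    (hxz : x ≠ z) : ∃ b L1 L2, rv b S = L1 ++ ([x, y, z] ++ L2) := by
  rcases h with h | h <;> rcases h' with h' | h'
  · obtain ⟨i, hi, h1, h2⟩ := h
    obtain ⟨j, hj, h3, h4⟩ := h'
    have e : j = i + 1 := (hn.getElem_inj_iff).1 (h3.trans h2.symm)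
    subst e
    refine ⟨false, S.take i, S.drop (i + 3), ?_⟩
    simp only [rv]
    rw [if_neg (by simp)]
    conv_lhs => rw [← List.take_append_drop i S]
    congr 1
    rw [List.drop_eq_getElem_cons (by omega), List.drop_eq_getElem_cons (by omega),
      List.drop_eq_getElem_cons (by omega), h1, h2, h4]
    rfl
  · exact absurd (h.left_unique hn h') hxz
  · exact absurd (h.right_unique hn h') hxz
  · obtain ⟨i, hi, h1, h2⟩ := h'
    obtain ⟨j, hj, h3, h4⟩ := h
    have e : j = i + 1 := (hn.getElem_inj_iff).1 (h3.trans h2.symm)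
    subst e
    refine ⟨true, (S.drop (i + 3)).reverse, (S.take i).reverse, ?_⟩
    simp only [rv, if_true]
    conv_lhs => rw [← List.take_append_drop i S]
    rw [List.drop_eq_getElem_cons (by omega), List.drop_eq_getElem_cons (by omega),
      List.drop_eq_getElem_cons (by omega), h1, h2, h4]
    simp

theorem two_nb {S : List Pt} (hc : S.IsChain adj) (hn : S.Nodup) {v : Pt}
    (hi : ∃ z w, Con S z v ∧ Con S v w) (hr : v + (1, 0) ∉ S) :
    Nb S v (v + (0, 1)) ∨ (Nb S v (v + (-1, 0)) ∧ Nb S v (v + (0, -1))) := by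
  obtain ⟨z, w, hz, hw⟩ := hi
  have hzw : z ≠ w := hz.ne hn hw
  have az := adj_cases (adj_comm (hz.adj hc))
  have aw := adj_cases (hw.adj hc)
  have nz : z ≠ v + (1, 0) := by
    rintro rfl
    exact hr hz.mem_left
  have nw : w ≠ v + (1, 0) := by
    rintro rfl
    exact hr hw.mem_right
  rcases az with h | h | h | h
  · exact absurd h nz
  · rcases aw with h' | h' | h' | h'
    · exact absurd h' nw
    · exact absurd (h.trans h'.symm) hzw
    · left; left; rw [← h']; exact hw
    · right
      exact ⟨Or.inr (by rw [← h]; exact hz), Or.inl (by rw [← h']; exact hw)⟩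
  · left; right; rw [← h]; exact hz
  · rcases aw with h' | h' | h' | h'
    · exact absurd h' nw
    · right
      exact ⟨Or.inl (by rw [← h']; exact hw), Or.inr (by rw [← h]; exact hz)⟩
    · left; left; rw [← h']; exact hw
    · exact absurd (h.trans h'.symm) hzw

/-- **The local picture.** -/
theorem pic {S : List Pt} (hc : S.IsChain adj) (hn : S.Nodup) (h0 : ((0, 0) : Pt) ∈ S)
    (f0 : ((1, 0) : Pt) ∉ S) (f1 : ((1, 1) : Pt) ∉ S) (f2 : ((1, 2) : Pt) ∉ S)
    (hi : ∀ v ∈ S, |v.1| ≤ 2 → |v.2| ≤ 2 → ∃ z w, Con S z v ∧ Con S v w) :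
    ∃ c b L1 L2, rv b S = L1 ++ (Mc c ++ L2) ∧ ∀ v ∈ Fr c, v ∉ S := by
  by_cases h1 : Nb S (0, 0) (0, 1)
  · obtain ⟨b, L1, L2, h⟩ := split2 h1
    exact ⟨0, b, L1, L2, h, by simp [Fr]⟩
  have t0 := two_nb hc hn (hi _ h0 (by norm_num) (by norm_num)) (by simpa using f0)
  simp only [Prod.mk_add_mk, zero_add, add_zero] at t0
  rcases t0 with h | ⟨hl, hd⟩
  · exact absurd h h1
  by_cases h2 : ((0, 1) : Pt) ∈ S
  · have t1 := two_nb hc hn (hi _ h2 (by norm_num) (by norm_num)) (by simpa using f1)
    norm_num at t1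
    rcases t1 with h | ⟨-, h⟩
    · obtain ⟨b, L1, L2, h⟩ := split2 h
      exact ⟨1, b, L1, L2, h, by simp [Fr]⟩
    · exact absurd h.symm h1
  by_cases h3 : ((-1, 1) : Pt) ∈ S
  · by_cases h4 : Nb S (-1, 0) (-1, 1)
    · obtain ⟨b, L1, L2, h⟩ := split3 hn hl h4 (by simp)
      exact ⟨3, b, L1, L2, h, by simpa [Fr] using h2⟩
    · have t1 := two_nb hc hn (hi _ h3 (by norm_num) (by norm_num)) (by simpa using h2)
      norm_num at t1
      rcases t1 with h | ⟨-, h⟩
      · by_cases h5 : ((0, 2) : Pt) ∈ S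
        · have hnb : Nb S (-1, 2) (0, 2) := by
            obtain ⟨z, w, hz, hw⟩ := hi _ h5 (by norm_num) (by norm_num)
            have hzw : z ≠ w := hz.ne hn hw
            have az := adj_cases (adj_comm (hz.adj hc))
            have aw := adj_cases (hw.adj hc)
            norm_num at az aw
            have nz : ∀ u, u = z ∨ u = w → u ≠ (1, 2) ∧ u ≠ (0, 1) := by
              rintro u (rfl | rfl)
              · exact ⟨fun h => f2 (h ▸ hz.mem_left), fun h => h2 (h ▸ hz.mem_left)⟩
              · exact ⟨fun h => f2 (h ▸ hw.mem_right), fun h => h2 (h ▸ hw.mem_right)⟩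
            have nz1 := nz z (Or.inl rfl)
            have nw1 := nz w (Or.inr rfl)
            rcases az with h | h | h | h
            · exact absurd h nz1.1
            · left; rw [← h]; exact hz
            · rcases aw with h' | h' | h' | h'
              · exact absurd h' nw1.1
              · right; rw [← h']; exact hw
              · exact absurd (h.trans h'.symm) hzw
              · exact absurd h' nw1.2
            · exact absurd h nz1.2
          obtain ⟨b, L1, L2, h⟩ := split3 hn h hnb (by simp)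
          exact ⟨5, b, L1, L2, h, by simpa [Fr] using h2⟩
        · obtain ⟨b, L1, L2, h⟩ := split2 h
          refine ⟨4, b, L1, L2, h, ?_⟩
          simp only [Fr, List.mem_cons, List.not_mem_nil, or_false, forall_eq_or_imp, forall_eq]
          exact ⟨h2, h5⟩
      · exact absurd h.symm h4
  · obtain ⟨b, L1, L2, h⟩ := split2 hl
    refine ⟨2, b, L1, L2, h, ?_⟩
    simp only [Fr, List.mem_cons, List.not_mem_nil, or_false, forall_eq_or_imp, forall_eq]
    exact ⟨h2, h3⟩

end Pool.Agent.U126.QP
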