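import Pool.Agent.U126.QP.Ins

/-! # Sliding a polygon towards the walk -/

set_option autoImplicit false

namespace Pool.Agent.U126.QP

open Pool.Agent.W840.CT

/-- squared distance -/
def d2 (p q : Pt) : ℤ := (p.1 - q.1) ^ 2 + (p.2 - q.2) ^ 2

/-- both end points of the list are not near `w` -/
def Away (Q : List Pt) (w : Pt) : Prop :=
  (∀ x ∈ Q.head?, 2 < |x.1 - w.1| ∨ 2 < |x.2 - w.2|) ∧
  (∀ x ∈ Q.getLast?, 2 < |x.1 - w.1| ∨ 2 < |x.2 - w.2|)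

/-- a closed polygon, as a list of sites -/
structure Cyc (Q : List Pt) : Prop where
  ch : Q.IsChain adj
  nd : Q.Nodup
  cl : ∀ x ∈ Q.getLast?, ∀ y ∈ Q.head?, adj x y

/-- the polygons which are inserted: `Q` and the same polygon cut at a second place -/
structure Ring (L : ℤ) (ζ : Bool → List Pt) (E : Pt) : Prop where
  cyc : ∀ z, Cyc (ζ z)
  mem : ∀ z x, x ∈ ζ z ↔ x ∈ ζ true
  zero : (0, 0) ∈ ζ true
  box : ∀ x ∈ ζ true, -L ≤ x.1 ∧ x.1 ≤ 2 * L ∧ |x.2| ≤ 2 * L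
  e0 : E ∈ ζ true
  e1 : 3 * L ≤ 4 * E.1
  e2 : E.1 ≤ 2 * L
  e3 : 4 * |E.2| ≤ E.1
  away : ∀ w, ∃ z, Away (ζ z) w

theorem slide {B : List Pt} {L : ℤ} (hL : 50 ≤ L) {ζ : Bool → List Pt} {E : Pt}
    (R : Ring L ζ E) {v a : Pt} (hv : v ∈ B) (hcl : ∀ b ∈ B, d2 v a ≤ d2 b a)
    (h1 : |a.2 - v.2| ≤ a.1 - v.1) (h2 : 13 * L ≤ a.1 - v.1) :
    ∃ s : ℕ, (s : ℤ) ≤ 6 * L ∧ (∀ b ∈ B, ∀ x ∈ ζ true,
        5 ≤ |b.1 - (x + (v.1 + s, v.2)).1| ∨ 3 ≤ |b.2 - (x + (v.1 + s, v.2)).2|) ∧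
      ∃ q ∈ B, ∃ w ∈ ζ true, (w + (v.1 + s, v.2)).1 - q.1 = 5 ∧
        |(w + (v.1 + s, v.2)).2 - q.2| ≤ 2 := by
  classical
  set P : ℕ → Prop := fun s => ∀ b ∈ B, ∀ x ∈ ζ true,
        5 ≤ |b.1 - (x + (v.1 + (s : ℤ), v.2)).1| ∨ 3 ≤ |b.2 - (x + (v.1 + (s : ℤ), v.2)).2| with hP
  have hend : P (6 * L).toNat := by
    intro b hb x hx
    by_contra hcon
    push Not at hcon
    obtain ⟨c1, c2⟩ := hcon
    obtain ⟨x1, x2, x3⟩ := R.box x hx
    simp only [Prod.fst_add, Prod.snd_add] at c1 c2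
    rw [Int.toNat_of_nonneg (by omega)] at c1
    have hc := hcl b hb
    unfold d2 at hc
    set dx := a.1 - v.1 with hdx
    set dy := a.2 - v.2 with hdy
    obtain ⟨X, hX⟩ : ∃ X, X = b.1 - v.1 := ⟨_, rfl⟩
    obtain ⟨Y, hY⟩ : ∃ Y, Y = b.2 - v.2 := ⟨_, rfl⟩
    have k1 : 5 * L - 4 ≤ X ∧ X ≤ 8 * L + 4 := by
      rw [abs_lt] at c1
      omega
    have k2 : |Y| ≤ 2 * L + 2 := by
      rw [abs_lt] at c2
      rw [abs_le] at x3 ⊢
      omega
    have hc' : dx ^ 2 + dy ^ 2 ≤ (X - dx) ^ 2 + (Y - dy) ^ 2 := by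
      have e1 : v.1 - a.1 = -dx := by rw [hdx]; ring
      have e2 : v.2 - a.2 = -dy := by rw [hdy]; ring
      have e3 : b.1 - a.1 = X - dx := by rw [hX, hdx]; ring
      have e4 : b.2 - a.2 = Y - dy := by rw [hY, hdy]; ring
      rw [e1, e2, e3, e4] at hc
      linarith
    have k3 : -(|Y| * dx) ≤ Y * dy := by
      have h3 : |Y * dy| ≤ |Y| * dx := by
        rw [abs_mul]
        exact mul_le_mul_of_nonneg_left h1 (abs_nonneg _)
      have := neg_abs_le (Y * dy)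
      linarith
    have k4 : 0 ≤ |Y| := abs_nonneg _
    have k5 : Y ^ 2 = |Y| ^ 2 := (sq_abs Y).symm
    have k6 : 2 * dx * (X - |Y|) ≤ X ^ 2 + |Y| ^ 2 := by
      have k6a : 2 * (X * dx) + 2 * (Y * dy) ≤ X ^ 2 + Y ^ 2 := by linarith
      have k6b : 2 * dx * (X - |Y|) = 2 * (X * dx) - 2 * (|Y| * dx) := by ring
      rw [k6b, ← k5]
      linarith
    have k7 : 3 * L - 6 ≤ X - |Y| := by linarith [k1.1]
    have k8 : 26 * L * (3 * L - 6) ≤ 2 * dx * (X - |Y|) := by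
      have : 0 ≤ 3 * L - 6 := by linarith
      exact mul_le_mul (by linarith) k7 this (by linarith)
    have k9 : X ^ 2 ≤ (8 * L + 4) ^ 2 := pow_le_pow_left₀ (by linarith [k1.1]) k1.2 2
    have k10 : |Y| ^ 2 ≤ (2 * L + 2) ^ 2 := pow_le_pow_left₀ k4 k2 2
    have k11 : 50 * L ≤ L * L := mul_le_mul_of_nonneg_right hL (by linarith)
    have k12 : (8 * L + 4) ^ 2 = 64 * (L * L) + 64 * L + 16 := by ring
    have k13 : (2 * L + 2) ^ 2 = 4 * (L * L) + 8 * L + 4 := by ring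
    have k14 : 26 * L * (3 * L - 6) = 78 * (L * L) - 156 * L := by ring
    linarith
  have hex : ∃ s, P s := ⟨_, hend⟩
  have hs := Nat.find_spec hex
  have hmin : Nat.find hex ≤ (6 * L).toNat := Nat.find_min' hex hend
  set s := Nat.find hex with hsdef
  have hs0 : s ≠ 0 := by
    intro h0
    rw [h0] at hs
    have := hs v hv (0, 0) R.zero
    simp at this
  obtain ⟨t, ht⟩ := Nat.exists_eq_succ_of_ne_zero hs0
  have hnot : ¬ P t := Nat.find_min hex (by omega)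
  rw [hP] at hnot
  push Not at hnot
  obtain ⟨q, hq, w, hw, n1, n2⟩ := hnot
  have hfar := hs q hq w hw
  simp only [Prod.fst_add, Prod.snd_add] at n1 n2 hfar
  refine ⟨s, by omega, hs, q, hq, w, hw, ?_, ?_⟩
  · simp only [Prod.fst_add]
    rcases hfar with h | h
    · have e1 : (s : ℤ) = t + 1 := by rw [ht]; push_cast; ring
      rw [e1] at h ⊢
      rw [abs_lt] at n1
      rcases le_abs.1 h with h' | h' <;> omega
    · omega
  · simp only [Prod.snd_add]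
    rw [abs_sub_comm]
    omega

/-- the end point of the arm is closer to `a` -/
theorem closer {L : ℤ} (hL : 50 ≤ L) {E v a : Pt} {s : ℤ} (s0 : 0 ≤ s) (s1 : s ≤ 6 * L)
    (e1 : 3 * L ≤ 4 * E.1) (e2 : E.1 ≤ 2 * L) (e3 : 4 * |E.2| ≤ E.1)
    (h1 : |a.2 - v.2| ≤ a.1 - v.1) (h2 : 13 * L ≤ a.1 - v.1) :
    d2 (E + (v.1 + s, v.2)) a ≤ d2 v a - 8 * L ^ 2 := by
  unfold d2
  simp only [Prod.fst_add, Prod.snd_add]
  set dx := a.1 - v.1 with hdx
  set dy := a.2 - v.2 with hdy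
  have q1 : v.1 - a.1 = -dx := by rw [hdx]; ring
  have q2 : v.2 - a.2 = -dy := by rw [hdy]; ring
  have q3 : E.1 + (v.1 + s) - a.1 = (E.1 + s) - dx := by rw [hdx]; ring
  have q4 : E.2 + v.2 - a.2 = E.2 - dy := by rw [hdy]; ring
  rw [q1, q2, q3, q4]
  obtain ⟨X, hX⟩ : ∃ X, X = E.1 + s := ⟨_, rfl⟩
  rw [← hX]
  obtain ⟨Y, hY⟩ : ∃ Y, Y = |E.2| := ⟨_, rfl⟩
  have k1 : -(Y * dx) ≤ E.2 * dy := by
    have h3 : |E.2 * dy| ≤ |E.2| * dx := by
      rw [abs_mul]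
      exact mul_le_mul_of_nonneg_left h1 (abs_nonneg _)
    have := neg_abs_le (E.2 * dy)
    rw [hY]
    linarith
  have k2 : E.2 ^ 2 = Y ^ 2 := by rw [hY, sq_abs]
  have k3 : 0 ≤ Y := by rw [hY]; exact abs_nonneg _
  have k4 : 4 * Y ≤ X := by rw [hY, hX]; linarith
  have k5 : 3 * L ≤ 4 * X := by rw [hX]; linarith
  have k6 : X ≤ 8 * L := by rw [hX]; linarith
  have hX0 : 0 ≤ X := by linarith
  have hdx0 : 0 ≤ dx := by linarith
  have k7 : 16 * Y ^ 2 ≤ X ^ 2 := by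
    have := pow_le_pow_left₀ (by linarith : (0 : ℤ) ≤ 4 * Y) k4 2
    have e : (4 * Y) ^ 2 = 16 * Y ^ 2 := by ring
    linarith
  have k8 : 4 * (Y * dx) ≤ X * dx := by
    have := mul_le_mul_of_nonneg_right k4 hdx0
    linarith
  have k9 : 13 * (L * X) ≤ X * dx := by
    have := mul_le_mul_of_nonneg_left h2 hX0
    have e : X * (13 * L) = 13 * (L * X) := by ring
    linarith
  have k10 : X ^ 2 ≤ 8 * (L * X) := by
    have := mul_le_mul_of_nonneg_left k6 hX0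
    have e : X * (8 * L) = 8 * (L * X) := by ring
    have e' : X * X = X ^ 2 := by ring
    linarith
  have k11 : 3 * L ^ 2 ≤ 4 * (L * X) := by
    have := mul_le_mul_of_nonneg_left k5 (by linarith : (0 : ℤ) ≤ L)
    have e : L * (3 * L) = 3 * L ^ 2 := by ring
    have e' : L * (4 * X) = 4 * (L * X) := by ring
    linarith
  have e1 : (X - dx) ^ 2 + (E.2 - dy) ^ 2 = (-dx) ^ 2 + (-dy) ^ 2 - 2 * (X * dx) -
    2 * (E.2 * dy) + X ^ 2 + E.2 ^ 2 := by ring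
  have k12 : 0 ≤ L ^ 2 := sq_nonneg L
  have k13 : 0 ≤ L * X := mul_nonneg (by linarith) hX0
  rw [e1, k2]
  linarith

end Pool.Agent.U126.QP
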