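import Pool.Agent.U126.QP.Count
import Pool.Agent.U126.NC.Gen
import Pool.Agent.U126.W3.Link
import Pool.Agent.TH546.SG.Inst2

/-! # Statements of the packages -/

set_option autoImplicit false

namespace Pool.Agent.U126.QP

open scoped Classical
open Pool.Agent.W840.CT Pool.Agent.U126.NC

/-- the rotations of the lattice -/
def rho : Fin 4 → Pt → Pt
  | 0 => fun p => p
  | 1 => fun p => (-p.2, p.1)
  | 2 => fun p => (-p.1, -p.2)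
  | 3 => fun p => (p.2, -p.1)

/-- **Package CAND.** -/
def S_CAND : Prop := ∀ (A : Set Pt) (L : ℕ) (r : ℤ) (B : List Pt), 50 ≤ L →
  400 * (L : ℤ) ^ 2 ≤ r → r ≤ 400 * ((L : ℤ) + 1) ^ 2 →
  (VD A r B).card ≤ ((VD A (r - 7 * (L : ℤ) ^ 2) B).card + 2 * (24 * L + 1) ^ 2 +
    ∑ o : Fin 4, (CA (rho o '' A) L r (B.map (rho o))).card) * (81 * (L + 1)) ^ 2

/-- **Package ITER.** -/
def S_ITER : Prop := ∀ (L : ℕ) (r : ℤ) (k l : ℕ) (E : Pt) (PP : Finset (List Pt)) (D x G : ℕ),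
  50 ≤ L → 400 * (L : ℤ) ^ 2 ≤ r → r ≤ 400 * ((L : ℤ) + 1) ^ 2 →
  (∀ Q ∈ PP, Ring (L : ℤ) (zt k Q) E ∧ Q.length = l) →
  16 * 33 * 4 ^ 32 * (D + l + 33) * Om L l * cn l ≤ x * PP.card →
  (81 * (L + 1)) ^ 2 * (D + l + 33 + 2 * (24 * L + 1) ^ 2 + 4 * x) + 1 ≤ G →
  ∀ (A : Set Pt) (m t : ℕ), 1 ≤ t →
  4 ^ t * ({B | B ∈ LS m ∧ (VD A (r - 7 * (L : ℤ) ^ 2) B).card ≤ D * t ∧
    G * t ≤ (VD A r B).card} : Set (List Pt)).ncard ≤ cn m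

/-- self-avoiding walks with `n` steps from the origin to `E` in a cone around the first axis, which
meet the line `x + y = L` only at their end -/
def Arm (L : ℤ) (n : ℕ) (E : Pt) : Set (List Pt) :=
  {α | α ∈ LS n ∧ α.getLast? = some E ∧ ∀ p ∈ α, 4 * |p.2| ≤ p.1 ∧ (p ≠ E → p.1 + p.2 < L)}

/-- **Package POLY.** -/
def S_POLY : Prop := ∀ (L n : ℕ) (E : Pt), 50 ≤ L → E.1 + E.2 = L → 4 * |E.2| ≤ E.1 →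
  ∃ PP : Finset (List Pt), (∀ Q ∈ PP, Ring (L : ℤ) (zt (2 * n) Q) E ∧ Q.length = 4 * n) ∧
    (Arm L n E).ncard ^ 4 ≤ PP.card

/-- **Package ARM.** -/
def S_ARM : Prop := ∃ K : ℝ, 0 < K ∧ ∀ L : ℕ, 50 ≤ L → ∃ (n : ℕ) (E : Pt),
  1 ≤ n ∧ n ≤ 4 * (L + 1) ^ 2 ∧ E.1 + E.2 = L ∧ 4 * |E.2| ≤ E.1 ∧
    H981.mu ^ n ≤ (Arm L n E).ncard * Real.exp (K * Real.log L ^ 3)

/-- **Package CYC.** -/
def S_PP : Prop := ∃ K : ℝ, 0 < K ∧ ∀ L : ℕ, 50 ≤ L →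
  ∃ (k l : ℕ) (E : Pt) (PP : Finset (List Pt)),
    (∀ Q ∈ PP, Ring (L : ℤ) (zt k Q) E ∧ Q.length = l) ∧ 1 ≤ l ∧ l ≤ 16 * (L + 1) ^ 2 ∧
      H981.mu ^ l ≤ PP.card * Real.exp (K * Real.log L ^ 2)

/-- the conclusion at one scale -/
def S_STEP : Prop := ∃ K : ℝ, 0 < K ∧ ∀ (L : ℕ) (r : ℤ) (D : ℕ), 50 ≤ L →
  400 * (L : ℤ) ^ 2 ≤ r → r ≤ 400 * ((L : ℤ) + 1) ^ 2 → 1 ≤ D →
  ∃ G : ℕ, (G : ℝ) ≤ D * Real.exp (K * Real.log L ^ 2) ∧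
    ∀ (A : Set Pt) (m t : ℕ), 1 ≤ t →
    4 ^ t * ({B | B ∈ LS m ∧ (VD A (r - 7 * (L : ℤ) ^ 2) B).card ≤ D * t ∧
      G * t ≤ (VD A r B).card} : Set (List Pt)).ncard ≤ cn m

/-- the clean form of the tails with constants which grow like `exp (K log³ k)` -/
def S_MAIN : Prop := ∃ K : ℝ, 0 < K ∧ ∀ k : ℕ, 1 ≤ k → ∃ D : ℕ, 1 ≤ D ∧
  (D : ℝ) ≤ Real.exp (K * Real.log (k + 1) ^ 3) ∧
  ∀ A : Set Pt, (∀ u ∈ A, far u → ∃ u' ∈ A, adj u u') → ∀ n s : ℕ,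
    4 ^ s * ({B | B ∈ LS n ∧ (∀ v ∈ B, v ∈ A → v = 0) ∧ D * (s + 1) ≤ (VV A k B).card} :
      Set (List Pt)).ncard ≤ cn n

end Pool.Agent.U126.QP
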